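import Pool.Agent.Lib.MP_74a8fd_ag.HP.Defs2

/-! MP_74a8fd_ag: algebra of forms. -/

open Matrix MeasureTheory Filter Topology

noncomputable section

namespace MP_74a8fd_ag.HP

open ExteriorAlgebra (ι)

instance finite_PDual (n : ℕ) : Module.Finite ℂ (PDual n) := by
  classical
  have : Module.Finite ℝ (SymC n) := inferInstance
  let b := Module.finBasis ℝ (SymC n)
  let f : PDual n →ₗ[ℂ] (Fin (Module.finrank ℝ (SymC n)) → ℂ) :=
    { toFun := fun ω i => ω (b i)
      map_add' := by intro a b; rfl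
      map_smul' := by intro c a; rfl }
  refine Module.Finite.of_injective f ?_
  intro ω ω' h
  refine b.ext (fun i => ?_)
  exact congrFun h i

instance finite_Forms (n : ℕ) : Module.Finite ℂ (Forms n) := by
  classical
  exact Module.Finite.of_basis (Module.finBasis ℂ (PDual n)).ExteriorAlgebra

theorem ι_mul_comm {n : ℕ} (m : PDual n) (a : Forms n) :
    ι ℂ m * a = CliffordAlgebra.involute a * ι ℂ m := by
  induction a using ExteriorAlgebra.induction with
  | algebraMap r => 
    rw [show (CliffordAlgebra.involute (algebraMap ℂ (Forms n) r)) = algebraMap ℂ (Forms n) r from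
      AlgHom.commutes _ _]
    exact (Algebra.commutes r _).symm
  | ι x =>
    have h := ExteriorAlgebra.ι_add_mul_swap (R := ℂ) m x
    rw [show (CliffordAlgebra.involute (ι ℂ x)) = - ι ℂ x from CliffordAlgebra.involute_ι x]
    rw [neg_mul]
    exact eq_neg_of_add_eq_zero_left h
  | mul a b ha hb =>
    rw [map_mul, ← mul_assoc, ha, mul_assoc, hb, mul_assoc]
  | add a b ha hb =>
    rw [map_add, mul_add, add_mul, ha, hb]

theorem dx_eq {n : ℕ} (i j : Fin n) : dx i j = (1 / 2 : ℂ) • (dz i j + dzb i j) := by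
  ext Z
  change ((((Z : Matrix (Fin n) (Fin n) ℂ) i j).re : ℝ) : ℂ) =
    (1 / 2 : ℂ) * ((Z : Matrix (Fin n) (Fin n) ℂ) i j +
      (starRingEnd ℂ) ((Z : Matrix (Fin n) (Fin n) ℂ) i j))
  generalize (Z : Matrix (Fin n) (Fin n) ℂ) i j = w
  rw [Complex.add_conj]
  push_cast
  ring

theorem dy_eq {n : ℕ} (i j : Fin n) :
    dy i j = (1 / (2 * Complex.I) : ℂ) • (dz i j - dzb i j) := by
  ext Z
  change ((((Z : Matrix (Fin n) (Fin n) ℂ) i j).im : ℝ) : ℂ) =
    (1 / (2 * Complex.I) : ℂ) * ((Z : Matrix (Fin n) (Fin n) ℂ) i j -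
      (starRingEnd ℂ) ((Z : Matrix (Fin n) (Fin n) ℂ) i j))
  generalize (Z : Matrix (Fin n) (Fin n) ℂ) i j = w
  rw [Complex.sub_conj]
  have hI : Complex.I ≠ 0 := Complex.I_ne_zero
  field_simp
  push_cast
  ring

theorem dz_comm {n : ℕ} (i j : Fin n) : dz i j = dz j i := by
  ext Z
  have h : (Z : Matrix (Fin n) (Fin n) ℂ)ᵀ = Z := Z.2
  change (Z : Matrix (Fin n) (Fin n) ℂ) i j = (Z : Matrix (Fin n) (Fin n) ℂ) j i
  conv_lhs => rw [← h]
  rfl

theorem dzb_comm {n : ℕ} (i j : Fin n) : dzb i j = dzb j i := by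
  ext Z
  have h : (Z : Matrix (Fin n) (Fin n) ℂ)ᵀ = Z := Z.2
  change (starRingEnd ℂ) ((Z : Matrix (Fin n) (Fin n) ℂ) i j) =
    (starRingEnd ℂ) ((Z : Matrix (Fin n) (Fin n) ℂ) j i)
  conv_lhs => rw [← h]
  rfl

/-- a product of 2-forms `ι x_i * ι y_i` is killed by each `ι x_i`, `ι y_i`. -/
theorem list_prod_mul {n : ℕ} (L : List (PDual n × PDual n)) (p : PDual n × PDual n)
    (hp : p ∈ L) : (L.map fun q => ι ℂ q.1 * ι ℂ q.2).prod * ι ℂ p.1 = 0 ∧
      (L.map fun q => ι ℂ q.1 * ι ℂ q.2).prod * ι ℂ p.2 = 0 := by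
  induction L with
  | nil => simp at hp
  | cons q L ih =>
    have hcomm : ∀ (m : PDual n) (x : Forms n), ι ℂ m * x = CliffordAlgebra.involute x * ι ℂ m :=
      fun m x => ι_mul_comm m x
    rw [List.map_cons, List.prod_cons]
    have hev : CliffordAlgebra.involute (L.map fun q => ι ℂ q.1 * ι ℂ q.2).prod =
        (L.map fun q => ι ℂ q.1 * ι ℂ q.2).prod := by
      clear ih hp
      induction L with
      | nil => simp
      | cons r L ih =>
        rw [List.map_cons, List.prod_cons, map_mul, map_mul, ih,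
          show (CliffordAlgebra.involute (ι ℂ r.1)) = - ι ℂ r.1 from
            CliffordAlgebra.involute_ι _,
          show (CliffordAlgebra.involute (ι ℂ r.2)) = - ι ℂ r.2 from
            CliffordAlgebra.involute_ι _, neg_mul_neg]
    set P := (L.map fun q => ι ℂ q.1 * ι ℂ q.2).prod with hP
    have hPc : ∀ m : PDual n, P * ι ℂ m = ι ℂ m * P := by
      intro m
      rw [hcomm m P, hev]
    rcases List.mem_cons.1 hp with h | h
    · subst h
      constructor
      · rw [mul_assoc, hPc, ← mul_assoc, mul_assoc (ι ℂ p.1),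
          eq_neg_of_add_eq_zero_left (ExteriorAlgebra.ι_add_mul_swap (R := ℂ) p.2 p.1),
          mul_neg, ← mul_assoc, ExteriorAlgebra.ι_sq_zero]
        simp
      · rw [mul_assoc, hPc, ← mul_assoc, mul_assoc (ι ℂ p.1), ExteriorAlgebra.ι_sq_zero]
        simp
    · obtain ⟨h1, h2⟩ := ih h
      exact ⟨by rw [mul_assoc, h1, mul_zero], by rw [mul_assoc, h2, mul_zero]⟩

theorem dzv_single {n : ℕ} (o i : Fin n) : dzv (Pi.single o 1) i = dz i o := by
  classical
  unfold dzv
  rw [Finset.sum_eq_single o]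
  · simp
  · intro b _ hb
    simp [Pi.single_eq_of_ne hb]
  · simp

theorem dzbv_single {n : ℕ} (o i : Fin n) : dzbv (Pi.single o 1) i = dzb i o := by
  classical
  unfold dzbv
  rw [Finset.sum_eq_single o]
  · simp
  · intro b _ hb
    simp [Pi.single_eq_of_ne hb]
  · simp

theorem phi_mul_dz {n : ℕ} (o i : Fin n) :
    phiVec (Pi.single o 1) * ι ℂ (dz i o) = 0 ∧ phiVec (Pi.single o 1) * ι ℂ (dzb i o) = 0 := by
  have h := list_prod_mul (List.ofFn fun i : Fin n => (dz i o, dzb i o)) (dz i o, dzb i o)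
    (List.mem_ofFn.2 ⟨i, rfl⟩)
  have h2 : phiVec (Pi.single o 1) =
      ((List.ofFn fun i : Fin n => (dz i o, dzb i o)).map fun q => ι ℂ q.1 * ι ℂ q.2).prod := by
    unfold phiVec
    simp only [dzv_single, dzbv_single, List.map_ofFn]
    rfl
  rw [h2]
  exact h

theorem phi_mul_dx {n : ℕ} {o i j : Fin n} (h : i = o ∨ j = o) :
    phiVec (Pi.single o 1) * ι ℂ (dx i j) = 0 := by
  rw [dx_eq, map_smul, map_add, mul_smul_comm, mul_add]
  rcases h with h | h
  · subst h
    rw [dz_comm, dzb_comm, (phi_mul_dz _ _).1, (phi_mul_dz _ _).2]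
    simp
  · subst h
    rw [(phi_mul_dz _ _).1, (phi_mul_dz _ _).2]
    simp

theorem phi_mul_dy {n : ℕ} {o i j : Fin n} (h : i = o ∨ j = o) :
    phiVec (Pi.single o 1) * ι ℂ (dy i j) = 0 := by
  rw [dy_eq, map_smul, map_sub, mul_smul_comm, mul_sub]
  rcases h with h | h
  · subst h
    rw [dz_comm, dzb_comm, (phi_mul_dz _ _).1, (phi_mul_dz _ _).2]
    simp
  · subst h
    rw [(phi_mul_dz _ _).1, (phi_mul_dz _ _).2]
    simp

theorem evalAt_dx {n : ℕ} (o i j : Fin n) :
    evalAt (E 1 o o) (dx i j) = if i = o ∧ j = o then 1 else 0 := by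
  change (((((E 1 o o : SymC n) : Matrix (Fin n) (Fin n) ℂ) i j).re : ℝ) : ℂ) = _
  simp only [E, Matrix.of_apply]
  by_cases h : i = o ∧ j = o
  · simp [h]
  · simp [h]

theorem evalAt_dy {n : ℕ} (o i j : Fin n) :
    evalAt (E 1 o o) (dy i j) = 0 := by
  change (((((E 1 o o : SymC n) : Matrix (Fin n) (Fin n) ℂ) i j).im : ℝ) : ℂ) = _
  simp only [E, Matrix.of_apply]
  by_cases h : i = o ∧ j = o
  · simp [h]
  · simp [h]

/-- closedness gives the derivative in the direction `E 1 o o`. -/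
theorem closed_contract {n : ℕ} (o : Fin n) (D : SymC n → Forms n) (h : extD D = 0) :
    D (E 1 o o) = extD fun Z => CliffordAlgebra.contractLeft (evalAt (E 1 o o)) (D Z) := by
  have h1 := congrArg (CliffordAlgebra.contractLeft (evalAt (E 1 o o))) h
  rw [map_zero] at h1
  unfold extD wmul wi at h1 ⊢
  rw [map_sum] at h1
  have h2 : ∀ i j : Fin n, CliffordAlgebra.contractLeft (evalAt (E 1 o o))
      (if i ≤ j then ι ℂ (dx i j) * D (E 1 i j) + ι ℂ (dy i j) * D (E Complex.I i j) else 0) =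
      (if i = o ∧ j = o then D (E 1 o o) else 0) -
      (if i ≤ j then ι ℂ (dx i j) *
          CliffordAlgebra.contractLeft (evalAt (E 1 o o)) (D (E 1 i j)) +
        ι ℂ (dy i j) * CliffordAlgebra.contractLeft (evalAt (E 1 o o)) (D (E Complex.I i j))
        else 0) := by
    intro i j
    by_cases hij : i ≤ j
    · rw [if_pos hij, if_pos hij, map_add]
      rw [show CliffordAlgebra.contractLeft (evalAt (E 1 o o)) (ι ℂ (dx i j) * D (E 1 i j)) =
        evalAt (E 1 o o) (dx i j) • D (E 1 i j) - ι ℂ (dx i j) *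
          CliffordAlgebra.contractLeft (evalAt (E 1 o o)) (D (E 1 i j)) from
          CliffordAlgebra.contractLeft_ι_mul _ _ _]
      rw [show CliffordAlgebra.contractLeft (evalAt (E 1 o o))
          (ι ℂ (dy i j) * D (E Complex.I i j)) =
        evalAt (E 1 o o) (dy i j) • D (E Complex.I i j) - ι ℂ (dy i j) *
          CliffordAlgebra.contractLeft (evalAt (E 1 o o)) (D (E Complex.I i j)) from
          CliffordAlgebra.contractLeft_ι_mul _ _ _]
      rw [evalAt_dx, evalAt_dy, zero_smul]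
      by_cases ho : i = o ∧ j = o
      · rw [if_pos ho, if_pos ho, one_smul, ho.1, ho.2]
        abel
      · rw [if_neg ho, if_neg ho, zero_smul]
        abel
    · have ho : ¬ (i = o ∧ j = o) := by
        rintro ⟨rfl, rfl⟩
        exact hij le_rfl
      rw [if_neg hij, if_neg hij, if_neg ho]
      simp
  simp only [map_sum, h2] at h1
  simp only [Finset.sum_sub_distrib] at h1
  have h3 : ∑ i : Fin n, ∑ j : Fin n, (if i = o ∧ j = o then D (E 1 o o) else 0) =
      D (E 1 o o) := by
    rw [Finset.sum_eq_single o, Finset.sum_eq_single o]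
    · simp
    · intro b _ hb
      simp [hb]
    · simp
    · intro b _ hb
      simp [hb]
    · simp
  rw [h3] at h1
  exact sub_eq_zero.1 h1

end MP_74a8fd_ag.HP
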