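import Pool.Agent.Lib.MP_74a8fd_ag.HP.Maut

/-! MP_74a8fd_ag: convergence of averages of correlations, `L^p` against `L^q`. -/

open Matrix MeasureTheory Filter Topology
open scoped ENNReal

set_option linter.unusedSectionVars false

noncomputable section

namespace MP_74a8fd_ag.HP

section

variable {G X : Type*} [Group G] [TopologicalSpace G] [IsTopologicalGroup G]
  [TopologicalSpace X] [R1Space X] [MeasurableSpace X] [BorelSpace X] [MulAction G X]
  [ContinuousSMul G X] {μ : Measure X} [IsFiniteMeasure μ] [μ.InnerRegularCompactLTTop]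
  [SMulInvariantMeasure G X μ]

theorem tendsto_avg_L2 (a : G)
    (hgen : ∀ S : Subgroup G,
      (∀ u : G, Tendsto (fun k : ℕ => a ^ k * u * (a ^ k)⁻¹) atTop (𝓝 1) → u ∈ S) →
      (∀ u : G, Tendsto (fun k : ℕ => (a ^ k)⁻¹ * u * a ^ k) atTop (𝓝 1) → u ∈ S) → S = ⊤)
    (herg : ∀ F : X → ℂ, AEStronglyMeasurable F μ → (∀ g : G, (fun x => F (g • x)) =ᵐ[μ] F) →
      ∃ c : ℂ, F =ᵐ[μ] fun _ => c)
    {f h : X → ℂ} (hf : MemLp f 2 μ) (hh : MemLp h 2 μ) :
    Tendsto (fun N : ℕ => (μ.real Set.univ : ℂ) *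
      ((N : ℂ)⁻¹ * ∑ k ∈ Finset.range N, ∫ x, f (a ^ k • x) * h x ∂μ)) atTop
      (𝓝 ((∫ x, f x ∂μ) * ∫ x, h x ∂μ)) := by
  classical
  set U : Lp ℂ 2 μ →L[ℂ] Lp ℂ 2 μ := (transl a).toContinuousLinearMap with hU
  have hUn : ‖U‖ ≤ 1 := LinearIsometry.norm_toContinuousLinearMap_le _
  set K := U.eqLocus (1 : Lp ℂ 2 μ →L[ℂ] Lp ℂ 2 μ) with hK
  have hfix : ∀ F : Lp ℂ 2 μ, F ∈ K ↔ DomMulAct.mk a • F = F := fun F => Iff.rfl
  have hiter : ∀ (k : ℕ) (F : Lp ℂ 2 μ), U^[k] F = DomMulAct.mk (a ^ k) • F := fun k F =>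
    transl_iterate a k F
  have hconst : ∀ F ∈ K, ∃ c : ℂ, (F : X → ℂ) =ᵐ[μ] fun _ => c := by
    intro F hF
    have h0 : a ∈ fixer G F := (hfix F).1 hF
    have h1 : fixer G F = ⊤ := by
      apply hgen
      · intro u hu
        exact mautner F (fun k => a ^ k) (fun k => Subgroup.pow_mem _ h0 k) u hu
      · intro u hu
        refine mautner F (fun k => (a ^ k)⁻¹)
          (fun k => Subgroup.inv_mem _ (Subgroup.pow_mem _ h0 k)) u ?_
        simpa using hu
    refine herg F (Lp.aestronglyMeasurable F) fun g => ?_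
    have h2 : g ∈ fixer G F := by rw [h1]; exact Subgroup.mem_top g
    have h3 := DomMulAct.smul_Lp_ae_eq (DomMulAct.mk g) F
    rw [show DomMulAct.mk g • F = F from h2] at h3
    exact h3.symm
  have hstar : MemLp (fun x => (starRingEnd ℂ) (h x)) 2 μ := hh.star
  have hlim : Tendsto (fun N : ℕ => (μ.real Set.univ : ℂ) * inner ℂ (hstar.toLp _)
      (birkhoffAverage ℂ U _root_.id N (hf.toLp f))) atTop
      (𝓝 ((μ.real Set.univ : ℂ) * inner ℂ (hstar.toLp _)
        (K.orthogonalProjectionOnto (hf.toLp f) : Lp ℂ 2 μ))) :=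
    (Tendsto.inner tendsto_const_nhds
      (U.tendsto_birkhoffAverage_orthogonalProjection hUn (hf.toLp f))).const_mul _
  have h1 : ∀ N : ℕ, inner ℂ (hstar.toLp _)
      (birkhoffAverage ℂ U _root_.id N (hf.toLp f)) =
      (N : ℂ)⁻¹ * ∑ k ∈ Finset.range N, ∫ x, f (a ^ k • x) * h x ∂μ := by
    intro N
    rw [birkhoffAverage, birkhoffSum, inner_smul_right, inner_sum]
    congr 1
    refine Finset.sum_congr rfl fun k _ => ?_
    rw [_root_.id, hiter, inner_conj_toLp, DomMulAct.mk_smul_toLp]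
    refine integral_congr_ae ?_
    filter_upwards [(MemLp.coeFn_toLp (hf.comp_measurePreserving
      (measurePreserving_smul (a ^ k) μ)))] with x hx
    simp only [Function.comp_def] at hx
    rw [hx]
  simp only [h1] at hlim
  obtain ⟨c, hc⟩ := hconst _ (K.orthogonalProjectionOnto (hf.toLp f)).2
  have h2 : (μ.real Set.univ : ℂ) * inner ℂ (hstar.toLp _)
        (K.orthogonalProjectionOnto (hf.toLp f) : Lp ℂ 2 μ) =
      (∫ x, f x ∂μ) * ∫ x, h x ∂μ := by
    rw [inner_conj_toLp]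
    have h1 : ∫ x, (K.orthogonalProjectionOnto (hf.toLp f) : Lp ℂ 2 μ) x * h x ∂μ =
        c * ∫ x, h x ∂μ := by
      rw [← integral_const_mul]
      refine integral_congr_ae ?_
      filter_upwards [hc] with x hx
      rw [hx]
    have h2 : (μ.real Set.univ : ℂ) * c = ∫ x, f x ∂μ := by
      have hone : Lp.const 2 μ (1 : ℂ) ∈ K := by
        rw [hfix]
        exact DomMulAct.smul_Lp_const _ _
      have h3 : inner ℂ (Lp.const 2 μ (1 : ℂ)) (K.orthogonalProjectionOnto (hf.toLp f) :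
          Lp ℂ 2 μ) = inner ℂ (Lp.const 2 μ (1 : ℂ)) (hf.toLp f) :=
        K.inner_orthogonalProjectionOnto_eq_of_mem_left ⟨_, hone⟩ _
      rw [L2.inner_def, L2.inner_def] at h3
      have h4 : ∫ x, inner ℂ (Lp.const 2 μ (1 : ℂ) x)
          ((K.orthogonalProjectionOnto (hf.toLp f) : Lp ℂ 2 μ) x) ∂μ =
          ∫ x, c ∂μ := by
        refine integral_congr_ae ?_
        filter_upwards [hc, Lp.coeFn_const 2 μ (1 : ℂ)] with x hx hx1
        rw [hx, hx1, RCLike.inner_apply]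
        simp
      have h5 : ∫ x, inner ℂ (Lp.const 2 μ (1 : ℂ) x) (hf.toLp f x) ∂μ =
          ∫ x, f x ∂μ := by
        refine integral_congr_ae ?_
        filter_upwards [hf.coeFn_toLp, Lp.coeFn_const 2 μ (1 : ℂ)] with x hx hx1
        rw [hx, hx1, RCLike.inner_apply]
        simp
      rw [h4, h5, integral_const] at h3
      rw [← h3]
      simp
    rw [h1, ← mul_assoc, h2]
  rw [h2] at hlim
  exact hlim

/-- approximation of a sequence by convergent sequences. -/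
theorem tendsto_of_approx {u : ℕ → ℂ} {l : ℂ} (H : ∀ ε : ℝ, 0 < ε → ∃ (v : ℕ → ℂ) (m : ℂ),
    Tendsto v atTop (𝓝 m) ∧ (∀ N, ‖u N - v N‖ ≤ ε) ∧ ‖l - m‖ ≤ ε) :
    Tendsto u atTop (𝓝 l) := by
  rw [Metric.tendsto_atTop]
  intro ε hε
  obtain ⟨v, m, hv, h1, h2⟩ := H (ε / 4) (by positivity)
  obtain ⟨N₀, hN₀⟩ := (Metric.tendsto_atTop.1 hv) (ε / 4) (by positivity)
  refine ⟨N₀, fun N hN => ?_⟩
  have h3 := hN₀ N hN
  rw [dist_eq_norm] at h3 ⊢
  calc ‖u N - l‖ = ‖(u N - v N) + (v N - m) - (l - m)‖ := by congr 1; ring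
    _ ≤ ‖(u N - v N) + (v N - m)‖ + ‖l - m‖ := norm_sub_le _ _
    _ ≤ ‖u N - v N‖ + ‖v N - m‖ + ‖l - m‖ := by
        have := norm_add_le (u N - v N) (v N - m)
        linarith
    _ < ε := by
        have := h1 N
        linarith

omit [IsTopologicalGroup G] [TopologicalSpace G] [Group G] [TopologicalSpace X] [R1Space X]
  [BorelSpace X] [MulAction G X] [ContinuousSMul G X] [IsFiniteMeasure μ]
  [μ.InnerRegularCompactLTTop] [SMulInvariantMeasure G X μ] in
theorem holder_bound {p q : ℝ≥0∞} [ENNReal.HolderConjugate p q] {g h : X → ℂ}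
    (hg : MemLp g p μ) (hh : MemLp h q μ) :
    ‖∫ x, g x * h x ∂μ‖ ≤ (eLpNorm g p μ).toReal * (eLpNorm h q μ).toReal := by
  have h1 : ‖∫ x, g x * h x ∂μ‖ₑ ≤ eLpNorm g p μ * eLpNorm h q μ := by
    refine (enorm_integral_le_lintegral_enorm _).trans ?_
    have h2 := eLpNorm_smul_le_mul_eLpNorm (p := p) (q := q) (r := 1) hh.1 hg.1
    rw [eLpNorm_one_eq_lintegral_enorm] at h2
    exact h2
  have h3 : eLpNorm g p μ * eLpNorm h q μ ≠ ∞ := ENNReal.mul_ne_top hg.2.ne hh.2.ne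
  have h4 := ENNReal.toReal_mono h3 h1
  rwa [toReal_enorm, ENNReal.toReal_mul] at h4

/-- The averages of the correlations. -/
def avg (μ : Measure X) (a : G) (f h : X → ℂ) (N : ℕ) : ℂ :=
  (μ.real Set.univ : ℂ) * ((N : ℂ)⁻¹ * ∑ k ∈ Finset.range N, ∫ x, f (a ^ k • x) * h x ∂μ)

theorem comp_memLp {p : ℝ≥0∞} {f : X → ℂ} (hf : MemLp f p μ) (g : G) :
    MemLp (fun x => f (g • x)) p μ :=
  hf.comp_measurePreserving (measurePreserving_smul g μ)

theorem eLpNorm_comp {p : ℝ≥0∞} {f : X → ℂ} (hf : MemLp f p μ) (g : G) :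
    eLpNorm (fun x => f (g • x)) p μ = eLpNorm f p μ :=
  eLpNorm_comp_measurePreserving hf.1 (measurePreserving_smul g μ)

theorem norm_avg_le {p q : ℝ≥0∞} [ENNReal.HolderConjugate p q] (a : G) {f h : X → ℂ}
    (hf : MemLp f p μ) (hh : MemLp h q μ) (N : ℕ) :
    ‖avg μ a f h N‖ ≤ μ.real Set.univ * ((eLpNorm f p μ).toReal * (eLpNorm h q μ).toReal) := by
  unfold avg
  rw [norm_mul]
  have h0 : ‖(μ.real Set.univ : ℂ)‖ = μ.real Set.univ := by
    rw [Complex.norm_real, Real.norm_eq_abs, abs_of_nonneg measureReal_nonneg]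
  rw [h0]
  refine mul_le_mul_of_nonneg_left ?_ measureReal_nonneg
  have h1 : ∀ k : ℕ, ‖∫ x, f (a ^ k • x) * h x ∂μ‖ ≤
      (eLpNorm f p μ).toReal * (eLpNorm h q μ).toReal := by
    intro k
    have := holder_bound (comp_memLp hf (a ^ k)) hh
    rwa [eLpNorm_comp hf] at this
  rcases Nat.eq_zero_or_pos N with rfl | hN
  · simp only [Finset.range_zero, Finset.sum_empty, mul_zero, norm_zero]
    positivity
  · rw [norm_mul, norm_inv, Complex.norm_natCast]
    calc (N : ℝ)⁻¹ * ‖∑ k ∈ Finset.range N, ∫ x, f (a ^ k • x) * h x ∂μ‖ ≤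
        (N : ℝ)⁻¹ * ∑ k ∈ Finset.range N, ((eLpNorm f p μ).toReal * (eLpNorm h q μ).toReal) := by
          refine mul_le_mul_of_nonneg_left ?_ (by positivity)
          exact (norm_sum_le _ _).trans (Finset.sum_le_sum fun k _ => h1 k)
      _ = (eLpNorm f p μ).toReal * (eLpNorm h q μ).toReal := by
          rw [Finset.sum_const, Finset.card_range, nsmul_eq_mul, ← mul_assoc, inv_mul_cancel₀,
            one_mul]
          exact_mod_cast hN.ne'

theorem avg_sub_left {p q : ℝ≥0∞} [ENNReal.HolderConjugate p q] (a : G) {f f' h : X → ℂ}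
    (hf : MemLp f p μ) (hf' : MemLp f' p μ) (hh : MemLp h q μ) (N : ℕ) :
    avg μ a f h N - avg μ a f' h N = avg μ a (f - f') h N := by
  unfold avg
  rw [← mul_sub, ← mul_sub, ← Finset.sum_sub_distrib]
  congr 2
  refine Finset.sum_congr rfl fun k _ => ?_
  have i1 : Integrable (fun x => f (a ^ k • x) * h x) μ := (comp_memLp hf _).integrable_mul hh
  have i2 : Integrable (fun x => f' (a ^ k • x) * h x) μ := (comp_memLp hf' _).integrable_mul hh
  rw [← integral_sub i1 i2]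
  congr 1
  ext x
  simp only [Pi.sub_apply]
  ring

theorem avg_sub_right {p q : ℝ≥0∞} [ENNReal.HolderConjugate p q] (a : G) {f h h' : X → ℂ}
    (hf : MemLp f p μ) (hh : MemLp h q μ) (hh' : MemLp h' q μ) (N : ℕ) :
    avg μ a f h N - avg μ a f h' N = avg μ a f (h - h') N := by
  unfold avg
  rw [← mul_sub, ← mul_sub, ← Finset.sum_sub_distrib]
  congr 2
  refine Finset.sum_congr rfl fun k _ => ?_
  have i1 : Integrable (fun x => f (a ^ k • x) * h x) μ := (comp_memLp hf _).integrable_mul hh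
  have i2 : Integrable (fun x => f (a ^ k • x) * h' x) μ := (comp_memLp hf _).integrable_mul hh'
  rw [← integral_sub i1 i2]
  congr 1
  ext x
  simp only [Pi.sub_apply]
  ring

theorem norm_integral_le' {p q : ℝ≥0∞} [ENNReal.HolderConjugate p q] {f : X → ℂ}
    (hf : MemLp f p μ) :
    ‖∫ x, f x ∂μ‖ ≤ (eLpNorm f p μ).toReal * (eLpNorm (fun _ : X => (1 : ℂ)) q μ).toReal := by
  have := holder_bound hf (memLp_const (1 : ℂ) (p := q) (μ := μ))
  simpa using this

/-- Convergence of the averages passes to `L^p` limits in the first argument. -/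
theorem tendsto_avg_left {p q : ℝ≥0∞} [ENNReal.HolderConjugate p q] (hp : p ≠ ∞) (a : G)
    {f h : X → ℂ} (hf : MemLp f p μ) (hh : MemLp h q μ)
    (H : ∀ f' : SimpleFunc X ℂ, Tendsto (avg μ a f' h) atTop
      (𝓝 ((∫ x, f' x ∂μ) * ∫ x, h x ∂μ))) :
    Tendsto (avg μ a f h) atTop (𝓝 ((∫ x, f x ∂μ) * ∫ x, h x ∂μ)) := by
  refine tendsto_of_approx fun ε hε => ?_
  set C : ℝ := μ.real Set.univ * (eLpNorm h q μ).toReal +
    (eLpNorm (fun _ : X => (1 : ℂ)) q μ).toReal * ‖∫ x, h x ∂μ‖ + 1 with hC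
  have hC0 : 0 < C := by
    have h1 : 0 ≤ μ.real Set.univ * (eLpNorm h q μ).toReal := by positivity
    have h2 : 0 ≤ (eLpNorm (fun _ : X => (1 : ℂ)) q μ).toReal * ‖∫ x, h x ∂μ‖ := by positivity
    linarith
  obtain ⟨g, hg, hg2⟩ := hf.exists_simpleFunc_eLpNorm_sub_lt hp
    (ε := ENNReal.ofReal (ε / C)) (by simpa using div_pos hε hC0)
  have hgd : (eLpNorm (f - ⇑g) p μ).toReal ≤ ε / C := by
    have := ENNReal.toReal_mono ENNReal.ofReal_ne_top hg.le
    rwa [ENNReal.toReal_ofReal (by positivity)] at this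
  refine ⟨avg μ a g h, (∫ x, g x ∂μ) * ∫ x, h x ∂μ, H g, fun N => ?_, ?_⟩
  · rw [avg_sub_left a hf hg2 hh]
    refine (norm_avg_le a (hf.sub hg2) hh N).trans ?_
    have h1 : μ.real Set.univ * (eLpNorm h q μ).toReal ≤ C := by
      have h2 : 0 ≤ (eLpNorm (fun _ : X => (1 : ℂ)) q μ).toReal * ‖∫ x, h x ∂μ‖ := by positivity
      linarith
    calc μ.real Set.univ * ((eLpNorm (f - ⇑g) p μ).toReal * (eLpNorm h q μ).toReal) =
        (eLpNorm (f - ⇑g) p μ).toReal * (μ.real Set.univ * (eLpNorm h q μ).toReal) := by ring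
      _ ≤ (ε / C) * C := by
          refine mul_le_mul hgd h1 (by positivity) (by positivity)
      _ = ε := by field_simp
  · rw [← sub_mul, norm_mul, ← integral_sub]
    · have h1 := norm_integral_le' (q := q) (hf.sub hg2)
      have h2 : (eLpNorm (fun _ : X => (1 : ℂ)) q μ).toReal * ‖∫ x, h x ∂μ‖ ≤ C := by
        have h2 : 0 ≤ μ.real Set.univ * (eLpNorm h q μ).toReal := by positivity
        linarith
      calc ‖∫ x, (f x - g x) ∂μ‖ * ‖∫ x, h x ∂μ‖ ≤
          ((eLpNorm (f - ⇑g) p μ).toReal * (eLpNorm (fun _ : X => (1 : ℂ)) q μ).toReal) *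
            ‖∫ x, h x ∂μ‖ := mul_le_mul_of_nonneg_right h1 (norm_nonneg _)
        _ = (eLpNorm (f - ⇑g) p μ).toReal *
            ((eLpNorm (fun _ : X => (1 : ℂ)) q μ).toReal * ‖∫ x, h x ∂μ‖) := by ring
        _ ≤ (ε / C) * C := mul_le_mul hgd h2 (by positivity) (by positivity)
        _ = ε := by field_simp
    · exact hf.integrable (ENNReal.HolderConjugate.one_le p q)
    · exact hg2.integrable (ENNReal.HolderConjugate.one_le p q)

/-- Convergence of the averages passes to `L^q` limits in the second argument. -/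
theorem tendsto_avg_right {p q : ℝ≥0∞} [ENNReal.HolderConjugate p q] (hq : q ≠ ∞) (a : G)
    {f h : X → ℂ} (hf : MemLp f p μ) (hh : MemLp h q μ)
    (H : ∀ h' : SimpleFunc X ℂ, Tendsto (avg μ a f h') atTop
      (𝓝 ((∫ x, f x ∂μ) * ∫ x, h' x ∂μ))) :
    Tendsto (avg μ a f h) atTop (𝓝 ((∫ x, f x ∂μ) * ∫ x, h x ∂μ)) := by
  refine tendsto_of_approx fun ε hε => ?_
  set C : ℝ := μ.real Set.univ * (eLpNorm f p μ).toReal +
    (eLpNorm (fun _ : X => (1 : ℂ)) p μ).toReal * ‖∫ x, f x ∂μ‖ + 1 with hC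
  have hC0 : 0 < C := by
    have h1 : 0 ≤ μ.real Set.univ * (eLpNorm f p μ).toReal := by positivity
    have h2 : 0 ≤ (eLpNorm (fun _ : X => (1 : ℂ)) p μ).toReal * ‖∫ x, f x ∂μ‖ := by positivity
    linarith
  obtain ⟨g, hg, hg2⟩ := hh.exists_simpleFunc_eLpNorm_sub_lt hq
    (ε := ENNReal.ofReal (ε / C)) (by simpa using div_pos hε hC0)
  have hgd : (eLpNorm (h - ⇑g) q μ).toReal ≤ ε / C := by
    have := ENNReal.toReal_mono ENNReal.ofReal_ne_top hg.le
    rwa [ENNReal.toReal_ofReal (by positivity)] at this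
  refine ⟨avg μ a f g, (∫ x, f x ∂μ) * ∫ x, g x ∂μ, H g, fun N => ?_, ?_⟩
  · rw [avg_sub_right a hf hh hg2]
    refine (norm_avg_le a hf (hh.sub hg2) N).trans ?_
    have h1 : μ.real Set.univ * (eLpNorm f p μ).toReal ≤ C := by
      have h2 : 0 ≤ (eLpNorm (fun _ : X => (1 : ℂ)) p μ).toReal * ‖∫ x, f x ∂μ‖ := by positivity
      linarith
    calc μ.real Set.univ * ((eLpNorm f p μ).toReal * (eLpNorm (h - ⇑g) q μ).toReal) =
        (eLpNorm (h - ⇑g) q μ).toReal * (μ.real Set.univ * (eLpNorm f p μ).toReal) := by ring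
      _ ≤ (ε / C) * C := by
          refine mul_le_mul hgd h1 (by positivity) (by positivity)
      _ = ε := by field_simp
  · rw [← mul_sub, norm_mul, ← integral_sub]
    · have h1 := norm_integral_le' (q := p) (hh.sub hg2)
      have h2 : (eLpNorm (fun _ : X => (1 : ℂ)) p μ).toReal * ‖∫ x, f x ∂μ‖ ≤ C := by
        have h2 : 0 ≤ μ.real Set.univ * (eLpNorm f p μ).toReal := by positivity
        linarith
      calc ‖∫ x, f x ∂μ‖ * ‖∫ x, (h x - g x) ∂μ‖ ≤
          ‖∫ x, f x ∂μ‖ * ((eLpNorm (h - ⇑g) q μ).toReal *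
            (eLpNorm (fun _ : X => (1 : ℂ)) p μ).toReal) :=
            mul_le_mul_of_nonneg_left h1 (norm_nonneg _)
        _ = (eLpNorm (h - ⇑g) q μ).toReal *
            ((eLpNorm (fun _ : X => (1 : ℂ)) p μ).toReal * ‖∫ x, f x ∂μ‖) := by ring
        _ ≤ (ε / C) * C := mul_le_mul hgd h2 (by positivity) (by positivity)
        _ = ε := by field_simp
    · exact hh.integrable (ENNReal.HolderConjugate.one_le q p)
    · exact hg2.integrable (ENNReal.HolderConjugate.one_le q p)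

theorem tendsto_avg_pq {p q : ℝ≥0∞} [ENNReal.HolderConjugate p q] (a : G)
    (hgen : ∀ S : Subgroup G,
      (∀ u : G, Tendsto (fun k : ℕ => a ^ k * u * (a ^ k)⁻¹) atTop (𝓝 1) → u ∈ S) →
      (∀ u : G, Tendsto (fun k : ℕ => (a ^ k)⁻¹ * u * a ^ k) atTop (𝓝 1) → u ∈ S) → S = ⊤)
    (herg : ∀ F : X → ℂ, AEStronglyMeasurable F μ → (∀ g : G, (fun x => F (g • x)) =ᵐ[μ] F) →
      ∃ c : ℂ, F =ᵐ[μ] fun _ => c)
    {f h : X → ℂ} (hf : MemLp f p μ) (hh : MemLp h q μ) :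
    Tendsto (avg μ a f h) atTop (𝓝 ((∫ x, f x ∂μ) * ∫ x, h x ∂μ)) := by
  have hss : ∀ f' h' : SimpleFunc X ℂ, Tendsto (avg μ a f' h') atTop
      (𝓝 ((∫ x, f' x ∂μ) * ∫ x, h' x ∂μ)) := fun f' h' =>
    tendsto_avg_L2 a hgen herg (SimpleFunc.memLp_of_isFiniteMeasure f' 2 μ)
      (SimpleFunc.memLp_of_isFiniteMeasure h' 2 μ)
  by_cases hp : p = ∞
  · -- `q = 1`
    have hq : q ≠ ∞ := by
      intro hq
      have := (ENNReal.holderConjugate_iff (p := p) (q := q)).1 inferInstance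
      rw [hp, hq] at this
      simp at this
    refine tendsto_avg_right hq a hf hh fun h' => ?_
    -- now `h'` is bounded, `f` is bounded, hence in `L^1`
    have hf1 : MemLp f 1 μ := hf.mono_exponent (ENNReal.HolderConjugate.one_le p q)
    exact tendsto_avg_left (p := 1) (q := ∞) ENNReal.one_ne_top a hf1
      (SimpleFunc.memLp_of_isFiniteMeasure h' ∞ μ) fun f' => hss f' h'
  · refine tendsto_avg_left hp a hf hh fun f' => ?_
    have hh1 : MemLp h 1 μ := hh.mono_exponent (ENNReal.HolderConjugate.one_le q p)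
    exact tendsto_avg_right (p := ∞) (q := 1) ENNReal.one_ne_top a
      (SimpleFunc.memLp_of_isFiniteMeasure f' ∞ μ) hh1 fun h' => hss f' h'

theorem mean_general_pq {p q : ℝ≥0∞} [ENNReal.HolderConjugate p q] (a : G)
    (hgen : ∀ S : Subgroup G,
      (∀ u : G, Tendsto (fun k : ℕ => a ^ k * u * (a ^ k)⁻¹) atTop (𝓝 1) → u ∈ S) →
      (∀ u : G, Tendsto (fun k : ℕ => (a ^ k)⁻¹ * u * a ^ k) atTop (𝓝 1) → u ∈ S) → S = ⊤)
    (herg : ∀ F : X → ℂ, AEStronglyMeasurable F μ → (∀ g : G, (fun x => F (g • x)) =ᵐ[μ] F) →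
      ∃ c : ℂ, F =ᵐ[μ] fun _ => c)
    {A : Type*} [Fintype A] (f h : A → X → ℂ)
    (hf : ∀ i, MemLp (f i) p μ) (hh : ∀ i, MemLp (h i) q μ) (C : ℂ)
    (hC : ∀ k : ℕ, ∑ i, ∫ x, f i (a ^ k • x) * h i x ∂μ = C) :
    (μ.real Set.univ : ℂ) * C = ∑ i, (∫ x, f i x ∂μ) * (∫ x, h i x ∂μ) := by
  have h1 := tendsto_finsetSum (Finset.univ : Finset A) fun i _ =>
    tendsto_avg_pq (p := p) (q := q) a hgen herg (hf i) (hh i)
  have h2 : ∀ᶠ N : ℕ in atTop, ∑ i, avg μ a (f i) (h i) N = (μ.real Set.univ : ℂ) * C := by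
    filter_upwards [eventually_gt_atTop 0] with N hN
    unfold avg
    rw [← Finset.mul_sum, ← Finset.mul_sum, Finset.sum_comm]
    simp only [hC]
    rw [Finset.sum_const, Finset.card_range, nsmul_eq_mul, ← mul_assoc (N : ℂ)⁻¹,
      inv_mul_cancel₀ (by exact_mod_cast hN.ne'), one_mul]
  refine tendsto_nhds_unique ?_ h1
  exact tendsto_const_nhds.congr' (h2.mono fun N hN => hN.symm)

end

theorem mean_of_const_pq {p q : ENNReal} [ENNReal.HolderConjugate p q]
    {n : ℕ} (o : Fin n) (Γ : Subgroup (Sp n)) [DiscreteTopology Γ]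
    [MeasurableSpace (Sp n ⧸ Γ)] [BorelSpace (Sp n ⧸ Γ)]
    (μ : Measure (Sp n ⧸ Γ)) [IsFiniteMeasure μ] [SMulInvariantMeasure (Sp n) (Sp n ⧸ Γ) μ]
    {A : Type*} [Fintype A] (f h : A → Sp n ⧸ Γ → ℂ)
    (hf : ∀ a, MemLp (f a) p μ) (hh : ∀ a, MemLp (h a) q μ) (C : ℂ)
    (hC : ∀ k : ℕ, ∑ a, ∫ x, f a ((pExp (E 1 o o)) ^ k • x) * h a x ∂μ = C) :
    (μ.real Set.univ : ℂ) * C = ∑ a, (∫ x, f a x ∂μ) * (∫ x, h a x ∂μ) := by
  have h0 : IsClosed (Γ : Set (Sp n)) := Subgroup.isClosed_of_discrete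
  have h1 : T2Space (Sp n ⧸ Γ) := inferInstance
  have h2 : μ.InnerRegularCompactLTTop := inferInstance
  exact mean_general_pq (μ := μ) (p := p) (q := q) (pExp (E 1 o o)) (gen_top o)
    (ae_const_of_invariant Γ μ) f h hf hh C hC

end MP_74a8fd_ag.HP
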