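import Pool.Agent.Lib.MP_74a8fd_ag.HP.Defs2

/-! MP_74a8fd_ag: integration along flows. -/

open Matrix MeasureTheory Filter Topology

set_option linter.unusedSectionVars false

noncomputable section

namespace MP_74a8fd_ag.HP

variable {X : Type*} [TopologicalSpace X] [MeasurableSpace X] [BorelSpace X]
    {μ : Measure X} [IsFiniteMeasure μ] {T : ℝ → X → X}

theorem IsFlow.hasDerivAt (hT : IsFlow μ T) {u u' : X → ℂ}
    (hd : ∀ x, HasDerivAt (fun t => u (T t x)) (u' x) 0) (x : X) (s : ℝ) :
    HasDerivAt (fun t => u (T t x)) (u' (T s x)) s := by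
  have h := hd (T s x)
  have h2 : HasDerivAt (fun t => u (T (t - s) (T s x))) (u' (T s x)) s := by
    apply HasDerivAt.comp_sub_const (f := fun t => u (T t (T s x)))
    rw [sub_self]
    exact h
  have h3 : (fun t => u (T (t - s) (T s x))) = fun t => u (T t x) := by
    ext t
    rw [← hT.add, sub_add_cancel]
  rwa [h3] at h2

theorem IsFlow.continuous_orbit (hT : IsFlow μ T) (x : X) : Continuous fun t => T t x :=
  hT.continuous.comp (continuous_id.prodMk continuous_const)

theorem IsFlow.continuous_map (hT : IsFlow μ T) (t : ℝ) : Continuous (T t) :=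
  hT.continuous.comp (continuous_const.prodMk continuous_id)

theorem IsFlow.skew (hT : IsFlow μ T) (ν : Measure ℝ) [SFinite ν] :
    MeasurePreserving (fun p : ℝ × X => (p.1, T p.1 p.2)) (ν.prod μ) (ν.prod μ) := by
  refine MeasurePreserving.skew_product (MeasurePreserving.id ν) (g := fun s x => T s x) ?_ ?_
  · exact hT.continuous.measurable
  · exact Filter.Eventually.of_forall (fun s => (hT.mp s).map_eq)

theorem IsFlow.integral_comp (hT : IsFlow μ T) (t : ℝ) {u : X → ℂ}
    (hu : AEStronglyMeasurable u μ) : ∫ x, u (T t x) ∂μ = ∫ x, u x ∂μ := by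
  have h := (hT.mp t).map_eq
  conv_rhs => rw [← h]
  rw [integral_map (hT.continuous_map t).measurable.aemeasurable]
  rw [h]
  exact hu

theorem integral_deriv_eq_zero (hT : IsFlow μ T) {u u' : X → ℂ}
    (hu' : Continuous u') (hui : Integrable u μ) (hui' : Integrable u' μ)
    (hd : ∀ x, HasDerivAt (fun t => u (T t x)) (u' x) 0) : ∫ x, u' x ∂μ = 0 := by
  have h1 : ∀ x, ∫ s in (0 : ℝ)..1, u' (T s x) = u (T 1 x) - u x := by
    intro x
    rw [intervalIntegral.integral_eq_sub_of_hasDerivAt (f := fun t => u (T t x))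
      (fun s _ => hT.hasDerivAt hd x s)]
    · rw [hT.zero]
    · exact (hu'.comp (hT.continuous_orbit x)).intervalIntegrable _ _
  have h2 : ∫ x, (u (T 1 x) - u x) ∂μ = 0 := by
    rw [integral_sub, hT.integral_comp 1 hui.aestronglyMeasurable, sub_self]
    · exact ((hT.mp 1).integrable_comp hui.aestronglyMeasurable).2 hui
    · exact hui
  have h3 : Integrable (fun p : ℝ × X => u' (T p.1 p.2)) ((volume.restrict (Set.Ioc 0 1)).prod μ) := by
    have h := (hT.skew (volume.restrict (Set.Ioc (0 : ℝ) 1)))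
    have h4 : Integrable (fun p : ℝ × X => u' p.2) ((volume.restrict (Set.Ioc 0 1)).prod μ) :=
      hui'.comp_snd _
    exact (h.integrable_comp h4.aestronglyMeasurable).2 h4
  have h5 : ∫ x, (∫ s in (0 : ℝ)..1, u' (T s x)) ∂μ = ∫ x, u' x ∂μ := by
    simp only [intervalIntegral.integral_of_le (zero_le_one' ℝ)]
    rw [integral_integral_swap (f := fun x s => u' (T s x)) h3.swap]
    simp only [hT.integral_comp _ hui'.aestronglyMeasurable]
    simp
  rw [← h5]
  simp only [h1]
  exact h2

theorem integral_const_of_deriv {p q : ENNReal} [ENNReal.HolderConjugate p q] (hT : IsFlow μ T)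
    {A : Type*} [Fintype A] (f f' h : A → X → ℂ)
    (hf' : ∀ a, Continuous (f' a))
    (hf2 : ∀ a, MemLp (f a) p μ) (hf2' : ∀ a, MemLp (f' a) p μ) (hh2 : ∀ a, MemLp (h a) q μ)
    (hd : ∀ a x, HasDerivAt (fun t => f a (T t x)) (f' a x) 0)
    (hz : ∀ s, ∫ x, ∑ a, f' a (T s x) * h a x ∂μ = 0) (t : ℝ) :
    ∫ x, ∑ a, f a (T t x) * h a x ∂μ = ∫ x, ∑ a, f a x * h a x ∂μ := by
  have hcomp : ∀ (g : X → ℂ), MemLp g p μ → ∀ s, MemLp (fun x => g (T s x)) p μ := by
    intro g hg s
    exact hg.comp_measurePreserving (hT.mp s)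
  have h1 : ∀ x, ∫ s in (0 : ℝ)..t, ∑ a, f' a (T s x) * h a x =
      (∑ a, f a (T t x) * h a x) - ∑ a, f a x * h a x := by
    intro x
    rw [intervalIntegral.integral_eq_sub_of_hasDerivAt
      (f := fun t => ∑ a, f a (T t x) * h a x)]
    · simp only [hT.zero]
    · intro s _
      exact HasDerivAt.fun_sum (fun a _ => (hT.hasDerivAt (hd a) x s).mul_const _)
    · refine Continuous.intervalIntegrable ?_ _ _
      exact continuous_finsetSum _ (fun a _ =>
        ((hf' a).comp (hT.continuous_orbit x)).mul continuous_const)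
  have hint : ∀ s, Integrable (fun x => ∑ a, f a (T s x) * h a x) μ := by
    intro s
    exact integrable_finsetSum _ (fun a _ => (hcomp _ (hf2 a) s).integrable_mul (hh2 a))
  have h3 : ∀ ν : Measure ℝ, [IsFiniteMeasure ν] →
      Integrable (fun p : ℝ × X => ∑ a, f' a (T p.1 p.2) * h a p.2) (ν.prod μ) := by
    intro ν _
    refine integrable_finsetSum _ (fun a _ => ?_)
    have hsk := hT.skew ν
    have h4 : MemLp (fun z : ℝ × X => f' a z.2) p (ν.prod μ) := (hf2' a).comp_snd _
    have h5 : MemLp (fun z : ℝ × X => f' a (T z.1 z.2)) p (ν.prod μ) :=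
      h4.comp_measurePreserving hsk
    have h6 : MemLp (fun z : ℝ × X => h a z.2) q (ν.prod μ) := (hh2 a).comp_snd _
    exact h5.integrable_mul h6
  have h7 : ∫ x, (∫ s in (0 : ℝ)..t, ∑ a, f' a (T s x) * h a x) ∂μ = 0 := by
    simp only [intervalIntegral]
    rw [integral_sub]
    · rw [integral_integral_swap (f := fun x s => ∑ a, f' a (T s x) * h a x) (h3 _).swap,
        integral_integral_swap (f := fun x s => ∑ a, f' a (T s x) * h a x) (h3 _).swap]
      simp only [hz]
      simp
    · exact (h3 _).swap.integral_prod_left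
    · exact (h3 _).swap.integral_prod_left
  simp only [h1] at h7
  rw [integral_sub (hint t)] at h7
  · exact sub_eq_zero.1 h7
  · have := hint 0
    simpa only [hT.zero] using this

end MP_74a8fd_ag.HP
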