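import Pool.Agent.Lib.MP_74a8fd_ag.HP.Defs2

/-! MP_74a8fd_ag: topology of the symplectic group and the exponential map. -/

open Matrix MeasureTheory Filter Topology

noncomputable section

namespace MP_74a8fd_ag.HP

open ExteriorAlgebra (ι)

instance continuousInv_Sp (n : ℕ) : ContinuousInv (Sp n) where
  continuous_inv := by
    refine Continuous.subtype_mk ?_ _
    exact (continuous_const.matrix_mul (continuous_subtype_val.matrix_transpose)).matrix_mul
      continuous_const

instance isTopologicalGroup_Sp (n : ℕ) : IsTopologicalGroup (Sp n) where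
  continuous_mul := continuous_mul
  continuous_inv := continuous_inv

instance secondCountable_Mat (n : ℕ) :
    SecondCountableTopology (Matrix (Fin n ⊕ Fin n) (Fin n ⊕ Fin n) ℝ) :=
  inferInstanceAs (SecondCountableTopology ((Fin n ⊕ Fin n) → (Fin n ⊕ Fin n) → ℝ))

instance locallyCompact_Mat (n : ℕ) :
    LocallyCompactSpace (Matrix (Fin n ⊕ Fin n) (Fin n ⊕ Fin n) ℝ) :=
  inferInstanceAs (LocallyCompactSpace ((Fin n ⊕ Fin n) → (Fin n ⊕ Fin n) → ℝ))

instance secondCountable_Sp (n : ℕ) : SecondCountableTopology (Sp n) :=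
  TopologicalSpace.Subtype.secondCountableTopology _

theorem isClosed_Sp (n : ℕ) :
    IsClosed ((Matrix.symplecticGroup (Fin n) ℝ : Submonoid _) :
      Set (Matrix (Fin n ⊕ Fin n) (Fin n ⊕ Fin n) ℝ)) := by
  have h : ((Matrix.symplecticGroup (Fin n) ℝ : Submonoid _) :
      Set (Matrix (Fin n ⊕ Fin n) (Fin n ⊕ Fin n) ℝ)) =
      {A | A * Matrix.J (Fin n) ℝ * Aᵀ = Matrix.J (Fin n) ℝ} := by
    ext A
    exact SymplecticGroup.mem_iff
  rw [h]
  exact isClosed_eq ((continuous_id.matrix_mul continuous_const).matrix_mul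
    continuous_id.matrix_transpose) continuous_const

instance locallyCompact_Sp (n : ℕ) : LocallyCompactSpace (Sp n) :=
  (isClosed_Sp n).isClosedEmbedding_subtypeVal.locallyCompactSpace

theorem pMat_smul {n : ℕ} (t : ℝ) (Z : SymC n) :
    pMat ((t • Z : SymC n) : Matrix (Fin n) (Fin n) ℂ) =
      t • pMat (Z : Matrix (Fin n) (Fin n) ℂ) := by
  have h1 : ((t • Z : SymC n) : Matrix (Fin n) (Fin n) ℂ).map Complex.re =
      t • (Z : Matrix (Fin n) (Fin n) ℂ).map Complex.re := by
    ext i j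
    simp
  have h2 : ((t • Z : SymC n) : Matrix (Fin n) (Fin n) ℂ).map Complex.im =
      t • (Z : Matrix (Fin n) (Fin n) ℂ).map Complex.im := by
    ext i j
    simp
  rw [pMat, pMat, h1, h2, Matrix.fromBlocks_smul, smul_neg]

theorem coe_pExp {n : ℕ} (Z : SymC n) :
    ((pExp Z : Sp n) : Matrix (Fin n ⊕ Fin n) (Fin n ⊕ Fin n) ℝ) =
      NormedSpace.exp (pMat (Z : Matrix (Fin n) (Fin n) ℂ)) := rfl

theorem pExp_zero {n : ℕ} : pExp (0 : SymC n) = 1 := by
  apply Subtype.ext
  rw [coe_pExp]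
  have h := pMat_smul (n := n) 0 0
  rw [zero_smul, zero_smul] at h
  rw [h, NormedSpace.exp_zero]
  rfl

theorem pExp_add_smul {n : ℕ} (s t : ℝ) (Z : SymC n) :
    pExp ((s + t) • Z) = pExp (s • Z) * pExp (t • Z) := by
  apply Subtype.ext
  rw [Submonoid.coe_mul, coe_pExp, coe_pExp, coe_pExp, pMat_smul, pMat_smul, pMat_smul,
    add_smul, Matrix.exp_add_of_commute]
  exact ((Commute.refl _).smul_left s).smul_right t

theorem continuous_pExp_smul {n : ℕ} (Z : SymC n) : Continuous fun t : ℝ => pExp (t • Z) := by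
  refine Continuous.subtype_mk ?_ _
  simp only [pMat_smul]
  let _ : NormedRing (Matrix (Fin n ⊕ Fin n) (Fin n ⊕ Fin n) ℝ) := Matrix.linftyOpNormedRing
  let _ : NormedAlgebra ℝ (Matrix (Fin n ⊕ Fin n) (Fin n ⊕ Fin n) ℝ) :=
    Matrix.linftyOpNormedAlgebra
  let _ : NormedAlgebra ℚ (Matrix (Fin n ⊕ Fin n) (Fin n ⊕ Fin n) ℝ) :=
    NormedAlgebra.restrictScalars ℚ ℝ _
  exact (NormedSpace.exp_continuous).comp (continuous_id.smul continuous_const)

theorem commute_pExp {n : ℕ} {o i j : Fin n} (hi : i ≠ o) (hj : j ≠ o) (c : ℂ) (s t : ℝ) :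
    Commute (pExp (s • E 1 o o)) (pExp (t • E c i j)) := by
  have h0 : pMat ((E 1 o o : SymC n) : Matrix (Fin n) (Fin n) ℂ) *
      pMat ((E c i j : SymC n) : Matrix (Fin n) (Fin n) ℂ) = 0 := by
    ext a b
    rw [Matrix.mul_apply]
    refine Finset.sum_eq_zero (fun k _ => ?_)
    rcases a with a | a <;> rcases k with k | k <;> rcases b with b | b <;>
      simp only [pMat, Matrix.fromBlocks_apply₁₁, Matrix.fromBlocks_apply₁₂,
        Matrix.fromBlocks_apply₂₁, Matrix.fromBlocks_apply₂₂, Matrix.map_apply, E,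
        Matrix.of_apply, Matrix.neg_apply] <;>
      by_cases hk : k = o <;>
      (try subst hk) <;>
      simp_all [Ne.symm hi, Ne.symm hj]
  have h1 : pMat ((E c i j : SymC n) : Matrix (Fin n) (Fin n) ℂ) *
      pMat ((E 1 o o : SymC n) : Matrix (Fin n) (Fin n) ℂ) = 0 := by
    ext a b
    rw [Matrix.mul_apply]
    refine Finset.sum_eq_zero (fun k _ => ?_)
    rcases a with a | a <;> rcases k with k | k <;> rcases b with b | b <;>
      simp only [pMat, Matrix.fromBlocks_apply₁₁, Matrix.fromBlocks_apply₁₂,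
        Matrix.fromBlocks_apply₂₁, Matrix.fromBlocks_apply₂₂, Matrix.map_apply, E,
        Matrix.of_apply, Matrix.neg_apply] <;>
      by_cases hk : k = o <;>
      (try subst hk) <;>
      simp_all [Ne.symm hi, Ne.symm hj]
  have hc : Commute (pMat ((E 1 o o : SymC n) : Matrix (Fin n) (Fin n) ℂ))
      (pMat ((E c i j : SymC n) : Matrix (Fin n) (Fin n) ℂ)) := by
    rw [Commute, SemiconjBy, h0, h1]
  have hc2 : Commute (s • pMat ((E 1 o o : SymC n) : Matrix (Fin n) (Fin n) ℂ))
      (t • pMat ((E c i j : SymC n) : Matrix (Fin n) (Fin n) ℂ)) :=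
    (hc.smul_left s).smul_right t
  have h3 := Matrix.exp_add_of_commute _ _ hc2
  have h4 := Matrix.exp_add_of_commute _ _ hc2.symm
  rw [Commute, SemiconjBy]
  apply Subtype.ext
  rw [Submonoid.coe_mul, Submonoid.coe_mul, coe_pExp, coe_pExp, pMat_smul, pMat_smul, ← h3, ← h4,
    add_comm]

end MP_74a8fd_ag.HP
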