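import Pool.Agent.Lib.MP_74a8fd_ag.HP.Alg
import Pool.Agent.Lib.MP_74a8fd_ag.HP.Ibp
import Pool.Agent.Lib.MP_74a8fd_ag.HP.Lie
import Pool.Agent.Lib.MP_74a8fd_ag.HP.Avg

/-! MP_74a8fd_ag: the core of the argument. -/

open Matrix MeasureTheory Filter Topology

set_option linter.unusedSectionVars false

noncomputable section

namespace MP_74a8fd_ag.HP

open ExteriorAlgebra (ι)

/-! ### bilinear forms and coordinates -/

theorem bil_expand {n : ℕ} (β : Forms n →ₗ[ℂ] Forms n →ₗ[ℂ] ℂ) (a b : Forms n) :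
    β a b = ∑ p : Fin (Module.finrank ℂ (Forms n)) × Fin (Module.finrank ℂ (Forms n)),
      (Module.finBasis ℂ (Forms n)).coord p.1 a *
        (β (Module.finBasis ℂ (Forms n) p.1) (Module.finBasis ℂ (Forms n) p.2) *
          (Module.finBasis ℂ (Forms n)).coord p.2 b) := by
  set B := Module.finBasis ℂ (Forms n) with hB
  conv_lhs => rw [← B.sum_repr a, ← B.sum_repr b]
  rw [Fintype.sum_prod_type]
  simp only [map_sum, LinearMap.sum_apply, map_smul, LinearMap.smul_apply, smul_eq_mul,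
    Module.Basis.coord_apply, Finset.mul_sum]
  rw [Finset.sum_comm]
  refine Finset.sum_congr rfl (fun i _ => ?_)
  refine Finset.sum_congr rfl (fun j _ => ?_)
  ring

theorem bil_hasDerivAt {n : ℕ} (β : Forms n →ₗ[ℂ] Forms n →ₗ[ℂ] ℂ) {a b : ℝ → Forms n}
    {a' b' : Forms n} {t : ℝ}
    (ha : ∀ l : Forms n →ₗ[ℂ] ℂ, HasDerivAt (fun s => l (a s)) (l a') t)
    (hb : ∀ l : Forms n →ₗ[ℂ] ℂ, HasDerivAt (fun s => l (b s)) (l b') t) :
    HasDerivAt (fun s => β (a s) (b s)) (β a' (b t) + β (a t) b') t := by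
  rw [bil_expand β a' (b t), bil_expand β (a t) b', ← Finset.sum_add_distrib]
  simp only [fun s => bil_expand β (a s) (b s)]
  refine HasDerivAt.fun_sum (fun p _ => ?_)
  exact (ha _).mul ((hb _).const_mul _)

theorem bil_continuous {n : ℕ} {X : Type*} [TopologicalSpace X]
    (β : Forms n →ₗ[ℂ] Forms n →ₗ[ℂ] ℂ) {a b : X → Forms n}
    (ha : ∀ l : Forms n →ₗ[ℂ] ℂ, Continuous (fun s => l (a s)))
    (hb : ∀ l : Forms n →ₗ[ℂ] ℂ, Continuous (fun s => l (b s))) :
    Continuous (fun s => β (a s) (b s)) := by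
  simp only [fun s => bil_expand β (a s) (b s)]
  exact continuous_finsetSum _ (fun p _ => (ha _).mul (continuous_const.mul (hb _)))

theorem bil_integrable {n : ℕ} {X : Type*} [MeasurableSpace X] {μ : Measure X}
    {p q : ENNReal} [ENNReal.HolderConjugate p q]
    (β : Forms n →ₗ[ℂ] Forms n →ₗ[ℂ] ℂ) {a b : X → Forms n}
    (ha : ∀ l : Forms n →ₗ[ℂ] ℂ, MemLp (fun s => l (a s)) p μ)
    (hb : ∀ l : Forms n →ₗ[ℂ] ℂ, MemLp (fun s => l (b s)) q μ) :
    Integrable (fun s => β (a s) (b s)) μ := by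
  simp only [fun s => bil_expand β (a s) (b s)]
  refine integrable_finsetSum _ (fun i _ => ?_)
  exact (ha _).integrable_mul ((hb _).const_mul _)

/-- the bilinear form `(a, b) ↦ l (w * a * b)`. -/
def bil {n : ℕ} (l : Forms n →ₗ[ℂ] ℂ) (w : Forms n) : Forms n →ₗ[ℂ] Forms n →ₗ[ℂ] ℂ :=
  LinearMap.mk₂ ℂ (fun a b => l (w * a * b))
    (by intro a a' b; rw [mul_add, add_mul, map_add])
    (by intro c a b; rw [mul_smul_comm, smul_mul_assoc, map_smul, smul_eq_mul])
    (by intro a b b'; rw [mul_add, map_add])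
    (by intro c a b; rw [mul_smul_comm, map_smul, smul_eq_mul])

theorem bil_apply {n : ℕ} (l : Forms n →ₗ[ℂ] ℂ) (w a b : Forms n) :
    bil l w a b = l (w * a * b) := rfl

/-! ### the flows -/

section

variable {n : ℕ} {Γ : Subgroup (Sp n)} [DiscreteTopology Γ]
    [MeasurableSpace (Sp n ⧸ Γ)] [BorelSpace (Sp n ⧸ Γ)]
    {μ : Measure (Sp n ⧸ Γ)} [IsFiniteMeasure μ] [SMulInvariantMeasure (Sp n) (Sp n ⧸ Γ) μ]
    {p q : ENNReal} [ENNReal.HolderConjugate p q]

theorem measurePreserving_smul' (g : Sp n) :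
    MeasurePreserving (fun x : Sp n ⧸ Γ => g • x) μ μ := by
  have : MeasurableConstSMul (Sp n) (Sp n ⧸ Γ) := ⟨fun c => (continuous_const_smul c).measurable⟩
  exact measurePreserving_smul g μ

theorem isFlow (Z : SymC n) : IsFlow μ (fun (s : ℝ) (x : Sp n ⧸ Γ) => pExp (s • Z) • x) where
  continuous := ((continuous_pExp_smul Z).comp continuous_fst).smul continuous_snd
  add := by
    intro s t x
    rw [pExp_add_smul, mul_smul]
  zero := by
    intro x
    rw [zero_smul, pExp_zero, one_smul]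
  mp := fun t => measurePreserving_smul' _

theorem pExp_pow (Z : SymC n) (k : ℕ) : (pExp Z) ^ k = pExp ((k : ℝ) • Z) := by
  induction k with
  | zero => rw [pow_zero, Nat.cast_zero, zero_smul, pExp_zero]
  | succ k ih =>
    rw [pow_succ, ih, Nat.cast_succ, pExp_add_smul, one_smul]

end

end MP_74a8fd_ag.HP
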