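import Pool.Agent.Lib.MP_74a8fd_ag.HP.Lie

/-! MP_74a8fd_ag: slowly varying cut off functions on the quotient. -/

open Matrix MeasureTheory Filter Topology

noncomputable section

namespace MP_74a8fd_ag.HP

attribute [local instance] Matrix.linftyOpNormedRing Matrix.linftyOpNormedAlgebra

/-- the matrices. -/
abbrev Mat (n : ℕ) : Type := Matrix (Fin n ⊕ Fin n) (Fin n ⊕ Fin n) ℝ

theorem norm_one_mat_le (n : ℕ) : ‖(1 : Mat n)‖ ≤ 1 := by
  rcases Nat.eq_zero_or_pos n with h | h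
  · subst h
    have : (1 : Mat 0) = 0 := Subsingleton.elim _ _
    rw [this, norm_zero]
    exact zero_le_one
  · have : Nonempty (Fin n ⊕ Fin n) := ⟨Sum.inl ⟨0, h⟩⟩
    rw [norm_one]

theorem norm_exp_mat_le {n : ℕ} (A : Mat n) : ‖NormedSpace.exp A‖ ≤ Real.exp ‖A‖ := by
  have hpow : ∀ k : ℕ, ‖A ^ k‖ ≤ ‖A‖ ^ k := by
    intro k
    induction k with
    | zero => simpa using norm_one_mat_le n
    | succ k ih =>
      rw [pow_succ, pow_succ]
      exact (norm_mul_le _ _).trans (mul_le_mul_of_nonneg_right ih (norm_nonneg _))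
  have h1 : ∀ k : ℕ, ‖((k.factorial : ℝ)⁻¹) • A ^ k‖ ≤ ((k.factorial : ℝ)⁻¹) • ‖A‖ ^ k := by
    intro k
    rw [norm_smul, norm_inv, Real.norm_natCast, smul_eq_mul]
    exact mul_le_mul_of_nonneg_left (hpow k) (by positivity)
  have hs : Summable fun k : ℕ => ((k.factorial : ℝ)⁻¹) • ‖A‖ ^ k :=
    NormedSpace.expSeries_summable' (𝕂 := ℝ) (𝔸 := ℝ) ‖A‖
  have h2 : NormedSpace.exp A = ∑' k : ℕ, ((k.factorial : ℝ)⁻¹) • A ^ k := by
    rw [NormedSpace.exp_eq_tsum ℝ]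
  have h3 : Real.exp ‖A‖ = ∑' k : ℕ, ((k.factorial : ℝ)⁻¹) • ‖A‖ ^ k := by
    rw [Real.exp_eq_exp_ℝ, NormedSpace.exp_eq_tsum ℝ]
  rw [h2, h3]
  exact tsum_of_norm_bounded hs.hasSum h1

/-- The logarithmic size of a group element. -/
def hgt {n : ℕ} (g : Sp n) : ℝ := Real.log (max 1 (max ‖(g : Mat n)‖ ‖((g⁻¹ : Sp n) : Mat n)‖))

theorem hgt_nonneg {n : ℕ} (g : Sp n) : 0 ≤ hgt g := Real.log_nonneg (le_max_left _ _)

theorem hgt_inv {n : ℕ} (g : Sp n) : hgt g⁻¹ = hgt g := by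
  unfold hgt
  rw [inv_inv, max_comm ‖((g⁻¹ : Sp n) : Mat n)‖]

theorem hgt_mul_le {n : ℕ} (k g : Sp n) : hgt (k * g) ≤ hgt k + hgt g := by
  unfold hgt
  have h1 : (0 : ℝ) < max 1 (max ‖(k : Mat n)‖ ‖((k⁻¹ : Sp n) : Mat n)‖) :=
    lt_of_lt_of_le one_pos (le_max_left _ _)
  have h2 : (0 : ℝ) < max 1 (max ‖(g : Mat n)‖ ‖((g⁻¹ : Sp n) : Mat n)‖) :=
    lt_of_lt_of_le one_pos (le_max_left _ _)
  rw [← Real.log_mul h1.ne' h2.ne']
  refine Real.log_le_log (lt_of_lt_of_le one_pos (le_max_left _ _)) ?_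
  refine max_le ?_ (max_le ?_ ?_)
  · have := mul_le_mul (le_max_left 1 (max ‖(k : Mat n)‖ ‖((k⁻¹ : Sp n) : Mat n)‖))
      (le_max_left 1 (max ‖(g : Mat n)‖ ‖((g⁻¹ : Sp n) : Mat n)‖)) zero_le_one h1.le
    linarith
  · rw [Submonoid.coe_mul]
    exact (norm_mul_le _ _).trans (mul_le_mul ((le_max_left _ _).trans (le_max_right _ _))
      ((le_max_left _ _).trans (le_max_right _ _)) (norm_nonneg _) h1.le)
  · rw [_root_.mul_inv_rev, Submonoid.coe_mul]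
    refine (norm_mul_le _ _).trans ?_
    rw [mul_comm]
    exact mul_le_mul ((le_max_right _ _).trans (le_max_right _ _))
      ((le_max_right _ _).trans (le_max_right _ _)) (norm_nonneg _) h1.le

theorem hgt_one {n : ℕ} : hgt (1 : Sp n) = 0 := by
  unfold hgt
  rw [inv_one, max_self, Submonoid.coe_one, max_eq_left (norm_one_mat_le n), Real.log_one]

theorem hgt_pExp_le {n : ℕ} (r : ℝ) (Z : SymC n) :
    hgt (pExp (r • Z)) ≤ ‖(pMat (Z : Matrix (Fin n) (Fin n) ℂ) : Mat n)‖ * |r| := by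
  have hinv : (pExp (r • Z))⁻¹ = pExp ((-r) • Z) := by
    rw [inv_eq_iff_mul_eq_one, ← pExp_add_smul, add_neg_cancel, zero_smul, pExp_zero]
  have h1 : ∀ s : ℝ, ‖((pExp (s • Z) : Sp n) : Mat n)‖ ≤
      Real.exp (‖(pMat (Z : Matrix (Fin n) (Fin n) ℂ) : Mat n)‖ * |s|) := by
    intro s
    rw [coe_pExp, pMat_smul]
    refine (norm_exp_mat_le _).trans ?_
    rw [norm_smul, Real.norm_eq_abs, mul_comm]
  unfold hgt
  rw [hinv]
  rw [Real.log_le_iff_le_exp (lt_of_lt_of_le one_pos (le_max_left _ _))]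
  refine max_le ?_ (max_le (h1 r) ?_)
  · exact Real.one_le_exp (by positivity)
  · have := h1 (-r)
    rwa [abs_neg] at this

theorem continuous_hgt {n : ℕ} : Continuous (hgt : Sp n → ℝ) := by
  have h1 : Continuous fun g : Sp n => (g : Mat n) := continuous_subtype_val
  have h2 : Continuous fun g : Sp n => ((g⁻¹ : Sp n) : Mat n) :=
    continuous_subtype_val.comp continuous_inv
  refine Continuous.log ?_ fun g => (lt_of_lt_of_le one_pos (le_max_left _ _)).ne'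
  exact continuous_const.max (h1.norm.max h2.norm)

theorem isCompact_hgt_le {n : ℕ} (R : ℝ) : IsCompact {g : Sp n | hgt g ≤ R} := by
  have h1 : IsCompact (Metric.closedBall (0 : Mat n) (Real.exp R)) := by
    have : ProperSpace (Mat n) := FiniteDimensional.proper ℝ _
    exact isCompact_closedBall _ _
  have h2 : IsCompact ((fun g : Sp n => (g : Mat n)) ⁻¹' Metric.closedBall (0 : Mat n) (Real.exp R)) :=
    (isClosed_Sp n).isClosedEmbedding_subtypeVal.isCompact_preimage h1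
  refine h2.of_isClosed_subset (isClosed_le continuous_hgt continuous_const) ?_
  intro g hg
  have hg' : hgt g ≤ R := hg
  unfold hgt at hg'
  rw [Real.log_le_iff_le_exp (lt_of_lt_of_le one_pos (le_max_left _ _))] at hg'
  change (g : Mat n) ∈ Metric.closedBall (0 : Mat n) (Real.exp R)
  rw [mem_closedBall_zero_iff]
  exact ((le_max_left _ _).trans (le_max_right _ _)).trans hg'

/-- The height function on the quotient. -/
def rhoX {n : ℕ} (Γ : Subgroup (Sp n)) (x : Sp n ⧸ Γ) : ℝ :=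
  ⨅ g : {g : Sp n // (g : Sp n ⧸ Γ) = x}, hgt g.1

theorem bdd_rhoX {n : ℕ} (Γ : Subgroup (Sp n)) (x : Sp n ⧸ Γ) :
    BddBelow (Set.range fun g : {g : Sp n // (g : Sp n ⧸ Γ) = x} => hgt g.1) :=
  ⟨0, by rintro _ ⟨g, rfl⟩; exact hgt_nonneg _⟩

instance nonempty_fib {n : ℕ} (Γ : Subgroup (Sp n)) (x : Sp n ⧸ Γ) :
    Nonempty {g : Sp n // (g : Sp n ⧸ Γ) = x} := by
  obtain ⟨g, hg⟩ := QuotientGroup.mk_surjective x
  exact ⟨⟨g, hg⟩⟩

theorem rhoX_smul_le {n : ℕ} (Γ : Subgroup (Sp n)) (k : Sp n) (x : Sp n ⧸ Γ) :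
    rhoX Γ (k • x) ≤ hgt k + rhoX Γ x := by
  rw [← sub_le_iff_le_add']
  refine le_ciInf fun g => ?_
  rw [sub_le_iff_le_add']
  refine (ciInf_le (bdd_rhoX Γ (k • x)) ⟨k * g.1, ?_⟩).trans (hgt_mul_le k g.1)
  exact congrArg (fun y : Sp n ⧸ Γ => k • y) g.2

theorem abs_rhoX_sub_le {n : ℕ} (Γ : Subgroup (Sp n)) (k : Sp n) (x : Sp n ⧸ Γ) :
    |rhoX Γ (k • x) - rhoX Γ x| ≤ hgt k := by
  rw [abs_le]
  constructor
  · have h := rhoX_smul_le Γ k⁻¹ (k • x)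
    rw [inv_smul_smul, hgt_inv] at h
    linarith
  · have h := rhoX_smul_le Γ k x
    linarith

theorem continuous_rhoX {n : ℕ} (Γ : Subgroup (Sp n)) : Continuous (rhoX Γ) := by
  rw [(QuotientGroup.isQuotientMap_mk Γ).continuous_iff]
  rw [continuous_iff_continuousAt]
  intro g₀
  rw [ContinuousAt, tendsto_iff_norm_sub_tendsto_zero]
  have h1 : Tendsto (fun g : Sp n => hgt (g * g₀⁻¹)) (𝓝 g₀) (𝓝 0) := by
    have h2 : Continuous fun g : Sp n => hgt (g * g₀⁻¹) :=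
      continuous_hgt.comp (continuous_id.mul continuous_const)
    have h3 := h2.tendsto g₀
    rwa [mul_inv_cancel, hgt_one] at h3
  refine squeeze_zero (fun g => norm_nonneg _) (fun g => ?_) h1
  have h4 : (((g : Sp n) : Sp n ⧸ Γ)) = (g * g₀⁻¹) • ((g₀ : Sp n) : Sp n ⧸ Γ) := by
    change (((g : Sp n) : Sp n ⧸ Γ)) = (((g * g₀⁻¹) * g₀ : Sp n) : Sp n ⧸ Γ)
    rw [inv_mul_cancel_right]
  change ‖rhoX Γ ((g : Sp n) : Sp n ⧸ Γ) - rhoX Γ ((g₀ : Sp n) : Sp n ⧸ Γ)‖ ≤ _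
  rw [h4, Real.norm_eq_abs]
  exact abs_rhoX_sub_le Γ _ _

theorem rhoX_nonneg {n : ℕ} (Γ : Subgroup (Sp n)) (x : Sp n ⧸ Γ) : 0 ≤ rhoX Γ x :=
  le_ciInf fun g => hgt_nonneg _

theorem exists_cutoff {n : ℕ} (Γ : Subgroup (Sp n)) [DiscreteTopology Γ] :
    ∃ χ : ℕ → (Sp n ⧸ Γ) → ℝ, (∀ R, Continuous (χ R)) ∧ (∀ R, HasCompactSupport (χ R)) ∧
      (∀ R x, 0 ≤ χ R x ∧ χ R x ≤ 1) ∧ (∀ x, Tendsto (fun R => χ R x) atTop (𝓝 1)) ∧
      ∀ Z : SymC n, ∃ L : ℝ, 0 ≤ L ∧ ∀ (R : ℕ) (x : Sp n ⧸ Γ) (r : ℝ),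
        |χ R (pExp (r • Z) • x) - χ R x| ≤ L * |r| / (R + 1) := by
  have hcl : IsClosed (Γ : Set (Sp n)) := Subgroup.isClosed_of_discrete
  have hT2 : T2Space (Sp n ⧸ Γ) := inferInstance
  refine ⟨fun R x => max 0 (min 1 (2 - rhoX Γ x / (R + 1))), ?_, ?_, ?_, ?_, ?_⟩
  · intro R
    exact continuous_const.max (continuous_const.min
      (continuous_const.sub ((continuous_rhoX Γ).div_const _)))
  · intro R
    have hK : IsCompact ((QuotientGroup.mk : Sp n → Sp n ⧸ Γ) ''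
        {g : Sp n | hgt g ≤ 2 * (R + 1) + 1}) :=
      (isCompact_hgt_le _).image QuotientGroup.continuous_mk
    refine HasCompactSupport.intro hK fun x hx => ?_
    have h1 : 2 * ((R : ℝ) + 1) < rhoX Γ x := by
      by_contra h
      push Not at h
      have h2 : rhoX Γ x < 2 * ((R : ℝ) + 1) + 1 := by linarith
      obtain ⟨g, hg⟩ := exists_lt_of_ciInf_lt h2
      exact hx ⟨g.1, hg.le, g.2⟩
    have hR : (0 : ℝ) < (R : ℝ) + 1 := by positivity
    have h2 : 2 - rhoX Γ x / (R + 1) ≤ 0 := by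
      rw [sub_nonpos, le_div_iff₀ hR]
      exact h1.le
    exact max_eq_left ((min_le_right _ _).trans h2)
  · intro R x
    exact ⟨le_max_left _ _, max_le zero_le_one (min_le_left _ _)⟩
  · intro x
    refine tendsto_const_nhds.congr' ?_
    obtain ⟨N, hN⟩ := exists_nat_ge (rhoX Γ x)
    filter_upwards [eventually_ge_atTop N] with R hR
    have hR1 : (0 : ℝ) < (R : ℝ) + 1 := by positivity
    have h1 : rhoX Γ x ≤ (R : ℝ) + 1 := by
      have : (N : ℝ) ≤ R := by exact_mod_cast hR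
      linarith
    have h2 : 1 ≤ 2 - rhoX Γ x / (R + 1) := by
      have : rhoX Γ x / (R + 1) ≤ 1 := by rwa [div_le_one hR1]
      linarith
    rw [min_eq_left h2, max_eq_right zero_le_one]
  · intro Z
    refine ⟨‖(pMat (Z : Matrix (Fin n) (Fin n) ℂ) : Mat n)‖, norm_nonneg _, fun R x r => ?_⟩
    have hR1 : (0 : ℝ) < (R : ℝ) + 1 := by positivity
    have h1 : |rhoX Γ (pExp (r • Z) • x) - rhoX Γ x| ≤
        ‖(pMat (Z : Matrix (Fin n) (Fin n) ℂ) : Mat n)‖ * |r| :=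
      (abs_rhoX_sub_le Γ _ _).trans (hgt_pExp_le r Z)
    have h2 : ∀ a b : ℝ, |max 0 (min 1 a) - max 0 (min 1 b)| ≤ |a - b| := by
      intro a b
      refine (abs_max_sub_max_le_max 0 (min 1 a) 0 (min 1 b)).trans ?_
      rw [sub_self, abs_zero, max_eq_right (abs_nonneg _)]
      refine (abs_min_sub_min_le_max 1 a 1 b).trans ?_
      rw [sub_self, abs_zero, max_eq_right (abs_nonneg _)]
    refine (h2 _ _).trans ?_
    rw [show (2 - rhoX Γ (pExp (r • Z) • x) / ((R : ℝ) + 1)) - (2 - rhoX Γ x / (R + 1)) =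
      -((rhoX Γ (pExp (r • Z) • x) - rhoX Γ x) / (R + 1)) by ring, abs_neg, abs_div,
      abs_of_pos hR1]
    exact div_le_div_of_nonneg_right h1 hR1.le

end MP_74a8fd_ag.HP
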