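import Pool.Agent.Lib.MP_74a8fd_ag.HP.Ibp

/-! MP_74a8fd_ag: integration by parts along a flow with a Lipschitz cut off function. -/

open Matrix MeasureTheory Filter Topology

noncomputable section

namespace MP_74a8fd_ag.HP

theorem gaffney {X : Type*} [TopologicalSpace X] [T2Space X] [MeasurableSpace X] [BorelSpace X]
    {μ : Measure X} [IsFiniteMeasure μ] {T : ℝ → X → X} (hT : IsFlow μ T) {v v' : X → ℂ}
    (hv : Continuous v) (hv' : Continuous v') (hvi : Integrable v μ)
    (hd : ∀ x, HasDerivAt (fun t => v (T t x)) (v' x) 0) {χ : X → ℝ} (hχ : Continuous χ)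
    (hχc : HasCompactSupport χ) {L : ℝ}
    (hlip : ∀ (r : ℝ) (x : X), |χ (T r x) - χ x| ≤ L * |r|) :
    ‖∫ x, (χ x : ℂ) * v' x ∂μ‖ ≤ L * ∫ x, ‖v x‖ ∂μ := by
  have hχC : Continuous fun x => (χ x : ℂ) := Complex.continuous_ofReal.comp hχ
  obtain ⟨M, hM⟩ := hχc.exists_bound_of_continuous hχ
  have hint : ∀ F : X → ℂ, Integrable F μ → Integrable (fun x => (χ x : ℂ) * F x) μ := by
    intro F hF
    refine hF.bdd_mul (c := M) hχC.aestronglyMeasurable (Filter.Eventually.of_forall fun x => ?_)
    rw [Complex.norm_real]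
    exact hM x
  have hTi : ∀ r, Integrable (fun x => v (T r x)) μ := fun r =>
    ((hT.mp r).integrable_comp hvi.aestronglyMeasurable).2 hvi
  -- the difference quotients
  let J : ℝ → ℂ := fun r => ∫ x, (χ x : ℂ) * ((v (T r x) - v x) / r) ∂μ
  have h1 : ∀ r : ℝ, 0 < r → ‖J r‖ ≤ L * ∫ x, ‖v x‖ ∂μ := by
    intro r hr
    have hr' : (r : ℂ) ≠ 0 := by exact_mod_cast hr.ne'
    have hTχ : Continuous fun x => (χ (T (-r) x) : ℂ) :=
      Complex.continuous_ofReal.comp (hχ.comp (hT.continuous_map (-r)))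
    have i1 : Integrable (fun x => (χ (T (-r) x) : ℂ) * v x) μ := by
      refine hvi.bdd_mul (c := M) hTχ.aestronglyMeasurable
        (Filter.Eventually.of_forall fun x => ?_)
      rw [Complex.norm_real]
      exact hM _
    have h2 : ∫ x, (χ x : ℂ) * v (T r x) ∂μ = ∫ x, (χ (T (-r) x) : ℂ) * v x ∂μ := by
      rw [← hT.integral_comp r i1.aestronglyMeasurable]
      refine integral_congr_ae (Filter.Eventually.of_forall fun x => ?_)
      change (χ x : ℂ) * v (T r x) = (χ (T (-r) (T r x)) : ℂ) * v (T r x)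
      rw [← hT.add, neg_add_cancel, hT.zero]
    have h3 : J r = ∫ x, (((χ (T (-r) x) - χ x) / r : ℝ) : ℂ) * v x ∂μ := by
      have h4 : J r = ((∫ x, (χ x : ℂ) * v (T r x) ∂μ) - ∫ x, (χ x : ℂ) * v x ∂μ) / r := by
        rw [← integral_sub (hint _ (hTi r)) (hint _ hvi), ← integral_div]
        refine integral_congr_ae (Filter.Eventually.of_forall fun x => ?_)
        change (χ x : ℂ) * ((v (T r x) - v x) / r) = ((χ x : ℂ) * v (T r x) - (χ x : ℂ) * v x) / r
        ring
      rw [h4, h2, ← integral_sub i1 (hint _ hvi), ← integral_div]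
      refine integral_congr_ae (Filter.Eventually.of_forall fun x => ?_)
      change ((χ (T (-r) x) : ℂ) * v x - (χ x : ℂ) * v x) / r =
        (((χ (T (-r) x) - χ x) / r : ℝ) : ℂ) * v x
      push_cast
      field_simp
    rw [h3]
    refine (norm_integral_le_integral_norm _).trans ?_
    rw [← integral_const_mul]
    refine integral_mono_of_nonneg (Filter.Eventually.of_forall fun x => norm_nonneg _)
      (hvi.norm.const_mul L) (Filter.Eventually.of_forall fun x => ?_)
    simp only [norm_mul, Complex.norm_real, Real.norm_eq_abs]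
    refine mul_le_mul_of_nonneg_right ?_ (norm_nonneg _)
    rw [abs_div, abs_of_pos hr, div_le_iff₀ hr]
    have := hlip (-r) x
    rwa [abs_neg, abs_of_pos hr] at this
  -- the limit
  obtain ⟨C, hC⟩ := ((isCompact_Icc (a := (0 : ℝ)) (b := 1)).prod hχc).exists_bound_of_continuousOn
    (f := fun z : ℝ × X => v' (T z.1 z.2)) (hv'.comp hT.continuous).continuousOn
  have h2 : ∀ r : ℝ, 0 < r → r ≤ 1 → ∀ x ∈ tsupport χ, ‖(v (T r x) - v x) / r‖ ≤ C := by
    intro r hr hr1 x hx
    have h3 : ‖v (T r x) - v (T 0 x)‖ ≤ C * (r - 0) := by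
      refine norm_image_sub_le_of_norm_deriv_le_segment' (f := fun s => v (T s x))
        (f' := fun s => v' (T s x)) (fun s _ => (hT.hasDerivAt hd x s).hasDerivWithinAt)
        (fun s hs => ?_) r ⟨hr.le, le_rfl⟩
      exact hC (s, x) ⟨⟨hs.1, hs.2.le.trans hr1⟩, hx⟩
    rw [hT.zero, sub_zero] at h3
    rw [norm_div, Complex.norm_real, Real.norm_eq_abs, abs_of_pos hr, div_le_iff₀ hr]
    exact h3
  have hr0 : ∀ k : ℕ, (0 : ℝ) < 1 / ((k : ℝ) + 1) := fun k => by positivity
  have h3 : Tendsto (fun k : ℕ => J (1 / ((k : ℝ) + 1))) atTop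
      (𝓝 (∫ x, (χ x : ℂ) * v' x ∂μ)) := by
    refine tendsto_integral_of_dominated_convergence (fun x => M * |C|) ?_ ?_ ?_ ?_
    · intro k
      refine hχC.aestronglyMeasurable.mul ?_
      have : Continuous fun x => (v (T (1 / ((k : ℝ) + 1)) x) - v x) /
          ((1 / ((k : ℝ) + 1) : ℝ) : ℂ) :=
        ((hv.comp (hT.continuous_map _)).sub hv).div_const _
      exact this.aestronglyMeasurable
    · exact integrable_const _
    · intro k
      refine Filter.Eventually.of_forall fun x => ?_
      rw [norm_mul, Complex.norm_real]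
      by_cases hx : x ∈ tsupport χ
      · have hk1 : 1 / ((k : ℝ) + 1) ≤ 1 := by
          rw [div_le_one (by positivity)]
          have : (0 : ℝ) ≤ k := Nat.cast_nonneg k
          linarith
        exact mul_le_mul (hM x) ((h2 _ (hr0 k) hk1 x hx).trans (le_abs_self C)) (norm_nonneg _)
          ((norm_nonneg _).trans (hM x))
      · have h0 : χ x = 0 := image_eq_zero_of_notMem_tsupport hx
        rw [h0, norm_zero, zero_mul]
        exact mul_nonneg ((norm_nonneg _).trans (hM x)) (abs_nonneg _)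
    · refine Filter.Eventually.of_forall fun x => Tendsto.const_mul _ ?_
      have h4 := (hasDerivAt_iff_tendsto_slope.1 (hd x))
      have h5 : Tendsto (fun k : ℕ => 1 / ((k : ℝ) + 1)) atTop (𝓝[≠] 0) := by
        refine tendsto_nhdsWithin_iff.2 ⟨tendsto_one_div_add_atTop_nhds_zero_nat,
          Filter.Eventually.of_forall fun k => (hr0 k).ne'⟩
      refine (h4.comp h5).congr fun k => ?_
      change slope (fun t => v (T t x)) 0 (1 / ((k : ℝ) + 1)) = _
      rw [slope_def_module, hT.zero, sub_zero, Complex.real_smul, Complex.ofReal_inv]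
      exact (div_eq_inv_mul _ _).symm
  refine le_of_tendsto h3.norm (Filter.Eventually.of_forall fun k => h1 _ (hr0 k))

end MP_74a8fd_ag.HP
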