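import Pool.Agent.Lib.MP_74a8fd_ag.HP.Core
import Pool.Agent.Lib.MP_74a8fd_ag.HP.Cut
import Pool.Agent.Lib.MP_74a8fd_ag.HP.Gaf

/-! MP_74a8fd_ag: the core of the argument, without conditions on the derivatives. -/

open Matrix MeasureTheory Filter Topology

set_option linter.unusedSectionVars false

noncomputable section

namespace MP_74a8fd_ag.HP

open ExteriorAlgebra (ι)

variable {n : ℕ} {Γ : Subgroup (Sp n)} [DiscreteTopology Γ]
    [MeasurableSpace (Sp n ⧸ Γ)] [BorelSpace (Sp n ⧸ Γ)]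
    {μ : Measure (Sp n ⧸ Γ)} [IsFiniteMeasure μ] [SMulInvariantMeasure (Sp n) (Sp n ⧸ Γ) μ]
    {p q : ENNReal} [ENNReal.HolderConjugate p q]

/-- uniform bound of the `L¹` norm of the pairing of a translate. -/
theorem bil_bound (β : Forms n →ₗ[ℂ] Forms n →ₗ[ℂ] ℂ) {a b : Sp n ⧸ Γ → Forms n}
    (ha : ∀ l : Forms n →ₗ[ℂ] ℂ, MemLp (fun s => l (a s)) p μ)
    (hb : ∀ l : Forms n →ₗ[ℂ] ℂ, MemLp (fun s => l (b s)) q μ) :
    ∃ B : ℝ, 0 ≤ B ∧ ∀ g : Sp n, ∫ x, ‖β (a (g • x)) (b x)‖ ∂μ ≤ B := by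
  set e := Module.finBasis ℂ (Forms n) with he
  let A := Fin (Module.finrank ℂ (Forms n)) × Fin (Module.finrank ℂ (Forms n))
  refine ⟨∑ c : A, (eLpNorm (fun x => e.coord c.1 (a x)) p μ).toReal *
    (eLpNorm (fun x => β (e c.1) (e c.2) * e.coord c.2 (b x)) q μ).toReal,
    Finset.sum_nonneg fun c _ => by positivity, fun g => ?_⟩
  have hmp := measurePreserving_smul' (μ := μ) g
  have h1 : ∀ c : A, MemLp (fun x => e.coord c.1 (a (g • x))) p μ := fun c =>
    (ha (e.coord c.1)).comp_measurePreserving hmp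
  have h2 : ∀ c : A, MemLp (fun x => β (e c.1) (e c.2) * e.coord c.2 (b x)) q μ := fun c =>
    (hb (e.coord c.2)).const_mul _
  have h3 : ∀ c : A, Integrable (fun x => ‖e.coord c.1 (a (g • x))‖ *
      ‖β (e c.1) (e c.2) * e.coord c.2 (b x)‖) μ := fun c =>
    (h1 c).norm.integrable_mul (h2 c).norm
  have h4 : ∀ x, ‖β (a (g • x)) (b x)‖ ≤ ∑ c : A, ‖e.coord c.1 (a (g • x))‖ *
      ‖β (e c.1) (e c.2) * e.coord c.2 (b x)‖ := by
    intro x
    rw [bil_expand β (a (g • x)) (b x)]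
    refine (norm_sum_le _ _).trans (Finset.sum_le_sum fun c _ => ?_)
    rw [norm_mul]
  have h5 : Integrable (fun x => β (a (g • x)) (b x)) μ :=
    bil_integrable β (a := fun x => a (g • x)) (b := b)
      (fun l' => (ha l').comp_measurePreserving hmp) hb
  calc ∫ x, ‖β (a (g • x)) (b x)‖ ∂μ ≤ ∫ x, ∑ c : A, ‖e.coord c.1 (a (g • x))‖ *
      ‖β (e c.1) (e c.2) * e.coord c.2 (b x)‖ ∂μ :=
        integral_mono h5.norm (integrable_finsetSum _ fun c _ => h3 c) h4
    _ = ∑ c : A, ∫ x, ‖e.coord c.1 (a (g • x))‖ *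
      ‖β (e c.1) (e c.2) * e.coord c.2 (b x)‖ ∂μ := integral_finsetSum _ fun c _ => h3 c
    _ ≤ _ := by
        refine Finset.sum_le_sum fun c _ => ?_
        have h6 : ∀ x, ‖e.coord c.1 (a (g • x))‖ * ‖β (e c.1) (e c.2) * e.coord c.2 (b x)‖ =
          ‖e.coord c.1 (a (g • x)) * (β (e c.1) (e c.2) * e.coord c.2 (b x))‖ := fun x =>
          (norm_mul _ _).symm
        simp only [h6]
        have h7 : ∫ x, ‖e.coord c.1 (a (g • x)) * (β (e c.1) (e c.2) * e.coord c.2 (b x))‖ ∂μ =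
            (eLpNorm (fun x => e.coord c.1 (a (g • x)) *
              (β (e c.1) (e c.2) * e.coord c.2 (b x))) 1 μ).toReal := by
          rw [eLpNorm_one_eq_lintegral_enorm, integral_norm_eq_lintegral_enorm]
          exact (h1 c).1.mul (h2 c).1
        rw [h7, ← ENNReal.toReal_mul]
        have h8 := eLpNorm_smul_le_mul_eLpNorm (p := p) (q := q) (r := 1) (h2 c).1 (h1 c).1
        have h9 : eLpNorm (fun x => e.coord c.1 (a (g • x))) p μ =
            eLpNorm (fun x => e.coord c.1 (a x)) p μ :=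
          eLpNorm_comp_measurePreserving (ha (e.coord c.1)).1 hmp
        rw [h9] at h8
        refine ENNReal.toReal_mono ?_ h8
        exact ENNReal.mul_ne_top (ha (e.coord c.1)).2.ne (h2 c).2.ne

/-- one direction: the integral of the cut off derivative is small up to the transposed term. -/
theorem gaf_step (o : Fin n) {φ η : Sp n ⧸ Γ → Forms n} {D D' : SymC n → Sp n ⧸ Γ → Forms n}
    (c1 : ∀ l : Forms n →ₗ[ℂ] ℂ, Continuous fun x => l (φ x))
    (m1 : ∀ l : Forms n →ₗ[ℂ] ℂ, MemLp (fun x => l (φ x)) p μ)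
    (c2 : ∀ (Z : SymC n) (l : Forms n →ₗ[ℂ] ℂ), Continuous fun x => l (D Z x))
    (d2 : ∀ (Z : SymC n) (l : Forms n →ₗ[ℂ] ℂ) (x : Sp n ⧸ Γ),
      HasDerivAt (fun t : ℝ => l (φ (pExp (t • Z) • x))) (l (D Z x)) 0)
    (c3 : ∀ l : Forms n →ₗ[ℂ] ℂ, Continuous fun x => l (η x))
    (m3 : ∀ l : Forms n →ₗ[ℂ] ℂ, MemLp (fun x => l (η x)) q μ)
    (c4 : ∀ (Z : SymC n) (l : Forms n →ₗ[ℂ] ℂ), Continuous fun x => l (D' Z x))
    (d4 : ∀ (Z : SymC n) (l : Forms n →ₗ[ℂ] ℂ) (x : Sp n ⧸ Γ),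
      HasDerivAt (fun t : ℝ => l (η (pExp (t • Z) • x))) (l (D' Z x)) 0)
    (l : Forms n →ₗ[ℂ] ℂ) (w : Forms n) (c : Forms n →ₗ[ℂ] Forms n)
    {i j : Fin n} (hi : i ≠ o) (hj : j ≠ o) (z : ℂ) :
    ∃ B : ℝ, 0 ≤ B ∧ ∀ (s : ℝ) (χ : (Sp n ⧸ Γ) → ℝ) (_ : Continuous χ) (_ : HasCompactSupport χ)
      (L : ℝ) (_ : 0 ≤ L) (_ : ∀ (r : ℝ) (x : Sp n ⧸ Γ),
        |χ (pExp (r • E z i j) • x) - χ x| ≤ L * |r|),
      ‖∫ x, (χ x : ℂ) * (l (w * c (D (E z i j) (pExp (s • E 1 o o) • x)) * η x) +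
        l (w * c (φ (pExp (s • E 1 o o) • x)) * D' (E z i j) x)) ∂μ‖ ≤ L * B := by
  have hcl : IsClosed (Γ : Set (Sp n)) := Subgroup.isClosed_of_discrete
  have hT2 : T2Space (Sp n ⧸ Γ) := inferInstance
  obtain ⟨B, hB0, hB⟩ := bil_bound (μ := μ) (p := p) (q := q) (bil l w) (a := fun x => c (φ x))
    (b := η) (fun l' => m1 (l' ∘ₗ c)) m3
  refine ⟨B, hB0, fun s χ hχ hχc L hL hlip => ?_⟩
  set g : Sp n := pExp (s • E 1 o o) with hg
  have hgc : Continuous fun x : Sp n ⧸ Γ => g • x := continuous_const_smul g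
  have hgm : MeasurePreserving (fun x : Sp n ⧸ Γ => g • x) μ μ := measurePreserving_smul' g
  have i3 : Integrable (fun x => l (w * c (φ (g • x)) * η x)) μ :=
    bil_integrable (bil l w) (a := fun x => c (φ (g • x))) (b := η)
      (fun l' => (m1 (l' ∘ₗ c)).comp_measurePreserving hgm) m3
  have k0 : Continuous (fun x => l (w * c (φ (g • x)) * η x)) :=
    bil_continuous (bil l w) (a := fun x => c (φ (g • x))) (b := η)
      (fun l' => (c1 (l' ∘ₗ c)).comp hgc) c3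
  have k1 : Continuous (fun x => l (w * c (D (E z i j) (g • x)) * η x)) :=
    bil_continuous (bil l w) (a := fun x => c (D (E z i j) (g • x))) (b := η)
      (fun l' => (c2 (E z i j) (l' ∘ₗ c)).comp hgc) c3
  have k2 : Continuous (fun x => l (w * c (φ (g • x)) * D' (E z i j) x)) :=
    bil_continuous (bil l w) (a := fun x => c (φ (g • x))) (b := D' (E z i j))
      (fun l' => (c1 (l' ∘ₗ c)).comp hgc) (c4 _)
  have key := gaffney (isFlow (μ := μ) (E z i j))
    (v := fun x => l (w * c (φ (g • x)) * η x))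
    (v' := fun x => l (w * c (D (E z i j) (g • x)) * η x) +
      l (w * c (φ (g • x)) * D' (E z i j) x)) k0 (k1.add k2) i3 ?_ hχ hχc hlip
  · refine key.trans (mul_le_mul_of_nonneg_left ?_ hL)
    exact hB g
  · intro x
    have h := bil_hasDerivAt (bil l w) (a := fun t => c (φ (g • pExp (t • E z i j) • x)))
      (b := fun t => η (pExp (t • E z i j) • x)) (a' := c (D (E z i j) (g • x)))
      (b' := D' (E z i j) x) (t := 0) ?_ (fun l' => d4 _ l' x)
    · simp only [zero_smul, pExp_zero, one_smul] at h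
      exact h
    · intro l'
      have h2 := d2 (E z i j) (l' ∘ₗ c) (g • x)
      have h3 : (fun t : ℝ => (l' ∘ₗ c) (φ (pExp (t • E z i j) • g • x))) =
          fun t : ℝ => l' (c (φ (g • pExp (t • E z i j) • x))) := by
        ext t
        have hc : g * pExp (t • E z i j) = pExp (t • E z i j) * g :=
          commute_pExp hi hj z s t
        rw [smul_smul, ← hc, ← smul_smul]
        rfl
      rw [h3] at h2
      exact h2

theorem core_est (o : Fin n) {φ η : Sp n ⧸ Γ → Forms n} {D D' : SymC n → Sp n ⧸ Γ → Forms n}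
    (c1 : ∀ l : Forms n →ₗ[ℂ] ℂ, Continuous fun x => l (φ x))
    (m1 : ∀ l : Forms n →ₗ[ℂ] ℂ, MemLp (fun x => l (φ x)) p μ)
    (c2 : ∀ (Z : SymC n) (l : Forms n →ₗ[ℂ] ℂ), Continuous fun x => l (D Z x))
    (d2 : ∀ (Z : SymC n) (l : Forms n →ₗ[ℂ] ℂ) (x : Sp n ⧸ Γ),
      HasDerivAt (fun t : ℝ => l (φ (pExp (t • Z) • x))) (l (D Z x)) 0)
    (e2 : ∀ x, extD (fun Z => D Z x) = 0)
    (c3 : ∀ l : Forms n →ₗ[ℂ] ℂ, Continuous fun x => l (η x))
    (m3 : ∀ l : Forms n →ₗ[ℂ] ℂ, MemLp (fun x => l (η x)) q μ)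
    (c4 : ∀ (Z : SymC n) (l : Forms n →ₗ[ℂ] ℂ), Continuous fun x => l (D' Z x))
    (d4 : ∀ (Z : SymC n) (l : Forms n →ₗ[ℂ] ℂ) (x : Sp n ⧸ Γ),
      HasDerivAt (fun t : ℝ => l (η (pExp (t • Z) • x))) (l (D' Z x)) 0)
    (e4 : ∀ x, extD (fun Z => D' Z x) = 0)
    (l : Forms n →ₗ[ℂ] ℂ) (χ : ℕ → (Sp n ⧸ Γ) → ℝ) (hχ : ∀ R, Continuous (χ R))
    (hχc : ∀ R, HasCompactSupport (χ R))
    (hL : ∀ Z : SymC n, ∃ L : ℝ, 0 ≤ L ∧ ∀ (R : ℕ) (x : Sp n ⧸ Γ) (r : ℝ),
        |χ R (pExp (r • Z) • x) - χ R x| ≤ L * |r| / (R + 1)) :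
    ∃ K : ℝ, 0 ≤ K ∧ ∀ (R : ℕ) (s : ℝ),
      ‖∫ x, (χ R x : ℂ) * l (phiVec (Pi.single o 1) * D (E 1 o o) (pExp (s • E 1 o o) • x) *
        η x) ∂μ‖ ≤ K / (R + 1) := by
  classical
  set Φ : Forms n := phiVec (Pi.single o 1) with hΦ
  set c : Forms n →ₗ[ℂ] Forms n := CliffordAlgebra.contractLeft (evalAt (E 1 o o)) with hc
  -- the integrands
  let P : PDual n → SymC n → ℝ → (Sp n ⧸ Γ) → ℂ := fun m Z s x =>
    l (Φ * ι ℂ m * c (D Z (pExp (s • E 1 o o) • x)) * η x) +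
      l (Φ * ι ℂ m * c (φ (pExp (s • E 1 o o) • x)) * D' Z x)
  let G : Fin n → Fin n → ℝ → (Sp n ⧸ Γ) → ℂ := fun i j s x => if i ≤ j then
    P (dx i j) (E 1 i j) s x + P (dy i j) (E Complex.I i j) s x else 0
  have hPc : ∀ m Z s, Continuous (P m Z s) := by
    intro m Z s
    have hgc : Continuous fun x : Sp n ⧸ Γ => pExp (s • E 1 o o) • x := continuous_const_smul _
    have k1 : Continuous (fun x => l (Φ * ι ℂ m * c (D Z (pExp (s • E 1 o o) • x)) * η x)) :=
      bil_continuous (bil l (Φ * ι ℂ m)) (a := fun x => c (D Z (pExp (s • E 1 o o) • x))) (b := η)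
        (fun l' => (c2 Z (l' ∘ₗ c)).comp hgc) c3
    have k2 : Continuous (fun x => l (Φ * ι ℂ m * c (φ (pExp (s • E 1 o o) • x)) * D' Z x)) :=
      bil_continuous (bil l (Φ * ι ℂ m)) (a := fun x => c (φ (pExp (s • E 1 o o) • x)))
        (b := D' Z) (fun l' => (c1 (l' ∘ₗ c)).comp hgc) (c4 _)
    exact k1.add k2
  have hint : ∀ (R : ℕ) (F : (Sp n ⧸ Γ) → ℂ), Continuous F →
      Integrable (fun x => (χ R x : ℂ) * F x) μ := by
    intro R F hF
    have h1 : Continuous (fun x => (χ R x : ℂ) * F x) :=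
      (Complex.continuous_ofReal.comp (hχ R)).mul hF
    refine h1.integrable_of_hasCompactSupport ?_
    refine (hχc R).mono' ?_
    intro x hx
    refine subset_tsupport _ ?_
    intro h0
    apply hx
    change (χ R x : ℂ) * F x = 0
    rw [h0]
    simp
  have hPest : ∀ (m : PDual n) {i j : Fin n} (_ : i ≠ o) (_ : j ≠ o) (z : ℂ),
      ∃ K : ℝ, 0 ≤ K ∧ ∀ (R : ℕ) (s : ℝ),
        ‖∫ x, (χ R x : ℂ) * P m (E z i j) s x ∂μ‖ ≤ K / (R + 1) := by
    intro m i j hi hj z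
    obtain ⟨B, hB0, hB⟩ := gaf_step (μ := μ) (p := p) (q := q) o c1 m1 c2 d2 c3 m3 c4 d4 l
      (Φ * ι ℂ m) c hi hj z
    obtain ⟨L, hL0, hL1⟩ := hL (E z i j)
    refine ⟨L * B, mul_nonneg hL0 hB0, fun R s => ?_⟩
    have h1 := hB s (χ R) (hχ R) (hχc R) (L / (R + 1)) (by positivity) (fun r x => by
      have := hL1 R x r
      rw [div_mul_eq_mul_div]
      exact this)
    rw [div_mul_eq_mul_div] at h1
    exact h1
  have hGest : ∀ i j : Fin n, ∃ K : ℝ, 0 ≤ K ∧ ∀ (R : ℕ) (s : ℝ),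
        ‖∫ x, (χ R x : ℂ) * G i j s x ∂μ‖ ≤ K / (R + 1) := by
    intro i j
    by_cases hij : i ≤ j
    · have hG : ∀ s x, G i j s x =
        P (dx i j) (E 1 i j) s x + P (dy i j) (E Complex.I i j) s x := fun s x => if_pos hij
      by_cases ho : i = o ∨ j = o
      · refine ⟨0, le_rfl, fun R s => ?_⟩
        have h0 : ∀ x, G i j s x = 0 := by
          intro x
          rw [hG]
          change (l (Φ * ι ℂ (dx i j) * _ * η x) + l (Φ * ι ℂ (dx i j) * _ * _)) +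
            (l (Φ * ι ℂ (dy i j) * _ * η x) + l (Φ * ι ℂ (dy i j) * _ * _)) = 0
          rw [hΦ, phi_mul_dx ho, phi_mul_dy ho]
          simp
        simp [h0]
      · push Not at ho
        obtain ⟨K1, hK1, h1⟩ := hPest (dx i j) ho.1 ho.2 1
        obtain ⟨K2, hK2, h2⟩ := hPest (dy i j) ho.1 ho.2 Complex.I
        refine ⟨K1 + K2, add_nonneg hK1 hK2, fun R s => ?_⟩
        have h3 : ∫ x, (χ R x : ℂ) * G i j s x ∂μ =
            (∫ x, (χ R x : ℂ) * P (dx i j) (E 1 i j) s x ∂μ) +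
            ∫ x, (χ R x : ℂ) * P (dy i j) (E Complex.I i j) s x ∂μ := by
          rw [← integral_add (hint R _ (hPc _ _ _)) (hint R _ (hPc _ _ _))]
          congr 1
          ext x
          rw [hG]
          ring
        rw [h3, add_div]
        exact (norm_add_le _ _).trans (add_le_add (h1 R s) (h2 R s))
    · refine ⟨0, le_rfl, fun R s => ?_⟩
      have h0 : ∀ x, G i j s x = 0 := fun x => if_neg hij
      simp [h0]
  choose K hK0 hK using hGest
  refine ⟨∑ i, ∑ j, K i j, Finset.sum_nonneg fun i _ => Finset.sum_nonneg fun j _ => hK0 i j,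
    fun R s => ?_⟩
  have hsum : ∀ x, l (Φ * D (E 1 o o) (pExp (s • E 1 o o) • x) * η x) =
      ∑ i, ∑ j, G i j s x := by
    intro x
    set g : Sp n := pExp (s • E 1 o o) with hg
    have hH : ∑ i : Fin n, ∑ j : Fin n, (if i ≤ j then
        l (Φ * ι ℂ (dx i j) * c (φ (g • x)) * D' (E 1 i j) x) +
        l (Φ * ι ℂ (dy i j) * c (φ (g • x)) * D' (E Complex.I i j) x) else 0) = 0 := by
      have h1 : ∑ i : Fin n, ∑ j : Fin n, (if i ≤ j then
          l (Φ * ι ℂ (dx i j) * c (φ (g • x)) * D' (E 1 i j) x) +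
          l (Φ * ι ℂ (dy i j) * c (φ (g • x)) * D' (E Complex.I i j) x) else 0) =
          l (Φ * CliffordAlgebra.involute (c (φ (g • x))) * extD (fun Z => D' Z x)) := by
        unfold extD wmul wi
        simp only [Finset.mul_sum, map_sum]
        refine Finset.sum_congr rfl (fun i _ => Finset.sum_congr rfl (fun j _ => ?_))
        split_ifs with h
        · rw [mul_add, map_add]
          rw [mul_assoc Φ (ι ℂ (dx i j)), mul_assoc Φ (ι ℂ (dy i j)), ι_mul_comm, ι_mul_comm]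
          simp only [mul_assoc]
        · simp
      rw [h1, e4 x, mul_zero, map_zero]
    have hG : l (Φ * D (E 1 o o) (g • x) * η x) = ∑ i : Fin n, ∑ j : Fin n, (if i ≤ j then
        l (Φ * ι ℂ (dx i j) * c (D (E 1 i j) (g • x)) * η x) +
        l (Φ * ι ℂ (dy i j) * c (D (E Complex.I i j) (g • x)) * η x) else 0) := by
      rw [closed_contract o (fun Z => D Z (g • x)) (e2 (g • x))]
      unfold extD wmul wi
      simp only [Finset.mul_sum, Finset.sum_mul, map_sum]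
      refine Finset.sum_congr rfl (fun i _ => Finset.sum_congr rfl (fun j _ => ?_))
      split_ifs with h
      · rw [mul_add, add_mul, map_add, ← mul_assoc, ← mul_assoc]
      · simp
    refine ((hG.trans (add_zero _).symm).trans (congrArg (fun z => _ + z) hH.symm)).trans ?_
    rw [← Finset.sum_add_distrib]
    refine Finset.sum_congr rfl (fun i _ => ?_)
    rw [← Finset.sum_add_distrib]
    refine Finset.sum_congr rfl (fun j _ => ?_)
    change _ = if i ≤ j then _ else _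
    split_ifs with h
    · change _ = (l _ + l _) + (l _ + l _)
      ring
    · simp
  have hGc : ∀ i j, Continuous (G i j s) := by
    intro i j
    by_cases hij : i ≤ j
    · have : G i j s = fun x => P (dx i j) (E 1 i j) s x + P (dy i j) (E Complex.I i j) s x := by
        ext x; exact if_pos hij
      rw [this]
      exact (hPc _ _ _).add (hPc _ _ _)
    · have : G i j s = fun _ => 0 := by
        ext x; exact if_neg hij
      rw [this]
      exact continuous_const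
  simp only [hsum, Finset.mul_sum]
  rw [integral_finsetSum _ (fun i _ => integrable_finsetSum _ (fun j _ => hint R _ (hGc i j))),
    Finset.sum_div]
  refine (norm_sum_le _ _).trans (Finset.sum_le_sum fun i _ => ?_)
  rw [integral_finsetSum _ (fun j _ => hint R _ (hGc i j)), Finset.sum_div]
  exact (norm_sum_le _ _).trans (Finset.sum_le_sum fun j _ => hK i j R s)

theorem core_const (o : Fin n) {φ η : Sp n ⧸ Γ → Forms n} {D D' : SymC n → Sp n ⧸ Γ → Forms n}
    (c1 : ∀ l : Forms n →ₗ[ℂ] ℂ, Continuous fun x => l (φ x))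
    (m1 : ∀ l : Forms n →ₗ[ℂ] ℂ, MemLp (fun x => l (φ x)) p μ)
    (c2 : ∀ (Z : SymC n) (l : Forms n →ₗ[ℂ] ℂ), Continuous fun x => l (D Z x))
    (d2 : ∀ (Z : SymC n) (l : Forms n →ₗ[ℂ] ℂ) (x : Sp n ⧸ Γ),
      HasDerivAt (fun t : ℝ => l (φ (pExp (t • Z) • x))) (l (D Z x)) 0)
    (e2 : ∀ x, extD (fun Z => D Z x) = 0)
    (c3 : ∀ l : Forms n →ₗ[ℂ] ℂ, Continuous fun x => l (η x))
    (m3 : ∀ l : Forms n →ₗ[ℂ] ℂ, MemLp (fun x => l (η x)) q μ)
    (c4 : ∀ (Z : SymC n) (l : Forms n →ₗ[ℂ] ℂ), Continuous fun x => l (D' Z x))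
    (d4 : ∀ (Z : SymC n) (l : Forms n →ₗ[ℂ] ℂ) (x : Sp n ⧸ Γ),
      HasDerivAt (fun t : ℝ => l (η (pExp (t • Z) • x))) (l (D' Z x)) 0)
    (e4 : ∀ x, extD (fun Z => D' Z x) = 0)
    (l : Forms n →ₗ[ℂ] ℂ) (t : ℝ) (ht : 0 ≤ t) :
    ∫ x, l (phiVec (Pi.single o 1) * φ (pExp (t • E 1 o o) • x) * η x) ∂μ =
      ∫ x, l (phiVec (Pi.single o 1) * φ x * η x) ∂μ := by
  obtain ⟨χ, hχ, hχc, hχ1, hχt, hL⟩ := exists_cutoff Γ
  obtain ⟨K, hK0, hK⟩ := core_est (μ := μ) (p := p) (q := q) o c1 m1 c2 d2 e2 c3 m3 c4 d4 e4 l χ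
    hχ hχc hL
  set Φ : Forms n := phiVec (Pi.single o 1) with hΦ
  set Y : SymC n := E 1 o o with hY
  have hT := isFlow (μ := μ) Y
  let W : ℝ → (Sp n ⧸ Γ) → ℂ := fun s x => l (Φ * φ (pExp (s • Y) • x) * η x)
  let W' : ℝ → (Sp n ⧸ Γ) → ℂ := fun s x => l (Φ * D Y (pExp (s • Y) • x) * η x)
  have hWi : ∀ s, Integrable (W s) μ := fun s =>
    bil_integrable (bil l Φ) (a := fun x => φ (pExp (s • Y) • x)) (b := η)
      (fun l' => (m1 l').comp_measurePreserving (measurePreserving_smul' _)) m3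
  have hWd : ∀ x s, HasDerivAt (fun s => W s x) (W' s x) s := by
    intro x s
    have h := hT.hasDerivAt (u := fun y => bil l Φ (φ y) (η x))
      (u' := fun y => bil l Φ (D Y y) (η x))
      (fun y => d2 Y ((bil l Φ).flip (η x)) y) x s
    exact h
  have hWc' : Continuous (fun z : ℝ × (Sp n ⧸ Γ) => W' z.1 z.2) :=
    bil_continuous (bil l Φ) (a := fun z : ℝ × (Sp n ⧸ Γ) => D Y (pExp (z.1 • Y) • z.2))
      (b := fun z => η z.2)
      (fun l' => (c2 Y l').comp hT.continuous) (fun l' => (c3 l').comp continuous_snd)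
  -- Fubini
  have h1 : ∀ R : ℕ, ∫ x, (χ R x : ℂ) * (W t x - W 0 x) ∂μ =
      ∫ s in (0 : ℝ)..t, ∫ x, (χ R x : ℂ) * W' s x ∂μ := by
    intro R
    have h2 : ∀ x, (χ R x : ℂ) * (W t x - W 0 x) = ∫ s in (0 : ℝ)..t, (χ R x : ℂ) * W' s x := by
      intro x
      rw [intervalIntegral.integral_const_mul]
      congr 1
      rw [intervalIntegral.integral_eq_sub_of_hasDerivAt (fun s _ => hWd x s)]
      exact (hWc'.comp (continuous_id.prodMk continuous_const)).intervalIntegrable _ _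
    simp only [h2]
    simp only [intervalIntegral.integral_of_le ht]
    have hGc : Continuous (fun z : ℝ × (Sp n ⧸ Γ) => (χ R z.2 : ℂ) * W' z.1 z.2) :=
      (Complex.continuous_ofReal.comp ((hχ R).comp continuous_snd)).mul hWc'
    obtain ⟨C, hC⟩ := ((isCompact_Icc (a := (0 : ℝ)) (b := t)).prod
      (hχc R)).exists_bound_of_continuousOn hGc.continuousOn
    have hGi : Integrable (fun z : ℝ × (Sp n ⧸ Γ) => (χ R z.2 : ℂ) * W' z.1 z.2)
        ((volume.restrict (Set.Ioc 0 t)).prod μ) := by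
      refine Integrable.of_bound hGc.aestronglyMeasurable (max C 0) ?_
      have hr : (volume.restrict (Set.Ioc (0 : ℝ) t)).prod μ =
          ((volume : Measure ℝ).prod μ).restrict ((Set.Ioc (0 : ℝ) t) ×ˢ Set.univ) := by
        rw [← Measure.prod_restrict, Measure.restrict_univ]
      rw [hr]
      refine ae_restrict_of_forall_mem (measurableSet_Ioc.prod MeasurableSet.univ) ?_
      intro z hz
      by_cases hzx : z.2 ∈ tsupport (χ R)
      · exact (hC z ⟨Set.Ioc_subset_Icc_self hz.1, hzx⟩).trans (le_max_left _ _)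
      · have h0 : χ R z.2 = 0 := image_eq_zero_of_notMem_tsupport hzx
        rw [h0]
        simp
    exact integral_integral_swap (f := fun x s => (χ R x : ℂ) * W' s x) hGi.swap
  have h2 : ∀ R : ℕ, ‖∫ x, (χ R x : ℂ) * (W t x - W 0 x) ∂μ‖ ≤ K / (R + 1) * t := by
    intro R
    rw [h1 R]
    have := intervalIntegral.norm_integral_le_of_norm_le_const (a := (0 : ℝ)) (b := t)
      (f := fun s => ∫ x, (χ R x : ℂ) * W' s x ∂μ) (C := K / (R + 1)) (fun s _ => hK R s)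
    rwa [sub_zero, abs_of_nonneg ht] at this
  have h3 : Tendsto (fun R : ℕ => ∫ x, (χ R x : ℂ) * (W t x - W 0 x) ∂μ) atTop
      (𝓝 (∫ x, (W t x - W 0 x) ∂μ)) := by
    refine tendsto_integral_of_dominated_convergence (fun x => ‖W t x - W 0 x‖) ?_ ?_ ?_ ?_
    · intro R
      exact (Complex.continuous_ofReal.comp (hχ R)).aestronglyMeasurable.mul
        ((hWi t).sub (hWi 0)).aestronglyMeasurable
    · exact ((hWi t).sub (hWi 0)).norm
    · intro R
      refine Filter.Eventually.of_forall fun x => ?_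
      rw [norm_mul, Complex.norm_real, Real.norm_eq_abs, abs_of_nonneg (hχ1 R x).1]
      exact mul_le_of_le_one_left (norm_nonneg _) (hχ1 R x).2
    · refine Filter.Eventually.of_forall fun x => ?_
      have h4 : Tendsto (fun R : ℕ => ((χ R x : ℝ) : ℂ)) atTop (𝓝 ((1 : ℝ) : ℂ)) :=
        (Complex.continuous_ofReal.tendsto 1).comp (hχt x)
      have h5 := h4.mul_const (W t x - W 0 x)
      simpa using h5
  have h4 : Tendsto (fun R : ℕ => ∫ x, (χ R x : ℂ) * (W t x - W 0 x) ∂μ) atTop (𝓝 0) := by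
    rw [tendsto_zero_iff_norm_tendsto_zero]
    refine squeeze_zero (fun R => norm_nonneg _) h2 ?_
    have h5 : Tendsto (fun R : ℕ => K * t * (1 / ((R : ℝ) + 1))) atTop (𝓝 (K * t * 0)) :=
      (tendsto_one_div_add_atTop_nhds_zero_nat (𝕜 := ℝ)).const_mul (K * t)
    rw [mul_zero] at h5
    refine h5.congr fun R => ?_
    ring
  have h5 := tendsto_nhds_unique h3 h4
  rw [integral_sub (hWi t) (hWi 0)] at h5
  have h6 := sub_eq_zero.1 h5
  refine h6.trans ?_
  congr 1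
  ext x
  change l (Φ * φ (pExp ((0 : ℝ) • Y) • x) * η x) = _
  rw [zero_smul, pExp_zero, one_smul]

/-- the mean value theorem for the form `phiVec (e_o)` -/
theorem core_mean (o : Fin n)
    {φ η : Sp n ⧸ Γ → Forms n} (hφ : IsClosedForm φ) (hη : IsClosedForm η)
    (hφp : IsLp p μ φ) (hηq : IsLp q μ η)
    {φ₀ η₀ : Forms n}
    (hφ₀ : ∀ l : Forms n →ₗ[ℂ] ℂ, ∫ x, l (φ x) ∂μ = (μ.real Set.univ : ℂ) * l φ₀)
    (hη₀ : ∀ l : Forms n →ₗ[ℂ] ℂ, ∫ x, l (η x) ∂μ = (μ.real Set.univ : ℂ) * l η₀)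
    (l : Forms n →ₗ[ℂ] ℂ) :
    ∫ x, l (phiVec (Pi.single o 1) * φ x * η x) ∂μ =
      (μ.real Set.univ : ℂ) * l (phiVec (Pi.single o 1) * φ₀ * η₀) := by
  classical
  set Φ : Forms n := phiVec (Pi.single o 1) with hΦ
  obtain ⟨D, c2, d2, e2⟩ := hφ.closed
  obtain ⟨D', c4, d4, e4⟩ := hη.closed
  set B := Module.finBasis ℂ (Forms n) with hB
  let A := Fin (Module.finrank ℂ (Forms n)) × Fin (Module.finrank ℂ (Forms n))
  let f : A → (Sp n ⧸ Γ) → ℂ := fun c x => B.coord c.1 (φ x)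
  let h : A → (Sp n ⧸ Γ) → ℂ := fun c x => bil l Φ (B c.1) (B c.2) * B.coord c.2 (η x)
  have hexp : ∀ (a b : Forms n), l (Φ * a * b) = ∑ c : A, B.coord c.1 a *
      (bil l Φ (B c.1) (B c.2) * B.coord c.2 b) := fun a b => bil_expand (bil l Φ) a b
  have mh : ∀ c, MemLp (h c) q μ := fun c => (hηq (B.coord c.2)).const_mul _
  have hconst := core_const (μ := μ) (p := p) (q := q) o hφ.continuous hφp c2 d2 e2
    hη.continuous hηq c4 d4 e4 l
  have hC : ∀ k : ℕ, ∑ c : A, ∫ x, f c ((pExp (E 1 o o)) ^ k • x) * h c x ∂μ =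
      ∫ x, l (Φ * φ x * η x) ∂μ := by
    intro k
    rw [← integral_finsetSum]
    · rw [pExp_pow, ← hconst (k : ℝ) (Nat.cast_nonneg k)]
      congr 1
      ext x
      rw [hexp]
    · intro c _
      exact ((hφp (B.coord c.1)).comp_measurePreserving
        (measurePreserving_smul' _)).integrable_mul (mh c)
  have hmean := mean_of_const_pq (p := p) (q := q) o Γ μ f h (fun c => hφp _) mh _ hC
  by_cases hμ : (μ.real Set.univ : ℂ) = 0
  · have hμ0 : μ = 0 := by
      have : μ.real Set.univ = 0 := by exact_mod_cast hμ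
      rw [measureReal_eq_zero_iff] at this
      exact Measure.measure_univ_eq_zero.1 this
    rw [hμ, zero_mul, hμ0]
    simp
  · apply mul_left_cancel₀ hμ
    rw [hmean]
    have h1 : ∀ c : A, (∫ x, f c x ∂μ) * (∫ x, h c x ∂μ) =
        (μ.real Set.univ : ℂ) * ((μ.real Set.univ : ℂ) * (B.coord c.1 φ₀ *
          (bil l Φ (B c.1) (B c.2) * B.coord c.2 η₀))) := by
      intro c
      have h2 : ∫ x, f c x ∂μ = (μ.real Set.univ : ℂ) * B.coord c.1 φ₀ := hφ₀ _
      have h3 : ∫ x, h c x ∂μ = bil l Φ (B c.1) (B c.2) *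
          ((μ.real Set.univ : ℂ) * B.coord c.2 η₀) := by
        rw [← hη₀ (B.coord c.2)]
        exact integral_const_mul _ _
      rw [h2, h3]
      ring
    rw [Finset.sum_congr rfl (fun c _ => h1 c), ← Finset.mul_sum, ← Finset.mul_sum, ← hexp]

end MP_74a8fd_ag.HP
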