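import Mathlib

/-!
MP_74a8fd_ag: definitions.

`Sp n` is the real symplectic group of `2n × 2n` matrices, `K = U(n)` its standard maximal compact
subgroup (`kElt`), `p` the space of complex symmetric `n × n` matrices (`SymC n`), embedded in the
Lie algebra by `pMat`; `pExp` is the exponential map on `p`; `Forms n` is the complexified exterior
algebra of the real dual of `p`; `rho` is the (co-adjoint) action of `U(n)` on it.
-/

open Matrix MeasureTheory

noncomputable section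

namespace MP_74a8fd_ag.HP

/-- The real symplectic group of `2n × 2n` matrices. -/
abbrev Sp (n : ℕ) : Type := ↥(Matrix.symplecticGroup (Fin n) ℝ)

/-- The real vector space of complex symmetric `n × n` matrices: the tangent space of the Siegel
upper half space at the base point. -/
def SymC (n : ℕ) : Submodule ℝ (Matrix (Fin n) (Fin n) ℂ) where
  carrier := {Z | Zᵀ = Z}
  add_mem' := by
    intro a b ha hb
    simp only [Set.mem_ofPred_eq] at *
    rw [Matrix.transpose_add, ha, hb]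
  zero_mem' := by simp
  smul_mem' := by
    intro c a ha
    simp only [Set.mem_ofPred_eq] at *
    rw [Matrix.transpose_smul, ha]

/-- The element of the Lie algebra of `Sp n` given by `Z = A + i B`: the matrix
`[[A, B], [B, -A]]`. -/
def pMat {n : ℕ} (Z : Matrix (Fin n) (Fin n) ℂ) : Matrix (Fin n ⊕ Fin n) (Fin n ⊕ Fin n) ℝ :=
  fromBlocks (Z.map Complex.re) (Z.map Complex.im) (Z.map Complex.im) (-(Z.map Complex.re))

/-- The matrix `[[Re κ, - Im κ], [Im κ, Re κ]]`. -/
def kMat {n : ℕ} (κ : Matrix (Fin n) (Fin n) ℂ) : Matrix (Fin n ⊕ Fin n) (Fin n ⊕ Fin n) ℝ :=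
  fromBlocks (κ.map Complex.re) (-(κ.map Complex.im)) (κ.map Complex.im) (κ.map Complex.re)

theorem kMat_mem {n : ℕ} (κ : Matrix.unitaryGroup (Fin n) ℂ) :
    kMat (κ : Matrix (Fin n) (Fin n) ℂ) ∈ Matrix.symplecticGroup (Fin n) ℝ := by
  have h : star (κ : Matrix (Fin n) (Fin n) ℂ) * (κ : Matrix (Fin n) (Fin n) ℂ) = 1 :=
    Matrix.UnitaryGroup.star_mul_self κ
  rw [kMat, SymplecticGroup.fromBlocks_mem_iff]
  set A := (κ : Matrix (Fin n) (Fin n) ℂ) with hA
  have h1 : ∀ i j, ∑ k, (starRingEnd ℂ) (A k i) * A k j = if i = j then 1 else 0 := by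
    intro i j
    have := congrFun (congrFun h i) j
    rw [Matrix.mul_apply, Matrix.one_apply] at this
    simpa [Matrix.star_apply] using this
  have hre : ∀ i j, ∑ k, ((A k i).re * (A k j).re + (A k i).im * (A k j).im) =
      if i = j then (1 : ℝ) else 0 := by
    intro i j
    have := congrArg Complex.re (h1 i j)
    rw [Complex.re_sum] at this
    simp only [Complex.mul_re, Complex.conj_re, Complex.conj_im] at this
    rw [show (∑ k, ((A k i).re * (A k j).re + (A k i).im * (A k j).im)) =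
      ∑ k, ((A k i).re * (A k j).re - -(A k i).im * (A k j).im) from
        Finset.sum_congr rfl (fun k _ => by ring), this]
    split <;> simp
  have him : ∀ i j, ∑ k, ((A k i).re * (A k j).im - (A k i).im * (A k j).re) = 0 := by
    intro i j
    have := congrArg Complex.im (h1 i j)
    rw [Complex.im_sum] at this
    simp only [Complex.mul_im, Complex.conj_re, Complex.conj_im] at this
    rw [show (∑ k, ((A k i).re * (A k j).im - (A k i).im * (A k j).re)) =
      ∑ k, ((A k i).re * (A k j).im + -(A k i).im * (A k j).re) from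
        Finset.sum_congr rfl (fun k _ => by ring), this]
    split <;> simp
  refine ⟨?_, ?_, ?_⟩
  · ext i j
    simp only [Matrix.mul_apply, Matrix.transpose_apply, Matrix.map_apply]
    have := him i j
    rw [Finset.sum_sub_distrib, sub_eq_zero] at this
    simpa using this
  · ext i j
    simp only [Matrix.mul_apply, Matrix.transpose_apply, Matrix.map_apply, Matrix.neg_apply]
    have := him i j
    rw [Finset.sum_sub_distrib, sub_eq_zero] at this
    simp only [neg_mul, mul_neg, Finset.sum_neg_distrib, neg_inj]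
    exact this.symm
  · ext i j
    simp only [Matrix.sub_apply, Matrix.mul_apply, Matrix.transpose_apply, Matrix.map_apply,
      Matrix.neg_apply, Matrix.one_apply]
    rw [← Finset.sum_sub_distrib, ← hre i j]
    refine Finset.sum_congr rfl (fun k _ => by ring)

/-- The element of the maximal compact subgroup `U(n)` of `Sp n`. -/
def kElt {n : ℕ} (κ : Matrix.unitaryGroup (Fin n) ℂ) : Sp n :=
  ⟨kMat (κ : Matrix (Fin n) (Fin n) ℂ), kMat_mem κ⟩

theorem pMat_mul_J {n : ℕ} (Z : SymC n) :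
    pMat (Z : Matrix (Fin n) (Fin n) ℂ) * Matrix.J (Fin n) ℝ =
      -(Matrix.J (Fin n) ℝ * (pMat (Z : Matrix (Fin n) (Fin n) ℂ))ᵀ) := by
  have hZ : (Z : Matrix (Fin n) (Fin n) ℂ)ᵀ = Z := Z.2
  have hre : ((Z : Matrix (Fin n) (Fin n) ℂ).map Complex.re)ᵀ =
      (Z : Matrix (Fin n) (Fin n) ℂ).map Complex.re := by
    rw [← Matrix.transpose_map, hZ]
  have him : ((Z : Matrix (Fin n) (Fin n) ℂ).map Complex.im)ᵀ =
      (Z : Matrix (Fin n) (Fin n) ℂ).map Complex.im := by
    rw [← Matrix.transpose_map, hZ]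
  rw [pMat, Matrix.J, fromBlocks_transpose, fromBlocks_multiply, fromBlocks_multiply,
    fromBlocks_neg, Matrix.transpose_neg, hre, him]
  simp

theorem exp_pMat_mem {n : ℕ} (Z : SymC n) :
    NormedSpace.exp (pMat (Z : Matrix (Fin n) (Fin n) ℂ)) ∈ Matrix.symplecticGroup (Fin n) ℝ := by
  set M := pMat (Z : Matrix (Fin n) (Fin n) ℂ) with hM
  have hJ : IsUnit (Matrix.J (Fin n) ℝ) :=
    (Matrix.isUnit_iff_isUnit_det _).2 (Matrix.isUnit_det_J (Fin n) ℝ)
  have h1 : Matrix.J (Fin n) ℝ * Mᵀ * (Matrix.J (Fin n) ℝ)⁻¹ = -M := by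
    have h2 := pMat_mul_J Z
    rw [← hM] at h2
    have h3 : Matrix.J (Fin n) ℝ * Mᵀ = -(M * Matrix.J (Fin n) ℝ) := by rw [h2, neg_neg]
    rw [h3, Matrix.neg_mul, Matrix.mul_nonsing_inv_cancel_right _ _ (Matrix.isUnit_det_J _ _)]
  have h4 := Matrix.exp_conj (Matrix.J (Fin n) ℝ) Mᵀ hJ
  rw [h1, Matrix.exp_transpose] at h4
  rw [SymplecticGroup.mem_iff]
  have h5 : Matrix.J (Fin n) ℝ * (NormedSpace.exp M)ᵀ =
      NormedSpace.exp (-M) * Matrix.J (Fin n) ℝ := by
    rw [h4, Matrix.nonsing_inv_mul_cancel_right _ _ (Matrix.isUnit_det_J _ _)]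
  rw [Matrix.mul_assoc, h5, ← Matrix.mul_assoc, ← Matrix.exp_add_of_commute _ _
    (Commute.neg_right (Commute.refl M))]
  simp

/-- The exponential map on `p`. -/
def pExp {n : ℕ} (Z : SymC n) : Sp n :=
  ⟨NormedSpace.exp (pMat (Z : Matrix (Fin n) (Fin n) ℂ)), exp_pMat_mem Z⟩

/-- The complexified dual of `p`: complex valued real linear forms on `p`. -/
abbrev PDual (n : ℕ) : Type := SymC n →ₗ[ℝ] ℂ

/-- The complexified exterior algebra of the dual of `p`. -/
abbrev Forms (n : ℕ) : Type := ExteriorAlgebra ℂ (PDual n)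

/-- The linear form `Z ↦ Z i j`. -/
def dz {n : ℕ} (i j : Fin n) : PDual n where
  toFun Z := (Z : Matrix (Fin n) (Fin n) ℂ) i j
  map_add' := by intro a b; rfl
  map_smul' := by intro c a; simp

/-- The linear form `Z ↦ conj (Z i j)`. -/
def dzb {n : ℕ} (i j : Fin n) : PDual n where
  toFun Z := (starRingEnd ℂ) ((Z : Matrix (Fin n) (Fin n) ℂ) i j)
  map_add' := by intro a b; simp
  map_smul' := by intro c a; simp

/-- The linear form `Z ↦ Re (Z i j)`. -/
def dx {n : ℕ} (i j : Fin n) : PDual n where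
  toFun Z := (((Z : Matrix (Fin n) (Fin n) ℂ) i j).re : ℂ)
  map_add' := by intro a b; simp
  map_smul' := by intro c a; simp

/-- The linear form `Z ↦ Im (Z i j)`. -/
def dy {n : ℕ} (i j : Fin n) : PDual n where
  toFun Z := (((Z : Matrix (Fin n) (Fin n) ℂ) i j).im : ℂ)
  map_add' := by intro a b; simp
  map_smul' := by intro c a; simp

/-- The symmetric matrix with entries `c` at the places `(i, j)` and `(j, i)` and `0` elsewhere. -/
def E {n : ℕ} (c : ℂ) (i j : Fin n) : SymC n :=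
  ⟨Matrix.of fun a b => if (a = i ∧ b = j) ∨ (a = j ∧ b = i) then c else 0, by
    change Matrix.transpose _ = _
    ext a b
    simp only [Matrix.transpose_apply, Matrix.of_apply]
    congr 1
    rw [eq_iff_iff]
    tauto⟩

/-- The map `Z ↦ κ⁻¹ Z (κ⁻¹)ᵀ` on symmetric matrices, `κ` unitary. -/
def adInv {n : ℕ} (κ : Matrix.unitaryGroup (Fin n) ℂ) : SymC n →ₗ[ℝ] SymC n where
  toFun Z := ⟨star (κ : Matrix (Fin n) (Fin n) ℂ) * (Z : Matrix (Fin n) (Fin n) ℂ) *
      (star (κ : Matrix (Fin n) (Fin n) ℂ))ᵀ, by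
    have hZ : (Z : Matrix (Fin n) (Fin n) ℂ)ᵀ = Z := Z.2
    change Matrix.transpose _ = _
    rw [Matrix.transpose_mul, Matrix.transpose_mul, hZ, Matrix.transpose_transpose,
      Matrix.mul_assoc]⟩
  map_add' := by
    intro a b
    apply Subtype.ext
    simp [Matrix.mul_add, Matrix.add_mul]
  map_smul' := by
    intro c a
    apply Subtype.ext
    simp

/-- The action of `κ ∈ U(n)` on linear forms: `ω ↦ ω ∘ Ad(κ⁻¹)`. -/
def rhoLin {n : ℕ} (κ : Matrix.unitaryGroup (Fin n) ℂ) : PDual n →ₗ[ℂ] PDual n where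
  toFun ω := ω ∘ₗ adInv κ
  map_add' := by intro a b; rfl
  map_smul' := by intro c a; rfl

/-- The action of `κ ∈ U(n)` on the exterior algebra. -/
def rho {n : ℕ} (κ : Matrix.unitaryGroup (Fin n) ℂ) : Forms n →ₐ[ℂ] Forms n :=
  ExteriorAlgebra.map (rhoLin κ)

/-- The action of `κ ∈ U(n)` on the exterior algebra, as a function. -/
def rhoF {n : ℕ} (κ : Matrix.unitaryGroup (Fin n) ℂ) (α : Forms n) : Forms n := rho κ α

/-- A linear form, as an element of the exterior algebra. -/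
def wi {n : ℕ} (ω : PDual n) : Forms n := ExteriorAlgebra.ι ℂ ω

/-- The exterior product. -/
def wmul {n : ℕ} (α β : Forms n) : Forms n := α * β

/-- Complex linear forms on the exterior algebra. -/
abbrev FDual (n : ℕ) : Type := Forms n →ₗ[ℂ] ℂ

/-- The value of the linear form `l` on the exterior algebra at `α`. -/
def ev {n : ℕ} (l : FDual n) (α : Forms n) : ℂ := l α

/-- The determinant of the matrix of 2-forms `Θ i j = ∑ k, dz i k ∧ dzb j k`: up to a non-zero
scalar, the value at the base point of the top Chern form `c_n` of the Hodge bundle with its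
Hodge metric. -/
def hodgeTop (n : ℕ) : Forms n :=
  ∑ σ : Equiv.Perm (Fin n), ((Equiv.Perm.sign σ : ℤ) : ℂ) •
    (List.ofFn fun i : Fin n => ∑ k : Fin n, wmul (wi (dz i k)) (wi (dzb (σ i) k))).prod

/-- The exterior derivative at a point, in terms of the derivatives `D Z` of the form in the
directions `Z`: the sum over `i ≤ j` of `dx i j ∧ D (E 1 i j) + dy i j ∧ D (E I i j)`. -/
def extD {n : ℕ} (D : SymC n → Forms n) : Forms n :=
  ∑ i : Fin n, ∑ j : Fin n, if i ≤ j then
    wmul (wi (dx i j)) (D (E 1 i j)) + wmul (wi (dy i j)) (D (E Complex.I i j)) else 0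

/-- `φ` is a differential form of class `C¹` on the locally symmetric space of the subgroup `Γ`,
written as a `U(n)`-equivariant function on `Sp n ⧸ Γ` with values in the exterior algebra, and
`D Z` is its derivative in the direction `Z`. -/
structure IsC1Form {n : ℕ} {Γ : Subgroup (Sp n)} (φ : Sp n ⧸ Γ → Forms n)
    (D : SymC n → Sp n ⧸ Γ → Forms n) : Prop where
  equivariant : ∀ (κ : Matrix.unitaryGroup (Fin n) ℂ) (x : Sp n ⧸ Γ),
    φ (kElt κ • x) = rhoF κ (φ x)
  continuous : ∀ l : FDual n, Continuous fun x => ev l (φ x)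
  continuous_deriv : ∀ (Z : SymC n) (l : FDual n), Continuous fun x => ev l (D Z x)
  hasDeriv : ∀ (Z : SymC n) (l : FDual n) (x : Sp n ⧸ Γ),
    HasDerivAt (fun t : ℝ => ev l (φ (pExp (t • Z) • x))) (ev l (D Z x)) 0

/-- `φ` is a differential form of class `C¹`, and its exterior derivative is `θ`. -/
def IsExtDeriv {n : ℕ} {Γ : Subgroup (Sp n)} (φ θ : Sp n ⧸ Γ → Forms n) : Prop :=
  ∃ D : SymC n → Sp n ⧸ Γ → Forms n, IsC1Form φ D ∧ ∀ x, extD (fun Z => D Z x) = θ x

/-- `φ` is a closed differential form of class `C¹`. -/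
def IsClosedForm {n : ℕ} {Γ : Subgroup (Sp n)} (φ : Sp n ⧸ Γ → Forms n) : Prop :=
  IsExtDeriv φ (fun _ => 0)

theorem IsClosedForm.equivariant {n : ℕ} {Γ : Subgroup (Sp n)} {φ : Sp n ⧸ Γ → Forms n}
    (h : IsClosedForm φ) (κ : Matrix.unitaryGroup (Fin n) ℂ) (x : Sp n ⧸ Γ) :
    φ (kElt κ • x) = rhoF κ (φ x) := by
  obtain ⟨D, hD, _⟩ := h
  exact hD.equivariant κ x

theorem IsClosedForm.continuous {n : ℕ} {Γ : Subgroup (Sp n)} {φ : Sp n ⧸ Γ → Forms n}
    (h : IsClosedForm φ) (l : FDual n) : Continuous fun x => ev l (φ x) := by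
  obtain ⟨D, hD, _⟩ := h
  exact hD.continuous l

theorem IsClosedForm.closed {n : ℕ} {Γ : Subgroup (Sp n)} {φ : Sp n ⧸ Γ → Forms n}
    (h : IsClosedForm φ) : ∃ D : SymC n → Sp n ⧸ Γ → Forms n,
    (∀ (Z : SymC n) (l : FDual n), Continuous fun x => ev l (D Z x)) ∧
    (∀ (Z : SymC n) (l : FDual n) (x : Sp n ⧸ Γ),
      HasDerivAt (fun t : ℝ => ev l (φ (pExp (t • Z) • x))) (ev l (D Z x)) 0) ∧
    ∀ x, extD (fun Z => D Z x) = 0 := by
  obtain ⟨D, hD, h0⟩ := h
  exact ⟨D, hD.continuous_deriv, hD.hasDeriv, h0⟩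

/-- `φ` is in `L^p`. -/
def IsLp {n : ℕ} {Γ : Subgroup (Sp n)} [MeasurableSpace (Sp n ⧸ Γ)] (p : ENNReal)
    (μ : Measure (Sp n ⧸ Γ)) (φ : Sp n ⧸ Γ → Forms n) : Prop :=
  ∀ l : FDual n, MemLp (fun x => ev l (φ x)) p μ

/-- `φ₀` is the mean of `φ`. -/
def IsMean {n : ℕ} {Γ : Subgroup (Sp n)} [MeasurableSpace (Sp n ⧸ Γ)]
    (μ : Measure (Sp n ⧸ Γ)) (φ : Sp n ⧸ Γ → Forms n) (φ₀ : Forms n) : Prop :=
  ∀ l : FDual n, ∫ x, ev l (φ x) ∂μ = (μ.real Set.univ : ℂ) * ev l φ₀

/-- `ω` is a bounded form, and `ω = c + dβ` with `c = hodgeTop n` and a bounded form `β` of class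
`C¹`. -/
def IsLambdaForm {n : ℕ} {Γ : Subgroup (Sp n)} [MeasurableSpace (Sp n ⧸ Γ)]
    (μ : Measure (Sp n ⧸ Γ)) (ω : Sp n ⧸ Γ → Forms n) : Prop :=
  IsLp ⊤ μ ω ∧ ∃ β θ : Sp n ⧸ Γ → Forms n, IsLp ⊤ μ β ∧ IsExtDeriv β θ ∧
    ∀ x, ω x = hodgeTop n + θ x

/-- `φ' = φ + dψ` is a closed form, where either `ψ = 0`, or `ψ` is any form of class `C¹` and `ω`
is closed, of class `C¹`, with compact support. -/
def IsAdm {n : ℕ} {Γ : Subgroup (Sp n)} (ω φ φ' : Sp n ⧸ Γ → Forms n) : Prop :=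
  φ' = φ ∨ (IsClosedForm ω ∧ HasCompactSupport ω ∧ IsClosedForm φ' ∧
    ∃ ψ θ : Sp n ⧸ Γ → Forms n, IsExtDeriv ψ θ ∧ ∀ x, φ' x = φ x + θ x)

end MP_74a8fd_ag.HP
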