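import Pool.Agent.Lib.MP_74a8fd_ag.HP.Defs

/-! MP_74a8fd_ag: auxiliary definitions for the proof. -/

open Matrix MeasureTheory Filter Topology

noncomputable section

namespace MP_74a8fd_ag.HP

open ExteriorAlgebra (ι)

/-- A continuous measure preserving flow. -/
structure IsFlow {X : Type*} [TopologicalSpace X] [MeasurableSpace X] (μ : Measure X)
    (T : ℝ → X → X) : Prop where
  continuous : Continuous fun p : ℝ × X => T p.1 p.2
  add : ∀ s t x, T (s + t) x = T s (T t x)
  zero : ∀ x, T 0 x = x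
  mp : ∀ t, MeasurePreserving (T t) μ μ

/-- The linear form `Z ↦ (Z u) i`. -/
def dzv {n : ℕ} (u : Fin n → ℂ) (i : Fin n) : PDual n := ∑ j, u j • dz i j

/-- The linear form `Z ↦ conj ((Z u) i)`. -/
def dzbv {n : ℕ} (u : Fin n → ℂ) (i : Fin n) : PDual n := ∑ j, (starRingEnd ℂ) (u j) • dzb i j

/-- The normal volume form of the subspace `{Z : Z u = 0}`. -/
def phiVec {n : ℕ} (u : Fin n → ℂ) : Forms n :=
  (List.ofFn fun i : Fin n => ι ℂ (dzv u i) * ι ℂ (dzbv u i)).prod

/-- Evaluation of linear forms at a point of `p`. -/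
def evalAt {n : ℕ} (Z : SymC n) : Module.Dual ℂ (PDual n) where
  toFun ω := ω Z
  map_add' := by intro a b; rfl
  map_smul' := by intro c a; rfl

end MP_74a8fd_ag.HP
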