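import Mathlib

/-! MP_74a8fd_ag: a group acts ergodically on its quotients. -/

open Matrix MeasureTheory Filter Topology

noncomputable section

namespace MP_74a8fd_ag.HP

theorem ae_const_of_invariant {G : Type*} [Group G] [TopologicalSpace G] [IsTopologicalGroup G]
    [SecondCountableTopology G] [LocallyCompactSpace G] [T2Space G] (Γ : Subgroup G)
    [MeasurableSpace (G ⧸ Γ)] [BorelSpace (G ⧸ Γ)]
    (μ : Measure (G ⧸ Γ)) [IsFiniteMeasure μ] [SMulInvariantMeasure G (G ⧸ Γ) μ]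
    (f : G ⧸ Γ → ℂ) (hf : AEStronglyMeasurable f μ)
    (hinv : ∀ g : G, (fun x => f (g • x)) =ᵐ[μ] f) : ∃ c : ℂ, f =ᵐ[μ] fun _ => c := by
  rcases eq_or_ne μ 0 with h0 | h0
  · subst h0
    exact ⟨0, by simp [Filter.EventuallyEq]⟩
  have : (ae μ).NeBot := ae_neBot.2 h0
  borelize G
  set m : Measure G := Measure.haar with hm
  set f' : G ⧸ Γ → ℂ := hf.mk f with hf'
  have hfm : StronglyMeasurable f' := hf.stronglyMeasurable_mk
  have hff' : f =ᵐ[μ] f' := hf.ae_eq_mk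
  have hsm : Continuous (fun p : G × (G ⧸ Γ) => p.1 • p.2) := continuous_smul
  have hinv' : ∀ g : G, ∀ᵐ x ∂μ, f' (g • x) = f' x := by
    intro g
    have h1 : ∀ᵐ x ∂μ, f (g • x) = f' (g • x) :=
      (measurePreserving_smul g μ).quasiMeasurePreserving.ae hff'
    filter_upwards [h1, hinv g, hff'] with x h1 h2 h3
    rw [← h1, h2, h3]
  have hE : MeasurableSet {p : G × (G ⧸ Γ) | f' (p.1 • p.2) = f' p.2} := by
    refine measurableSet_eq_fun ?_ ?_
    · exact hfm.measurable.comp hsm.measurable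
    · exact hfm.measurable.comp measurable_snd
  have h2 : ∀ᵐ x ∂μ, ∀ᵐ g ∂m, f' (g • x) = f' x :=
    (Measure.ae_ae_comm (p := fun g x => f' (g • x) = f' x) hE).1 (Eventually.of_forall hinv')
  obtain ⟨x₀, hx₀⟩ := h2.exists
  refine ⟨f' x₀, ?_⟩
  filter_upwards [hff', h2] with x hx hx'
  rw [hx]
  obtain ⟨h, rfl⟩ := MulAction.exists_smul_eq G x₀ x
  have h3 : ∀ᵐ g ∂m, f' ((g * h) • x₀) = f' x₀ :=
    (quasiMeasurePreserving_mul_right m h).ae hx₀
  obtain ⟨g, hg1, hg2⟩ := (hx'.and h3).exists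
  rw [← hg1, ← hg2, mul_smul]

end MP_74a8fd_ag.HP
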