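import Pool.Agent.Lib.MP_74a8fd_ag.HP.Defs2

/-! MP_74a8fd_ag, module KAV1: the action of `U(n)` on the normal volume forms. -/

open Matrix MeasureTheory Filter Topology

noncomputable section

namespace MP_74a8fd_ag.HP

open ExteriorAlgebra (ι)

namespace Kav1

section

variable {V : Type*} [AddCommGroup V] [Module ℂ V]

theorem ι_anti (x y : V) : ι ℂ y * ι ℂ x = -(ι ℂ x * ι ℂ y) :=
  eq_neg_of_add_eq_zero_left (ExteriorAlgebra.ι_add_mul_swap y x)

theorem ι_mul_prod (y : V) {n : ℕ} (x : Fin n → V) :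
    ι ℂ y * (List.ofFn fun i => ι ℂ (x i)).prod =
      ((-1 : ℂ) ^ n) • ((List.ofFn fun i => ι ℂ (x i)).prod * ι ℂ y) := by
  induction n with
  | zero => simp
  | succ n ih =>
    rw [List.ofFn_succ, List.prod_cons, ← mul_assoc, ι_anti, neg_mul, mul_assoc, mul_assoc]
    rw [ih (fun i => x i.succ), mul_smul_comm, pow_succ, mul_neg_one, neg_smul]

/-- The sign `(-1) ^ (n (n - 1) / 2)`. -/
def sgn : ℕ → ℂ
  | 0 => 1
  | n + 1 => (-1) ^ n * sgn n

theorem interleave {n : ℕ} (x y : Fin n → V) :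
    (List.ofFn fun i => ι ℂ (x i) * ι ℂ (y i)).prod =
      sgn n • ((List.ofFn fun i => ι ℂ (x i)).prod * (List.ofFn fun i => ι ℂ (y i)).prod) := by
  induction n with
  | zero => simp [sgn]
  | succ n ih =>
    rw [List.ofFn_succ, List.prod_cons, ih (fun i => x i.succ) (fun i => y i.succ)]
    rw [List.ofFn_succ (f := fun i => ι ℂ (x i)), List.ofFn_succ (f := fun i => ι ℂ (y i)),
      List.prod_cons, List.prod_cons]
    rw [mul_smul_comm, mul_assoc (ι ℂ (x 0)), ← mul_assoc (ι ℂ (y 0)), ι_mul_prod]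
    rw [sgn, mul_comm ((-1 : ℂ) ^ n) (sgn n), mul_smul]
    simp only [mul_assoc, smul_mul_assoc, mul_smul_comm]

/-- An alternating map at linear combinations of `n` vectors. -/
theorem alt_matrix {W : Type*} [AddCommGroup W] [Module ℂ W] {n : ℕ} (f : V [⋀^Fin n]→ₗ[ℂ] W)
    (M : Matrix (Fin n) (Fin n) ℂ) (v : Fin n → V) :
    f (fun i => ∑ j, M i j • v j) = M.det • f v := by
  let L : (Fin n → ℂ) →ₗ[ℂ] V := Fintype.linearCombination ℂ v
  have hL : ∀ w, L w = ∑ j, w j • v j := fun w => Fintype.linearCombination_apply _ _ _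
  have h : f.compLinearMap L =
      (LinearMap.toSpanSingleton ℂ W (f v)).compAlternatingMap Matrix.detRowAlternating := by
    refine Module.Basis.ext_alternating (Pi.basisFun ℂ (Fin n)) fun τ hτ => ?_
    obtain ⟨σ, hσ⟩ : ∃ σ : Equiv.Perm (Fin n), ⇑σ = τ :=
      ⟨Equiv.ofBijective τ (Finite.injective_iff_bijective.1 hτ), rfl⟩
    subst hσ
    have h1 : (f.compLinearMap L fun i => Pi.basisFun ℂ (Fin n) (σ i)) = f (v ∘ σ) := by
      rw [AlternatingMap.compLinearMap_apply]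
      congr 1
      funext i
      rw [hL]
      simp [Pi.basisFun_apply, Pi.single_apply]
    have h2 : (Matrix.detRowAlternating (R := ℂ) fun i => Pi.basisFun ℂ (Fin n) (σ i)) =
        ((Equiv.Perm.sign σ : ℤ) : ℂ) := by
      have h3 : (fun i => Pi.basisFun ℂ (Fin n) (σ i)) = (fun i => Pi.basisFun ℂ (Fin n) i) ∘ σ :=
        rfl
      rw [h3, AlternatingMap.map_perm]
      have h4 : (Matrix.detRowAlternating (R := ℂ) fun i => Pi.basisFun ℂ (Fin n) i) = 1 := by
        have : (fun i => Pi.basisFun ℂ (Fin n) i) = (1 : Matrix (Fin n) (Fin n) ℂ) := by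
          ext i j
          simp [Pi.basisFun_apply, Pi.single_apply, Matrix.one_apply, eq_comm]
        rw [this]
        exact Matrix.det_one
      rw [h4]
      simp [Units.smul_def]
    rw [h1, AlternatingMap.map_perm, LinearMap.compAlternatingMap_apply, h2,
      LinearMap.toSpanSingleton_apply]
    rw [Units.smul_def, Int.cast_smul_eq_zsmul]
  have h5 := congrArg (fun g => g fun i => M i) h
  simp only [AlternatingMap.compLinearMap_apply, LinearMap.compAlternatingMap_apply,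
    LinearMap.toSpanSingleton_apply, hL] at h5
  exact h5

theorem prod_matrix {n : ℕ} (M N : Matrix (Fin n) (Fin n) ℂ) (x y : Fin n → V) :
    (List.ofFn fun i => ι ℂ (∑ j, M i j • x j) * ι ℂ (∑ j, N i j • y j)).prod =
      (M.det * N.det) • (List.ofFn fun i => ι ℂ (x i) * ι ℂ (y i)).prod := by
  rw [interleave, interleave]
  have h1 := alt_matrix (ExteriorAlgebra.ιMulti ℂ n) M x
  have h2 := alt_matrix (ExteriorAlgebra.ιMulti ℂ n) N y
  rw [ExteriorAlgebra.ιMulti_apply, ExteriorAlgebra.ιMulti_apply] at h1 h2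
  rw [h1, h2]
  simp only [smul_mul_assoc, mul_smul_comm, smul_smul]
  congr 1
  ring

end

variable {n : ℕ}

theorem dzv_apply (u : Fin n → ℂ) (i : Fin n) (Z : SymC n) :
    dzv u i Z = ((Z : Matrix (Fin n) (Fin n) ℂ) *ᵥ u) i := by
  rw [dzv, LinearMap.sum_apply, Matrix.mulVec, dotProduct]
  refine Finset.sum_congr rfl fun j _ => ?_
  show u j * (Z : Matrix (Fin n) (Fin n) ℂ) i j = _
  rw [mul_comm]

theorem dzbv_apply (u : Fin n → ℂ) (i : Fin n) (Z : SymC n) :
    dzbv u i Z = (starRingEnd ℂ) (((Z : Matrix (Fin n) (Fin n) ℂ) *ᵥ u) i) := by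
  rw [dzbv, LinearMap.sum_apply, Matrix.mulVec, dotProduct, map_sum]
  refine Finset.sum_congr rfl fun j _ => ?_
  show (starRingEnd ℂ) (u j) * (starRingEnd ℂ) ((Z : Matrix (Fin n) (Fin n) ℂ) i j) = _
  rw [mul_comm, map_mul]

theorem adInv_mulVec (κ : Matrix.unitaryGroup (Fin n) ℂ) (Z : SymC n) (u : Fin n → ℂ) :
    (adInv κ Z : Matrix (Fin n) (Fin n) ℂ) *ᵥ u =
      star (κ : Matrix (Fin n) (Fin n) ℂ) *ᵥ ((Z : Matrix (Fin n) (Fin n) ℂ) *ᵥ
        (((κ : Matrix (Fin n) (Fin n) ℂ).map (starRingEnd ℂ)) *ᵥ u)) := by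
  rw [Matrix.mulVec_mulVec, Matrix.mulVec_mulVec]
  rfl

theorem rhoLin_dzv (κ : Matrix.unitaryGroup (Fin n) ℂ) (u : Fin n → ℂ) (i : Fin n) :
    rhoLin κ (dzv u i) = ∑ a, (star (κ : Matrix (Fin n) (Fin n) ℂ)) i a •
      dzv (((κ : Matrix (Fin n) (Fin n) ℂ).map (starRingEnd ℂ)) *ᵥ u) a := by
  refine LinearMap.ext fun Z => ?_
  show dzv u i (adInv κ Z) = _
  rw [dzv_apply, adInv_mulVec, LinearMap.sum_apply, Matrix.mulVec, dotProduct]
  refine Finset.sum_congr rfl fun a _ => ?_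
  rw [LinearMap.smul_apply, dzv_apply]
  rfl

theorem rhoLin_dzbv (κ : Matrix.unitaryGroup (Fin n) ℂ) (u : Fin n → ℂ) (i : Fin n) :
    rhoLin κ (dzbv u i) = ∑ a, ((star (κ : Matrix (Fin n) (Fin n) ℂ)).map (starRingEnd ℂ)) i a •
      dzbv (((κ : Matrix (Fin n) (Fin n) ℂ).map (starRingEnd ℂ)) *ᵥ u) a := by
  refine LinearMap.ext fun Z => ?_
  show dzbv u i (adInv κ Z) = _
  rw [dzbv_apply, adInv_mulVec, LinearMap.sum_apply, Matrix.mulVec, dotProduct, map_sum]
  refine Finset.sum_congr rfl fun a _ => ?_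
  rw [LinearMap.smul_apply, dzbv_apply, map_mul]
  rfl

theorem phiVec_smul (c : ℂ) (u : Fin n → ℂ) :
    phiVec (c • u) = (c * (starRingEnd ℂ) c) ^ n • phiVec u := by
  have h1 : ∀ i, dzv (c • u) i = ∑ j, (c • (1 : Matrix (Fin n) (Fin n) ℂ)) i j • dzv u j := by
    intro i
    refine LinearMap.ext fun Z => ?_
    rw [dzv_apply, Matrix.mulVec_smul, LinearMap.sum_apply]
    simp only [Matrix.smul_apply, Matrix.one_apply, LinearMap.smul_apply, dzv_apply]
    simp
  have h2 : ∀ i, dzbv (c • u) i =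
      ∑ j, ((starRingEnd ℂ) c • (1 : Matrix (Fin n) (Fin n) ℂ)) i j • dzbv u j := by
    intro i
    refine LinearMap.ext fun Z => ?_
    rw [dzbv_apply, Matrix.mulVec_smul, LinearMap.sum_apply]
    simp only [Matrix.smul_apply, Matrix.one_apply, LinearMap.smul_apply, dzbv_apply]
    simp
  rw [phiVec]
  simp only [h1, h2]
  rw [prod_matrix, Matrix.det_smul, Matrix.det_smul, Matrix.det_one, mul_one, mul_one,
    Fintype.card_fin, mul_pow]
  rfl

theorem phiVec_zero (o : Fin n) : phiVec (0 : Fin n → ℂ) = 0 := by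
  have h := phiVec_smul (0 : ℂ) (0 : Fin n → ℂ)
  rw [smul_zero, zero_mul, zero_pow (Nat.pos_iff_ne_zero.1 (Fin.pos o)), zero_smul] at h
  exact h

/-- There is a unitary matrix with a given unit vector as a column. -/
theorem exists_unitary (o : Fin n) (w : EuclideanSpace ℂ (Fin n)) (hw : ‖w‖ = 1) :
    ∃ κ : Matrix.unitaryGroup (Fin n) ℂ, ∀ i, (κ : Matrix (Fin n) (Fin n) ℂ) i o = w i := by
  obtain ⟨b, hb⟩ := Orthonormal.exists_orthonormalBasis_extension_of_card_eq (𝕜 := ℂ)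
    (E := EuclideanSpace ℂ (Fin n)) (ι := Fin n) (by simp) (v := fun _ => w) (s := {o}) (by
      refine ⟨fun _ => hw, ?_⟩
      intro i j hij
      exact absurd (Subsingleton.elim i j) hij)
  refine ⟨⟨(EuclideanSpace.basisFun (Fin n) ℂ).toBasis.toMatrix b,
    (EuclideanSpace.basisFun (Fin n) ℂ).toMatrix_orthonormalBasis_mem_unitary b⟩, fun i => ?_⟩
  show (EuclideanSpace.basisFun (Fin n) ℂ).toBasis.toMatrix b i o = w i
  rw [Module.Basis.toMatrix_apply, hb o rfl]
  simp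

end Kav1

open Kav1

theorem rho_phiVec {n : ℕ} (κ : Matrix.unitaryGroup (Fin n) ℂ) (u : Fin n → ℂ) :
    rho κ (phiVec u) =
      phiVec (((κ : Matrix (Fin n) (Fin n) ℂ).map (starRingEnd ℂ)) *ᵥ u) := by
  set v := ((κ : Matrix (Fin n) (Fin n) ℂ).map (starRingEnd ℂ)) *ᵥ u with hv
  have h1 : rho κ (phiVec u) = (List.ofFn fun i : Fin n =>
      ι ℂ (∑ a, (star (κ : Matrix (Fin n) (Fin n) ℂ)) i a • dzv v a) *
      ι ℂ (∑ a, ((star (κ : Matrix (Fin n) (Fin n) ℂ)).map (starRingEnd ℂ)) i a • dzbv v a)).prod := by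
    rw [phiVec, map_list_prod, List.map_ofFn]
    congr 2
    funext i
    show rho κ (ι ℂ (dzv u i) * ι ℂ (dzbv u i)) = _
    rw [map_mul, rho, ExteriorAlgebra.map_apply_ι, ExteriorAlgebra.map_apply_ι, rhoLin_dzv,
      rhoLin_dzbv]
  have h2 : (star (κ : Matrix (Fin n) (Fin n) ℂ)).det *
      ((star (κ : Matrix (Fin n) (Fin n) ℂ)).map (starRingEnd ℂ)).det = 1 := by
    have h3 : ((star (κ : Matrix (Fin n) (Fin n) ℂ)).map (starRingEnd ℂ)).det =
        star ((star (κ : Matrix (Fin n) (Fin n) ℂ)).det) := by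
      have := RingHom.map_det (starRingEnd ℂ) (star (κ : Matrix (Fin n) (Fin n) ℂ))
      exact this.symm
    have h4 : (star (κ : Matrix (Fin n) (Fin n) ℂ)).det ∈ unitary ℂ :=
      Matrix.det_of_mem_unitary (star κ).2
    rw [h3]
    exact (Unitary.mem_iff.1 h4).2
  rw [h1, prod_matrix, h2, one_smul]
  rfl

theorem exists_phiVec_eq {n : ℕ} (o : Fin n) (u : Fin n → ℂ) :
    ∃ (κ : Matrix.unitaryGroup (Fin n) ℂ) (c : ℂ),
      phiVec u = c • rho κ (phiVec (Pi.single o 1)) := by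
  by_cases hu : u = 0
  · refine ⟨1, 0, ?_⟩
    rw [hu, phiVec_zero o, zero_smul]
  · set w : EuclideanSpace ℂ (Fin n) := WithLp.toLp 2 fun i => (starRingEnd ℂ) (u i) with hw
    have hw0 : w ≠ 0 := by
      intro h
      apply hu
      funext i
      have := congrArg (fun v : EuclideanSpace ℂ (Fin n) => v i) h
      simpa [hw] using this
    have hn : (‖w‖ : ℂ) ≠ 0 := by
      exact_mod_cast (norm_ne_zero_iff.2 hw0)
    obtain ⟨κ, hκ⟩ := exists_unitary o (((‖w‖ : ℂ)⁻¹) • w) (by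
      rw [norm_smul, norm_inv, Complex.norm_real, norm_norm, inv_mul_cancel₀]
      exact norm_ne_zero_iff.2 hw0)
    refine ⟨κ, ((‖w‖ : ℂ) * (starRingEnd ℂ) (‖w‖ : ℂ)) ^ n, ?_⟩
    rw [rho_phiVec, ← phiVec_smul]
    congr 1
    funext i
    rw [Pi.smul_apply, Matrix.mulVec_single_one, Matrix.col_apply, Matrix.map_apply, hκ i]
    simp only [hw, PiLp.smul_apply, smul_eq_mul, map_mul, map_inv₀, Complex.conj_ofReal,
      starRingEnd_self_apply]
    rw [← mul_assoc]
    have hn' := hn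
    rw [hw] at hn'
    rw [mul_inv_cancel₀ hn', one_mul]

end MP_74a8fd_ag.HP
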