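import Pool.Agent.Lib.MP_74a8fd_ag.HP.Defs2

/-! MP_74a8fd_ag, module KAV2: the form `hodgeTop` is in the span of the forms `phiVec u` (helper22). -/

set_option autoImplicit false

open Matrix MeasureTheory Filter Topology

noncomputable section

namespace MP_74a8fd_ag.HP

open ExteriorAlgebra (ι)

namespace KAV2M

section

variable {V : Type*} [AddCommGroup V] [Module ℂ V]

theorem ι_mul_prod (m : V) : ∀ (k : ℕ) (x : Fin k → V),
    ι ℂ m * (List.ofFn fun i => ι ℂ (x i)).prod =
      (-1 : ℂ) ^ k • ((List.ofFn fun i => ι ℂ (x i)).prod * ι ℂ m) := by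
  intro k
  induction k with
  | zero => intro x; simp
  | succ k ih =>
    intro x
    rw [List.ofFn_succ, List.prod_cons, ← mul_assoc]
    have h1 : ι ℂ m * ι ℂ (x 0) = -(ι ℂ (x 0) * ι ℂ m) :=
      eq_neg_of_add_eq_zero_left (ExteriorAlgebra.ι_add_mul_swap m (x 0))
    rw [h1, neg_mul, mul_assoc, ih, pow_succ, mul_smul_comm, mul_neg_one, neg_smul, mul_assoc]

/-- interleaving -/
theorem inter (n : ℕ) : ∃ ε : ℂ, ∀ x y : Fin n → V,
    (List.ofFn fun i => ι ℂ (x i) * ι ℂ (y i)).prod =
      ε • ((ExteriorAlgebra.ιMulti ℂ n x) * (ExteriorAlgebra.ιMulti ℂ n y)) := by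
  simp only [ExteriorAlgebra.ιMulti_apply]
  induction n with
  | zero => exact ⟨1, fun x y => by simp⟩
  | succ n ih =>
    obtain ⟨ε, hε⟩ := ih
    refine ⟨ε * (-1) ^ n, fun x y => ?_⟩
    rw [List.ofFn_succ, List.prod_cons, hε (fun i => x i.succ) (fun i => y i.succ)]
    rw [List.ofFn_succ (f := fun i => ι ℂ (x i)), List.prod_cons,
      List.ofFn_succ (f := fun i => ι ℂ (y i)), List.prod_cons]
    have h1 := ι_mul_prod (y 0) n (fun i => x i.succ)
    rw [mul_smul_comm, mul_assoc (ι ℂ (x 0)), ← mul_assoc (ι ℂ (y 0)), h1, mul_smul,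
      smul_mul_assoc, mul_smul_comm]
    simp only [mul_assoc]

end

/-! ### A signed measure -/

theorem moments (n : ℕ) : ∃ (z w : Option (Fin (n + 1)) → ℂ),
    (∀ q, q ≤ n → ∑ i, w i * (starRingEnd ℂ) (z i) ^ q = 0) ∧
    (∀ p, p ≤ n → ∑ i, w i * z i ^ p = 0) ∧
    ∑ i, w i * z i * (starRingEnd ℂ) (z i) = 1 := by
  have hN : (n + 1 : ℕ) ≠ 0 := Nat.succ_ne_zero n
  have hζ := Complex.isPrimitiveRoot_exp (n + 1) hN
  set ζ : ℂ := Complex.exp (2 * Real.pi * Complex.I / ((n + 1 : ℕ) : ℂ)) with hζd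
  have hn : ((n : ℂ) + 1) ≠ 0 := by exact_mod_cast hN
  have hnorm : ∀ j : Fin (n + 1), (ζ ^ (j : ℕ)) * (starRingEnd ℂ) (ζ ^ (j : ℕ)) = 1 := by
    intro j
    rw [Complex.mul_conj, Complex.normSq_eq_norm_sq, norm_pow, hζ.norm'_eq_one hN]
    simp
  have hp : ∀ p, p ≤ n → ∑ i : Option (Fin (n + 1)),
      (Option.elim i (-1 : ℂ) fun _ => 1 / ((n : ℂ) + 1)) *
        (Option.elim i (0 : ℂ) fun j => ζ ^ (j : ℕ)) ^ p = 0 := by
    intro p hp
    rw [Fintype.sum_option]
    simp only [Option.elim_none, Option.elim_some]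
    rcases Nat.eq_zero_or_pos p with rfl | hp0
    · simp only [pow_zero, mul_one, Finset.sum_const, Finset.card_univ, Fintype.card_fin,
        nsmul_eq_mul]
      push_cast
      field_simp
      ring
    · rw [zero_pow hp0.ne', mul_zero, zero_add, ← Finset.mul_sum]
      have h1 : ∑ j : Fin (n + 1), (ζ ^ (j : ℕ)) ^ p = 0 := by
        have h2 : ∀ j : Fin (n + 1), (ζ ^ (j : ℕ)) ^ p = (ζ ^ p) ^ (j : ℕ) := by
          intro j; rw [← pow_mul, ← pow_mul, mul_comm]
        rw [Finset.sum_congr rfl (fun j _ => h2 j), Fin.sum_univ_eq_sum_range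
          (fun j => (ζ ^ p) ^ j)]
        have h3 : ζ ^ p ≠ 1 := hζ.pow_ne_one_of_pos_of_lt hp0.ne' (by omega)
        rw [geom_sum_eq h3, ← pow_mul, mul_comm p, pow_mul, hζ.pow_eq_one]
        simp
      rw [h1, mul_zero]
  refine ⟨fun i => Option.elim i (0 : ℂ) fun j => ζ ^ (j : ℕ),
    fun i => Option.elim i (-1 : ℂ) fun _ => 1 / ((n : ℂ) + 1), ?_, hp, ?_⟩
  · intro q hq
    have h1 := congrArg (starRingEnd ℂ) (hp q hq)
    rw [map_sum, map_zero] at h1
    refine Eq.trans (Finset.sum_congr rfl fun i _ => ?_) h1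
    rw [map_mul, map_pow]
    congr 1
    cases i with
    | none => simp
    | some j => simp
  · rw [Fintype.sum_option]
    simp only [Option.elim_none, Option.elim_some, mul_zero, zero_mul, zero_add]
    have h1 : ∀ j : Fin (n + 1), 1 / ((n : ℂ) + 1) * ζ ^ (j : ℕ) *
        (starRingEnd ℂ) (ζ ^ (j : ℕ)) = 1 / ((n : ℂ) + 1) := by
      intro j
      rw [mul_assoc, hnorm, mul_one]
    rw [Finset.sum_congr rfl (fun j _ => h1 j)]
    simp only [Finset.sum_const, Finset.card_univ, Fintype.card_fin, nsmul_eq_mul]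
    push_cast
    field_simp

/-! ### Linear algebra -/

section

variable {F : Type*} [AddCommGroup F] [Module ℂ F] {n : ℕ}

/-- the value at `v` of the form with coefficients `T` -/
def val (T : (Fin n → Fin n) → (Fin n → Fin n) → F) (v : Fin n → ℂ) : F :=
  ∑ f : Fin n → Fin n, ∑ g : Fin n → Fin n,
    ((∏ i, v (f i)) * ∏ i, (starRingEnd ℂ) (v (g i))) • T f g

theorem coef {I : Type} [Fintype I] (z w : I → ℂ)
    (h1 : ∀ q, q ≤ n → ∑ i, w i * (starRingEnd ℂ) (z i) ^ q = 0)
    (h2 : ∀ p, p ≤ n → ∑ i, w i * z i ^ p = 0)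
    (h3 : ∑ i, w i * z i * (starRingEnd ℂ) (z i) = 1) (f g : Fin n → Fin n) :
    ∑ s : Fin n → I, (∏ a, w (s a)) * ((∏ i, z (s (f i))) * ∏ i, (starRingEnd ℂ) (z (s (g i)))) =
      if Function.Bijective f ∧ Function.Bijective g then 1 else 0 := by
  classical
  have h4 : ∀ s : Fin n → I, (∏ a, w (s a)) *
      ((∏ i, z (s (f i))) * ∏ i, (starRingEnd ℂ) (z (s (g i)))) =
      ∏ a, (w (s a) * z (s a) ^ (Finset.univ.filter fun i => f i = a).card *
        (starRingEnd ℂ) (z (s a)) ^ (Finset.univ.filter fun i => g i = a).card) := by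
    intro s
    rw [Finset.prod_mul_distrib, Finset.prod_mul_distrib, mul_assoc]
    congr 2
    · rw [← Finset.prod_fiberwise' (s := Finset.univ) (g := f) (f := fun a => z (s a))]
      refine Finset.prod_congr rfl fun a _ => ?_
      rw [Finset.prod_const]
    · rw [← Finset.prod_fiberwise' (s := Finset.univ) (g := g)
        (f := fun a => (starRingEnd ℂ) (z (s a)))]
      refine Finset.prod_congr rfl fun a _ => ?_
      rw [Finset.prod_const]
  rw [Finset.sum_congr rfl (fun s _ => h4 s)]
  have h5 := Finset.sum_prod_piFinset (Finset.univ : Finset I)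
    (fun (a : Fin n) (i : I) => w i * z i ^ (Finset.univ.filter fun j => f j = a).card *
        (starRingEnd ℂ) (z i) ^ (Finset.univ.filter fun j => g j = a).card)
  rw [Fintype.piFinset_univ] at h5
  rw [h5]
  have hcard : ∀ (f : Fin n → Fin n) (a : Fin n),
      (Finset.univ.filter fun j => f j = a).card ≤ n := by
    intro f a
    refine (Finset.card_le_univ _).trans ?_
    simp
  split_ifs with hb
  · refine Finset.prod_eq_one fun a _ => ?_
    have h6 : ∀ f : Fin n → Fin n, Function.Bijective f →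
        (Finset.univ.filter fun j => f j = a).card = 1 := by
      intro f hf
      rw [Finset.card_eq_one]
      obtain ⟨b, hb1, hb2⟩ := hf.existsUnique a
      refine ⟨b, ?_⟩
      ext j
      simp only [Finset.mem_filter, Finset.mem_univ, true_and, Finset.mem_singleton]
      exact ⟨fun h => hb2 j h, fun h => h ▸ hb1⟩
    rw [h6 f hb.1, h6 g hb.2]
    simpa using h3
  · rw [not_and_or] at hb
    rcases hb with hb | hb
    · have h7 : ¬ Function.Surjective f := fun h => hb (Finite.injective_iff_surjective.2 h |>.bijective_of_finite)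
      simp only [Function.Surjective, not_forall, not_exists] at h7
      obtain ⟨a, ha⟩ := h7
      refine Finset.prod_eq_zero (Finset.mem_univ a) ?_
      have h8 : (Finset.univ.filter fun j => f j = a).card = 0 := by
        rw [Finset.card_eq_zero, Finset.filter_eq_empty_iff]
        intro j _
        exact ha j
      rw [h8]
      simpa using h1 _ (hcard g a)
    · have h7 : ¬ Function.Surjective g := fun h => hb (Finite.injective_iff_surjective.2 h |>.bijective_of_finite)
      simp only [Function.Surjective, not_forall, not_exists] at h7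
      obtain ⟨a, ha⟩ := h7
      refine Finset.prod_eq_zero (Finset.mem_univ a) ?_
      have h8 : (Finset.univ.filter fun j => g j = a).card = 0 := by
        rw [Finset.card_eq_zero, Finset.filter_eq_empty_iff]
        intro j _
        exact ha j
      rw [h8]
      simpa using h2 _ (hcard f a)

theorem sum_bij {M : Type*} [AddCommMonoid M] (G : (Fin n → Fin n) → M) :
    (∑ f : Fin n → Fin n, open Classical in if Function.Bijective f then G f else 0) =
      ∑ τ : Equiv.Perm (Fin n), G τ := by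
  classical
  rw [← Finset.sum_filter]
  symm
  refine Finset.sum_bij (fun τ _ => (τ : Fin n → Fin n)) ?_ ?_ ?_ ?_
  · intro τ _
    simp only [Finset.mem_filter, Finset.mem_univ, true_and]
    exact τ.bijective
  · intro τ _ τ' _ h
    exact DFunLike.coe_injective h
  · intro f hf
    simp only [Finset.mem_filter, Finset.mem_univ, true_and] at hf
    exact ⟨Equiv.ofBijective f hf, Finset.mem_univ _, rfl⟩
  · intro τ _
    rfl

theorem perm_mem (T : (Fin n → Fin n) → (Fin n → Fin n) → F) :
    ∑ τ : Equiv.Perm (Fin n), ∑ τ' : Equiv.Perm (Fin n), T τ τ' ∈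
      Submodule.span ℂ (Set.range (val T)) := by
  classical
  obtain ⟨z, w, h1, h2, h3⟩ := moments n
  have h4 : ∑ s : Fin n → Option (Fin (n + 1)), (∏ a, w (s a)) • val T (fun a => z (s a)) =
      ∑ τ : Equiv.Perm (Fin n), ∑ τ' : Equiv.Perm (Fin n), T τ τ' := by
    have h5 : ∀ s : Fin n → Option (Fin (n + 1)), (∏ a, w (s a)) • val T (fun a => z (s a)) =
        ∑ f : Fin n → Fin n, ∑ g : Fin n → Fin n, ((∏ a, w (s a)) *
          ((∏ i, z (s (f i))) * ∏ i, (starRingEnd ℂ) (z (s (g i))))) • T f g := by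
      intro s
      rw [val, Finset.smul_sum]
      refine Finset.sum_congr rfl fun f _ => ?_
      rw [Finset.smul_sum]
      refine Finset.sum_congr rfl fun g _ => ?_
      rw [smul_smul]
    rw [Finset.sum_congr rfl (fun s _ => h5 s), Finset.sum_comm]
    have h6 : ∀ f : Fin n → Fin n, (∑ s : Fin n → Option (Fin (n + 1)), ∑ g : Fin n → Fin n,
        ((∏ a, w (s a)) *
          ((∏ i, z (s (f i))) * ∏ i, (starRingEnd ℂ) (z (s (g i))))) • T f g) =
        if Function.Bijective f then ∑ τ' : Equiv.Perm (Fin n), T f τ' else 0 := by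
      intro f
      rw [Finset.sum_comm]
      have h7 : ∀ g : Fin n → Fin n, (∑ s : Fin n → Option (Fin (n + 1)),
        ((∏ a, w (s a)) *
          ((∏ i, z (s (f i))) * ∏ i, (starRingEnd ℂ) (z (s (g i))))) • T f g) =
          if Function.Bijective g then (if Function.Bijective f then T f g else 0) else 0 := by
        intro g
        rw [← Finset.sum_smul, coef z w h1 h2 h3]
        by_cases hf : Function.Bijective f <;> by_cases hg : Function.Bijective g <;>
          simp only [hf, hg, and_true, true_and, false_and, and_false, if_true, if_false,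
            one_smul, zero_smul]
      rw [Finset.sum_congr rfl (fun g _ => h7 g)]
      have h8 := sum_bij (fun g => if Function.Bijective f then T f g else 0)
      refine (Eq.trans ?_ h8).trans ?_
      · rfl
      · by_cases hf : Function.Bijective f <;>
          simp only [hf, if_true, if_false, Finset.sum_const_zero]
    rw [Finset.sum_congr rfl (fun f _ => h6 f)]
    have h9 := sum_bij (fun f => ∑ τ' : Equiv.Perm (Fin n), T f τ')
    exact h9
  rw [← h4]
  refine Submodule.sum_mem _ fun s _ => Submodule.smul_mem _ _ (Submodule.subset_span ⟨_, rfl⟩)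

/-- push forward -/
theorem val_push (t : (Fin n → Fin n) → (Fin n → Fin n) → F) (k : Fin n → Fin n)
    (v : Fin n → ℂ) :
    val (fun f g => t (k ∘ f) (k ∘ g)) v =
      val t (fun j => ∑ a, if k a = j then v a else 0) := by
  classical
  have h1 : ∀ f : Fin n → Fin n, (∏ i, ∑ a, if k a = f i then v a else 0) =
      ∑ f' : Fin n → Fin n, if k ∘ f' = f then ∏ i, v (f' i) else 0 := by
    intro f
    have h5 := Finset.sum_prod_piFinset (Finset.univ : Finset (Fin n))
      (fun (i a : Fin n) => if k a = f i then v a else 0)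
    rw [Fintype.piFinset_univ] at h5
    rw [← h5]
    refine Finset.sum_congr rfl fun f' _ => ?_
    split_ifs with h
    · refine Finset.prod_congr rfl fun i _ => ?_
      exact if_pos (show k (f' i) = f i from congrFun h i)
    · have : ∃ i, k (f' i) ≠ f i := by
        by_contra hcon
        push Not at hcon
        exact h (funext hcon)
      obtain ⟨i, hi⟩ := this
      exact Finset.prod_eq_zero (Finset.mem_univ i) (if_neg hi)
  have h2 : ∀ f : Fin n → Fin n,
      (∏ i, (starRingEnd ℂ) (∑ a, if k a = f i then v a else 0)) =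
      ∑ f' : Fin n → Fin n, if k ∘ f' = f then ∏ i, (starRingEnd ℂ) (v (f' i)) else 0 := by
    intro f
    rw [← map_prod, h1, map_sum]
    refine Finset.sum_congr rfl fun f' _ => ?_
    split_ifs
    · rw [map_prod]
    · rw [map_zero]
  rw [val, val]
  simp only [h1, h2]
  symm
  have h3 : ∀ f g : Fin n → Fin n,
      ((∑ f' : Fin n → Fin n, if k ∘ f' = f then ∏ i, v (f' i) else 0) *
        ∑ g' : Fin n → Fin n, if k ∘ g' = g then ∏ i, (starRingEnd ℂ) (v (g' i)) else 0) • t f g =
      ∑ f' : Fin n → Fin n, ∑ g' : Fin n → Fin n,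
        if k ∘ f' = f then (if k ∘ g' = g then
          ((∏ i, v (f' i)) * ∏ i, (starRingEnd ℂ) (v (g' i))) • t f g else 0) else 0 := by
    intro f g
    rw [Finset.sum_mul_sum, Finset.sum_smul]
    refine Finset.sum_congr rfl fun f' _ => ?_
    rw [Finset.sum_smul]
    refine Finset.sum_congr rfl fun g' _ => ?_
    split_ifs <;> simp
  simp only [h3]
  have h4 : ∀ f : Fin n → Fin n, (∑ g : Fin n → Fin n, ∑ f' : Fin n → Fin n,
      ∑ g' : Fin n → Fin n, if k ∘ f' = f then (if k ∘ g' = g then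
          ((∏ i, v (f' i)) * ∏ i, (starRingEnd ℂ) (v (g' i))) • t f g else 0) else 0) =
      ∑ f' : Fin n → Fin n, if k ∘ f' = f then (∑ g' : Fin n → Fin n,
        ((∏ i, v (f' i)) * ∏ i, (starRingEnd ℂ) (v (g' i))) • t f (k ∘ g')) else 0 := by
    intro f
    rw [Finset.sum_comm]
    refine Finset.sum_congr rfl fun f' _ => ?_
    split_ifs with hf
    · rw [Finset.sum_comm]
      refine Finset.sum_congr rfl fun g' _ => ?_
      rw [Finset.sum_ite_eq Finset.univ (k ∘ g')]
      simp
    · simp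
  rw [Finset.sum_congr rfl (fun f _ => h4 f), Finset.sum_comm]
  refine Finset.sum_congr rfl fun f' _ => ?_
  rw [Finset.sum_ite_eq Finset.univ (k ∘ f')]
  simp

theorem main_mem (t : (Fin n → Fin n) → (Fin n → Fin n) → F) :
    ∑ σ : Equiv.Perm (Fin n), ∑ k : Fin n → Fin n, t k (k ∘ σ) ∈
      Submodule.span ℂ (Set.range (val t)) := by
  classical
  have h1 : ∀ k : Fin n → Fin n,
      ∑ τ : Equiv.Perm (Fin n), ∑ τ' : Equiv.Perm (Fin n), t (k ∘ τ) (k ∘ τ') ∈
        Submodule.span ℂ (Set.range (val t)) := by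
    intro k
    have h2 := perm_mem (fun f g => t (k ∘ f) (k ∘ g))
    refine (Submodule.span_mono ?_) h2
    rintro _ ⟨v, rfl⟩
    exact ⟨_, (val_push t k v).symm⟩
  have h2 : ∑ k : Fin n → Fin n, ∑ τ : Equiv.Perm (Fin n), ∑ τ' : Equiv.Perm (Fin n),
      t (k ∘ τ) (k ∘ τ') = ((Fintype.card (Equiv.Perm (Fin n)) : ℕ) : ℂ) •
        ∑ σ : Equiv.Perm (Fin n), ∑ k : Fin n → Fin n, t k (k ∘ σ) := by
    rw [Finset.sum_comm]
    have h3 : ∀ τ : Equiv.Perm (Fin n), (∑ k : Fin n → Fin n, ∑ τ' : Equiv.Perm (Fin n),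
        t (k ∘ τ) (k ∘ τ')) = ∑ σ : Equiv.Perm (Fin n), ∑ k : Fin n → Fin n, t k (k ∘ σ) := by
      intro τ
      rw [Finset.sum_comm]
      refine Fintype.sum_equiv (Equiv.mulLeft τ⁻¹) _ _ fun τ' => ?_
      refine Fintype.sum_equiv (Equiv.arrowCongr τ.symm (Equiv.refl (Fin n))) _ _ fun k => ?_
      have h5 : (Equiv.arrowCongr τ.symm (Equiv.refl (Fin n))) k = k ∘ τ := rfl
      rw [h5]
      congr 1
      funext i
      simp
    rw [Finset.sum_congr rfl (fun τ _ => h3 τ), Finset.sum_const, Finset.card_univ, Nat.cast_smul_eq_nsmul]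
  have h3 := Submodule.sum_mem (Submodule.span ℂ (Set.range (val t)))
    (t := Finset.univ) (fun k _ => h1 k)
  rw [h2] at h3
  have h4 : ((Fintype.card (Equiv.Perm (Fin n)) : ℕ) : ℂ) ≠ 0 := by
    exact_mod_cast Fintype.card_ne_zero
  exact (Submodule.smul_mem_iff _ h4).1 h3

end

end KAV2M

open KAV2M in
theorem hodgeTop_mem_span (n : ℕ) :
    hodgeTop n ∈ Submodule.span ℂ (Set.range (phiVec : (Fin n → ℂ) → Forms n)) := by
  classical
  obtain ⟨ε, hε⟩ := KAV2M.inter (V := PDual n) n
  let t : (Fin n → Fin n) → (Fin n → Fin n) → Forms n := fun k l =>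
    ε • ((ExteriorAlgebra.ιMulti ℂ n fun i => dz i (k i)) *
      (ExteriorAlgebra.ιMulti ℂ n fun i => dzb i (l i)))
  have h1 : (phiVec : (Fin n → ℂ) → Forms n) = KAV2M.val t := by
    funext u
    rw [phiVec, hε]
    have h2 : ExteriorAlgebra.ιMulti ℂ n (dzv u) = ∑ k : Fin n → Fin n,
        (∏ i, u (k i)) • ExteriorAlgebra.ιMulti ℂ n fun i => dz i (k i) := by
      have h3 : (dzv u : Fin n → PDual n) = fun i => ∑ j, u j • dz i j := rfl
      rw [h3]
      have h4 := (ExteriorAlgebra.ιMulti ℂ n (M := PDual n)).toMultilinearMap.map_sum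
        (fun (i : Fin n) (j : Fin n) => u j • dz i j)
      refine h4.trans ?_
      refine Finset.sum_congr rfl fun k _ => ?_
      exact (ExteriorAlgebra.ιMulti ℂ n (M := PDual n)).toMultilinearMap.map_smul_univ
        (fun i => u (k i)) (fun i => dz i (k i))
    have h2' : ExteriorAlgebra.ιMulti ℂ n (dzbv u) = ∑ k : Fin n → Fin n,
        (∏ i, (starRingEnd ℂ) (u (k i))) • ExteriorAlgebra.ιMulti ℂ n fun i => dzb i (k i) := by
      have h3 : (dzbv u : Fin n → PDual n) = fun i => ∑ j, (starRingEnd ℂ) (u j) • dzb i j := rfl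
      rw [h3]
      have h4 := (ExteriorAlgebra.ιMulti ℂ n (M := PDual n)).toMultilinearMap.map_sum
        (fun (i : Fin n) (j : Fin n) => (starRingEnd ℂ) (u j) • dzb i j)
      refine h4.trans ?_
      refine Finset.sum_congr rfl fun k _ => ?_
      exact (ExteriorAlgebra.ιMulti ℂ n (M := PDual n)).toMultilinearMap.map_smul_univ
        (fun i => (starRingEnd ℂ) (u (k i))) (fun i => dzb i (k i))
    rw [h2, h2', KAV2M.val, Finset.sum_mul_sum, Finset.smul_sum]
    refine Finset.sum_congr rfl fun k _ => ?_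
    rw [Finset.smul_sum]
    refine Finset.sum_congr rfl fun l _ => ?_
    rw [smul_mul_smul_comm, smul_comm]
  have h5 : hodgeTop n = ∑ σ : Equiv.Perm (Fin n), ∑ k : Fin n → Fin n, t k (k ∘ σ) := by
    simp only [hodgeTop, wi, wmul]
    refine Fintype.sum_equiv (Equiv.inv (Equiv.Perm (Fin n))) _ _ fun σ => ?_
    have h6 : (List.ofFn fun i : Fin n => ∑ k : Fin n, ι ℂ (dz i k) * ι ℂ (dzb (σ i) k)).prod =
        ∑ k : Fin n → Fin n, (List.ofFn fun i : Fin n =>
          ι ℂ (dz i (k i)) * ι ℂ (dzb (σ i) (k i))).prod := by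
      have h7 := (MultilinearMap.mkPiAlgebraFin ℂ n (Forms n)).map_sum
        (fun (i : Fin n) (k : Fin n) => ι ℂ (dz i k) * ι ℂ (dzb (σ i) k))
      simpa only [MultilinearMap.mkPiAlgebraFin_apply] using h7
    rw [h6, Finset.smul_sum]
    refine Finset.sum_congr rfl fun k _ => ?_
    rw [hε (fun i => dz i (k i)) (fun i => dzb (σ i) (k i))]
    have h8 := (ExteriorAlgebra.ιMulti ℂ n (M := PDual n)).map_perm
      (fun j => dzb j ((k ∘ (σ⁻¹ : Equiv.Perm (Fin n))) j)) σ
    have h9 : ((fun j => dzb j ((k ∘ (σ⁻¹ : Equiv.Perm (Fin n))) j)) ∘ σ : Fin n → PDual n) =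
        fun i => dzb (σ i) (k i) := by
      funext i
      simp
    rw [h9] at h8
    rw [h8]
    change _ = ε • (_ * _)
    rw [smul_comm]
    congr 1
    rw [mul_smul_comm]
    rcases Int.units_eq_one_or (Equiv.Perm.sign σ) with h | h
    · rw [h, Units.val_one, Int.cast_one, one_smul, one_smul]
      rfl
    · rw [h]
      simp only [Units.val_neg, Units.val_one, Int.cast_neg, Int.cast_one, neg_smul, one_smul,
        neg_neg, Units.neg_smul]
      rfl
  rw [h5, h1]
  exact KAV2M.main_mem t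

end MP_74a8fd_ag.HP
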