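import Pool.Agent.Lib.MP_74a8fd_ag.HP.Core2
import Pool.Agent.Lib.MP_74a8fd_ag.HP.Kav1
import Pool.Agent.Lib.MP_74a8fd_ag.HP.Kav2

/-! MP_74a8fd_ag: the mean formula. -/

open Matrix MeasureTheory Filter Topology

set_option linter.unusedSectionVars false

noncomputable section

namespace MP_74a8fd_ag.HP

variable {n : ℕ} {Γ : Subgroup (Sp n)} [DiscreteTopology Γ]
    [MeasurableSpace (Sp n ⧸ Γ)] [BorelSpace (Sp n ⧸ Γ)]
    {μ : Measure (Sp n ⧸ Γ)} [IsFiniteMeasure μ] [SMulInvariantMeasure (Sp n) (Sp n ⧸ Γ) μ]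
    {p q : ENNReal} [ENNReal.HolderConjugate p q]

theorem integral_smul_inv (g : Sp n) (F : Sp n ⧸ Γ → ℂ) (hF : AEStronglyMeasurable F μ) :
    ∫ x, F (g • x) ∂μ = ∫ x, F x ∂μ := by
  have hmp := measurePreserving_smul' (μ := μ) g
  have h := hmp.map_eq
  conv_rhs => rw [← h]
  rw [integral_map (continuous_const_smul g).measurable.aemeasurable]
  rw [h]
  exact hF

theorem dual_ext {x y : Forms n} (h : ∀ l : Forms n →ₗ[ℂ] ℂ, l x = l y) : x = y := by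
  rw [← sub_eq_zero]
  refine (Module.forall_dual_apply_eq_zero_iff ℂ (x - y)).1 (fun l => ?_)
  rw [map_sub, h l, sub_self]

theorem mean_invariant {φ : Sp n ⧸ Γ → Forms n} (hφ : IsClosedForm φ)
    {φ₀ : Forms n}
    (hφ₀ : ∀ l : Forms n →ₗ[ℂ] ℂ, ∫ x, l (φ x) ∂μ = (μ.real Set.univ : ℂ) * l φ₀)
    (hμ : (μ.real Set.univ : ℂ) ≠ 0) (κ : Matrix.unitaryGroup (Fin n) ℂ) :
    rho κ φ₀ = φ₀ := by
  refine dual_ext (fun l => mul_left_cancel₀ hμ ?_)
  have h1 := hφ₀ (l ∘ₗ (rho κ).toLinearMap)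
  have h2 : ∀ x, (l ∘ₗ (rho κ).toLinearMap) (φ x) = l (φ (kElt κ • x)) := by
    intro x
    rw [hφ.equivariant]
    rfl
  simp only [h2] at h1
  rw [integral_smul_inv (kElt κ) (fun x => l (φ x)) (hφ.continuous l).aestronglyMeasurable,
    hφ₀ l] at h1
  exact h1.symm

theorem mean_phiVec (hn : 0 < n) {φ η : Sp n ⧸ Γ → Forms n} (hφ : IsClosedForm φ)
    (hη : IsClosedForm η) (hφp : IsLp p μ φ) (hηq : IsLp q μ η) {φ₀ η₀ : Forms n}
    (hφ₀ : ∀ l : Forms n →ₗ[ℂ] ℂ, ∫ x, l (φ x) ∂μ = (μ.real Set.univ : ℂ) * l φ₀)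
    (hη₀ : ∀ l : Forms n →ₗ[ℂ] ℂ, ∫ x, l (η x) ∂μ = (μ.real Set.univ : ℂ) * l η₀)
    (u : Fin n → ℂ) (l : Forms n →ₗ[ℂ] ℂ) :
    ∫ x, l (phiVec u * φ x * η x) ∂μ = (μ.real Set.univ : ℂ) * l (phiVec u * φ₀ * η₀) := by
  by_cases hμ : (μ.real Set.univ : ℂ) = 0
  · have hμ0 : μ = 0 := by
      have : μ.real Set.univ = 0 := by exact_mod_cast hμ
      rw [measureReal_eq_zero_iff] at this
      exact Measure.measure_univ_eq_zero.1 this
    rw [hμ, zero_mul, hμ0]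
    simp
  obtain ⟨κ, c, hc⟩ := exists_phiVec_eq (⟨0, hn⟩ : Fin n) u
  set Φ : Forms n := phiVec (Pi.single (⟨0, hn⟩ : Fin n) 1) with hΦ
  have h1 := core_mean (⟨0, hn⟩ : Fin n) hφ hη hφp hηq hφ₀ hη₀ (c • (l ∘ₗ (rho κ).toLinearMap))
  rw [← hΦ] at h1
  have h2 : ∀ a b : Forms n, (c • (l ∘ₗ (rho κ).toLinearMap)) (Φ * a * b) =
      l (phiVec u * rho κ a * rho κ b) := by
    intro a b
    rw [hc]
    simp only [LinearMap.smul_apply, LinearMap.comp_apply, AlgHom.toLinearMap_apply, map_mul,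
      smul_mul_assoc, map_smul]
  simp only [h2] at h1
  rw [mean_invariant hφ hφ₀ hμ κ, mean_invariant hη hη₀ hμ κ] at h1
  rw [← h1]
  have hφe : ∀ x, rho κ (φ x) = φ (kElt κ • x) := fun x => (hφ.equivariant κ x).symm
  have hηe : ∀ x, rho κ (η x) = η (kElt κ • x) := fun x => (hη.equivariant κ x).symm
  simp only [hφe, hηe]
  refine (integral_smul_inv (kElt κ) (fun x => l (phiVec u * φ x * η x)) ?_).symm
  exact (bil_continuous (bil l (phiVec u)) hφ.continuous hη.continuous).aestronglyMeasurable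

theorem main (hn : 0 < n) {φ η : Sp n ⧸ Γ → Forms n} (hφ : IsClosedForm φ)
    (hη : IsClosedForm η) (hφp : IsLp p μ φ) (hηq : IsLp q μ η) {φ₀ η₀ : Forms n}
    (hφ₀ : ∀ l : Forms n →ₗ[ℂ] ℂ, ∫ x, l (φ x) ∂μ = (μ.real Set.univ : ℂ) * l φ₀)
    (hη₀ : ∀ l : Forms n →ₗ[ℂ] ℂ, ∫ x, l (η x) ∂μ = (μ.real Set.univ : ℂ) * l η₀)
    (l : Forms n →ₗ[ℂ] ℂ) :
    ∫ x, l (hodgeTop n * φ x * η x) ∂μ =
      (μ.real Set.univ : ℂ) * l (hodgeTop n * φ₀ * η₀) := by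
  have hint : ∀ w : Forms n, Integrable (fun x => l (w * φ x * η x)) μ := fun w =>
    bil_integrable (bil l w) hφp hηq
  have key : ∀ w ∈ Submodule.span ℂ (Set.range (phiVec : (Fin n → ℂ) → Forms n)),
      ∫ x, l (w * φ x * η x) ∂μ = (μ.real Set.univ : ℂ) * l (w * φ₀ * η₀) := by
    intro w hw
    induction hw using Submodule.span_induction with
    | mem w h =>
      obtain ⟨u, rfl⟩ := h
      exact mean_phiVec hn hφ hη hφp hηq hφ₀ hη₀ u l
    | zero => simp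
    | add a b _ _ ha hb =>
      simp only [add_mul, map_add]
      rw [integral_add (hint a) (hint b), ha, hb, mul_add]
    | smul c a _ ha =>
      simp only [smul_mul_assoc, map_smul, smul_eq_mul]
      rw [integral_const_mul, ha]
      ring
  exact key _ (hodgeTop_mem_span n)

end MP_74a8fd_ag.HP
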