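import Pool.Agent.Lib.MP_74a8fd_ag.HP.Defs2

/-! MP_74a8fd_ag: the two horospherical subgroups generate `Sp n`. -/

open Matrix MeasureTheory Filter Topology

noncomputable section

namespace MP_74a8fd_ag.HP

namespace GenAux

variable {n : ℕ}

/-- The symplectic form. -/
def gw (x y : Fin n ⊕ Fin n → ℝ) : ℝ := x ⬝ᵥ (Matrix.J (Fin n) ℝ *ᵥ y)

theorem gw_eq (x y : Fin n ⊕ Fin n → ℝ) :
    gw x y = ∑ i, (x (Sum.inr i) * y (Sum.inl i) - x (Sum.inl i) * y (Sum.inr i)) := by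
  unfold gw
  have h : Matrix.J (Fin n) ℝ *ᵥ y = Sum.elim (fun i => - y (Sum.inr i)) (fun i => y (Sum.inl i)) := by
    rw [Matrix.J, Matrix.fromBlocks_mulVec]
    ext i
    rcases i with i | i
    · simp [Matrix.neg_mulVec]
    · simp
  rw [h, dotProduct, Fintype.sum_sum_type]
  simp only [Sum.elim_inl, Sum.elim_inr]
  rw [← Finset.sum_add_distrib]
  exact Finset.sum_congr rfl fun i _ => by ring

theorem gw_add_left (x y z : Fin n ⊕ Fin n → ℝ) : gw (x + y) z = gw x z + gw y z := by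
  simp [gw, add_dotProduct]

theorem gw_add_right (x y z : Fin n ⊕ Fin n → ℝ) : gw x (y + z) = gw x y + gw x z := by
  simp [gw, Matrix.mulVec_add]

theorem gw_sub_left (x y z : Fin n ⊕ Fin n → ℝ) : gw (x - y) z = gw x z - gw y z := by
  simp [gw, sub_dotProduct]

theorem gw_sub_right (x y z : Fin n ⊕ Fin n → ℝ) : gw x (y - z) = gw x y - gw x z := by
  simp [gw, Matrix.mulVec_sub]

theorem gw_smul_left (c : ℝ) (x y : Fin n ⊕ Fin n → ℝ) : gw (c • x) y = c * gw x y := by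
  simp [gw]

theorem gw_smul_right (c : ℝ) (x y : Fin n ⊕ Fin n → ℝ) : gw x (c • y) = c * gw x y := by
  simp [gw, Matrix.mulVec_smul]

theorem gw_comm (x y : Fin n ⊕ Fin n → ℝ) : gw x y = - gw y x := by
  rw [gw_eq, gw_eq, ← Finset.sum_neg_distrib]
  exact Finset.sum_congr rfl fun i _ => by ring

theorem gw_self (x : Fin n ⊕ Fin n → ℝ) : gw x x = 0 := by
  have := gw_comm x x
  linarith

/-- The basis vectors. -/
def ev (i : Fin n) : Fin n ⊕ Fin n → ℝ := Pi.single (Sum.inl i) 1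

/-- The basis vectors. -/
def fv (i : Fin n) : Fin n ⊕ Fin n → ℝ := Pi.single (Sum.inr i) 1

theorem gw_ev (x : Fin n ⊕ Fin n → ℝ) (i : Fin n) : gw x (ev i) = x (Sum.inr i) := by
  rw [gw_eq, Finset.sum_eq_single i]
  · simp [ev]
  · intro b _ hb
    simp [ev, hb]
  · simp

theorem gw_fv (x : Fin n ⊕ Fin n → ℝ) (i : Fin n) : gw x (fv i) = - x (Sum.inl i) := by
  rw [gw_eq, Finset.sum_eq_single i]
  · simp [fv]
  · intro b _ hb
    simp [fv, hb]
  · simp

theorem ev_gw (x : Fin n ⊕ Fin n → ℝ) (i : Fin n) : gw (ev i) x = - x (Sum.inr i) := by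
  rw [gw_comm, gw_ev]

theorem fv_gw (x : Fin n ⊕ Fin n → ℝ) (i : Fin n) : gw (fv i) x = x (Sum.inl i) := by
  rw [gw_comm, gw_fv, neg_neg]

theorem ev_gw_fv (i : Fin n) : gw (ev i) (fv i) = -1 := by
  rw [ev_gw, fv]; simp

/-- The action on vectors. -/
def act (g : Sp n) (x : Fin n ⊕ Fin n → ℝ) : Fin n ⊕ Fin n → ℝ := (g : Matrix _ _ ℝ) *ᵥ x

theorem act_mul (g h : Sp n) (x : Fin n ⊕ Fin n → ℝ) : act (g * h) x = act g (act h x) := by
  simp [act, Matrix.mulVec_mulVec]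

theorem act_one (x : Fin n ⊕ Fin n → ℝ) : act (1 : Sp n) x = x := by
  simp [act]

theorem act_inv_act (g : Sp n) (x : Fin n ⊕ Fin n → ℝ) : act g⁻¹ (act g x) = x := by
  rw [← act_mul, inv_mul_cancel, act_one]

theorem act_act_inv (g : Sp n) (x : Fin n ⊕ Fin n → ℝ) : act g (act g⁻¹ x) = x := by
  rw [← act_mul, mul_inv_cancel, act_one]

theorem act_add (g : Sp n) (x y : Fin n ⊕ Fin n → ℝ) : act g (x + y) = act g x + act g y := by
  simp [act, Matrix.mulVec_add]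

theorem act_smul (g : Sp n) (c : ℝ) (x : Fin n ⊕ Fin n → ℝ) : act g (c • x) = c • act g x := by
  simp [act, Matrix.mulVec_smul]

theorem act_ext {g h : Sp n} (H : ∀ x, act g x = act h x) : g = h := by
  apply Subtype.ext
  apply Matrix.ext_of_mulVec_single
  intro i
  exact H _

theorem gw_act (g : Sp n) (x y : Fin n ⊕ Fin n → ℝ) : gw (act g x) (act g y) = gw x y := by
  have h : (g : Matrix _ _ ℝ)ᵀ * Matrix.J (Fin n) ℝ * (g : Matrix _ _ ℝ) = Matrix.J (Fin n) ℝ :=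
    SymplecticGroup.mem_iff'.1 g.2
  unfold gw act
  conv_rhs => rw [← h]
  rw [← Matrix.mulVec_mulVec, ← Matrix.mulVec_mulVec, Matrix.dotProduct_mulVec x,
    Matrix.vecMul_transpose]

/-- The matrix of a transvection. -/
def tvM (v : Fin n ⊕ Fin n → ℝ) (c : ℝ) : Matrix (Fin n ⊕ Fin n) (Fin n ⊕ Fin n) ℝ :=
  1 + c • vecMulVec v (v ᵥ* Matrix.J (Fin n) ℝ)

theorem tvM_mulVec (v : Fin n ⊕ Fin n → ℝ) (c : ℝ) (x : Fin n ⊕ Fin n → ℝ) :
    tvM v c *ᵥ x = x + (c * gw v x) • v := by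
  unfold tvM
  rw [Matrix.add_mulVec, Matrix.one_mulVec, Matrix.smul_mulVec, Matrix.vecMulVec_mulVec,
    ← Matrix.dotProduct_mulVec]
  change x + c • (MulOpposite.op (gw v x) • v) = _
  rw [op_smul_eq_smul, smul_smul]

theorem tvM_mem (v : Fin n ⊕ Fin n → ℝ) (c : ℝ) :
    tvM v c ∈ Matrix.symplecticGroup (Fin n) ℝ := by
  rw [SymplecticGroup.mem_iff']
  apply Matrix.ext_of_mulVec_single
  intro i
  ext j
  have key : ∀ x y : Fin n ⊕ Fin n → ℝ,
      x ⬝ᵥ (((tvM v c)ᵀ * Matrix.J (Fin n) ℝ * tvM v c) *ᵥ y) = x ⬝ᵥ (Matrix.J (Fin n) ℝ *ᵥ y) := by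
    intro x y
    rw [← Matrix.mulVec_mulVec, ← Matrix.mulVec_mulVec, Matrix.dotProduct_mulVec x,
      Matrix.vecMul_transpose, tvM_mulVec, tvM_mulVec]
    change gw _ _ = gw _ _
    rw [gw_add_left, gw_add_right, gw_add_right, gw_smul_left, gw_smul_left, gw_smul_right,
      gw_smul_right, gw_self, gw_comm x v]
    ring
  have := key (Pi.single j 1) (Pi.single i 1)
  rwa [single_one_dotProduct, single_one_dotProduct] at this

/-- The transvection. -/
def tv (v : Fin n ⊕ Fin n → ℝ) (c : ℝ) : Sp n := ⟨tvM v c, tvM_mem v c⟩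

theorem act_tv (v : Fin n ⊕ Fin n → ℝ) (c : ℝ) (x : Fin n ⊕ Fin n → ℝ) :
    act (tv v c) x = x + (c * gw v x) • v := tvM_mulVec v c x

theorem tv_zero (c : ℝ) : tv (0 : Fin n ⊕ Fin n → ℝ) c = 1 := by
  apply act_ext
  intro x
  rw [act_tv, act_one]; simp

theorem tv_zero_right (v : Fin n ⊕ Fin n → ℝ) : tv v 0 = 1 := by
  apply act_ext
  intro x
  rw [act_tv, act_one]; simp

theorem tv_mul_tv (v : Fin n ⊕ Fin n → ℝ) (c d : ℝ) : tv v c * tv v d = tv v (c + d) := by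
  apply act_ext
  intro x
  rw [act_mul, act_tv, act_tv, act_tv, gw_add_right, gw_smul_right, gw_self]
  ext i
  simp
  ring

theorem tv_inv (v : Fin n ⊕ Fin n → ℝ) (c : ℝ) : (tv v c)⁻¹ = tv v (-c) := by
  apply inv_eq_of_mul_eq_one_right
  rw [tv_mul_tv, add_neg_cancel, tv_zero_right]

theorem conj_tv (g : Sp n) (v : Fin n ⊕ Fin n → ℝ) (c : ℝ) :
    g * tv v c * g⁻¹ = tv (act g v) c := by
  apply act_ext
  intro x
  rw [act_mul, act_mul, act_tv, act_tv, act_add, act_smul, act_act_inv, ← gw_act g v,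
    act_act_inv]

theorem continuous_tv (c : ℝ) : Continuous fun v : Fin n ⊕ Fin n → ℝ => tv v c := by
  unfold tv
  apply Continuous.subtype_mk
  unfold tvM
  have h : Continuous fun v : Fin n ⊕ Fin n → ℝ =>
      vecMulVec v (v ᵥ* Matrix.J (Fin n) ℝ) :=
    Continuous.matrix_vecMulVec continuous_id
      (Continuous.matrix_vecMul continuous_id continuous_const)
  exact continuous_const.add (h.const_smul c)

/-! ### The diagonal element -/

/-- The diagonal element. -/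
def aE (o : Fin n) : Sp n := pExp (E 1 o o)

theorem aE_coe (o : Fin n) : ((aE o : Sp n) : Matrix (Fin n ⊕ Fin n) (Fin n ⊕ Fin n) ℝ) =
    Matrix.diagonal (Sum.elim (fun i => if i = o then Real.exp 1 else 1)
      (fun i => if i = o then Real.exp (-1) else 1)) := by
  have h : pMat ((E 1 o o : SymC n) : Matrix (Fin n) (Fin n) ℂ) =
      Matrix.diagonal (Sum.elim (fun i => if i = o then (1 : ℝ) else 0)
        (fun i => if i = o then (-1 : ℝ) else 0)) := by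
    unfold pMat E
    ext i j
    rcases i with i | i <;> rcases j with j | j
    · by_cases hi : i = o <;> by_cases hj : j = o <;> by_cases hij : i = j <;>
        simp_all [Matrix.diagonal]
    · by_cases hi : i = o <;> by_cases hj : j = o <;> simp_all [Matrix.diagonal]
    · by_cases hi : i = o <;> by_cases hj : j = o <;> simp_all [Matrix.diagonal]
    · by_cases hi : i = o <;> by_cases hj : j = o <;> by_cases hij : i = j <;>
        simp_all [Matrix.diagonal]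
  unfold aE pExp
  change NormedSpace.exp _ = _
  rw [h, Matrix.exp_diagonal]
  congr 1
  ext i
  rw [Pi.coe_exp, ← Real.exp_eq_exp_ℝ]
  rcases i with i | i
  · by_cases hi : i = o <;> simp [hi]
  · by_cases hi : i = o <;> simp [hi]

theorem act_aE (o : Fin n) (x : Fin n ⊕ Fin n → ℝ) : act (aE o) x =
    fun j => Sum.elim (fun i => if i = o then Real.exp 1 else 1)
      (fun i => if i = o then Real.exp (-1) else 1) j * x j := by
  unfold act
  rw [aE_coe]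
  ext j
  rw [Matrix.mulVec_diagonal]

theorem act_aE_e (o : Fin n) : act (aE o) (ev o) = Real.exp 1 • ev o := by
  rw [act_aE]
  ext j
  rcases j with j | j
  · by_cases hj : j = o <;> simp [ev, hj]
  · simp [ev]

theorem act_aE_f (o : Fin n) : act (aE o) (fv o) = Real.exp (-1) • fv o := by
  rw [act_aE]
  ext j
  rcases j with j | j
  · simp [fv]
  · by_cases hj : j = o <;> simp [fv, hj]

theorem act_aE_fix (o : Fin n) (v : Fin n ⊕ Fin n → ℝ) (h1 : v (Sum.inl o) = 0)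
    (h2 : v (Sum.inr o) = 0) : act (aE o) v = v := by
  rw [act_aE]
  ext j
  rcases j with j | j
  · by_cases hj : j = o
    · subst hj; simp [h1]
    · simp [hj]
  · by_cases hj : j = o
    · subst hj; simp [h2]
    · simp [hj]

theorem act_pow_f (o : Fin n) (k : ℕ) : act (aE o ^ k) (fv o) = Real.exp (-k) • fv o := by
  induction k with
  | zero => simp [act_one]
  | succ k ih =>
    rw [pow_succ', act_mul, ih, act_smul, act_aE_f, smul_smul, ← Real.exp_add]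
    congr 2
    push_cast
    ring

theorem act_pow_inv_e (o : Fin n) (k : ℕ) : act ((aE o ^ k)⁻¹) (ev o) = Real.exp (-k) • ev o := by
  have h : ∀ k : ℕ, act (aE o ^ k) (ev o) = Real.exp k • ev o := by
    intro k
    induction k with
    | zero => simp [act_one]
    | succ k ih =>
      rw [pow_succ', act_mul, ih, act_smul, act_aE_e, smul_smul, ← Real.exp_add]
      congr 2
      push_cast
      ring
  have h2 := act_inv_act (aE o ^ k) (ev o)
  rw [h k, act_smul] at h2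
  have h3 := congrArg (fun x => Real.exp (-(k : ℝ)) • x) h2
  simp only [smul_smul, ← Real.exp_add, neg_add_cancel, Real.exp_zero, one_smul] at h3
  exact h3

theorem act_pow_inv_fix (o : Fin n) (v : Fin n ⊕ Fin n → ℝ) (h1 : v (Sum.inl o) = 0)
    (h2 : v (Sum.inr o) = 0) (k : ℕ) : act ((aE o ^ k)⁻¹) v = v := by
  have h : ∀ k : ℕ, act (aE o ^ k) v = v := by
    intro k
    induction k with
    | zero => simp [act_one]
    | succ k ih => rw [pow_succ', act_mul, ih, act_aE_fix o v h1 h2]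
  have h2 := act_inv_act (aE o ^ k) v
  rwa [h k] at h2

theorem tendsto_exp_neg_nat : Tendsto (fun k : ℕ => Real.exp (-(k : ℝ))) atTop (𝓝 0) :=
  (Real.tendsto_exp_neg_atTop_nhds_zero).comp tendsto_natCast_atTop_atTop

/-! ### The elements of the subgroup -/

section S

variable (o : Fin n) (S : Subgroup (Sp n))

theorem tv_f_mem
    (h1 : ∀ u : Sp n, Tendsto (fun k : ℕ => (aE o) ^ k * u * ((aE o) ^ k)⁻¹)
      atTop (𝓝 1) → u ∈ S) (c : ℝ) : tv (fv o) c ∈ S := by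
  apply h1
  have : (fun k : ℕ => (aE o) ^ k * tv (fv o) c * ((aE o) ^ k)⁻¹) =
      fun k : ℕ => tv (Real.exp (-(k : ℝ)) • fv o) c := by
    ext1 k
    rw [conj_tv, act_pow_f]
  rw [this, ← tv_zero (n := n) c, ← zero_smul ℝ (fv o)]
  exact ((continuous_tv c).tendsto _).comp (tendsto_exp_neg_nat.smul_const (fv o))

theorem tv_e_mem
    (h2 : ∀ u : Sp n, Tendsto (fun k : ℕ => ((aE o) ^ k)⁻¹ * u * (aE o) ^ k)
      atTop (𝓝 1) → u ∈ S) (c : ℝ) : tv (ev o) c ∈ S := by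
  apply h2
  have : (fun k : ℕ => ((aE o) ^ k)⁻¹ * tv (ev o) c * (aE o) ^ k) =
      fun k : ℕ => tv (Real.exp (-(k : ℝ)) • ev o) c := by
    ext1 k
    rw [← act_pow_inv_e, ← conj_tv, inv_inv]
  rw [this, ← tv_zero (n := n) c, ← zero_smul ℝ (ev o)]
  exact ((continuous_tv c).tendsto _).comp (tendsto_exp_neg_nat.smul_const (ev o))

theorem tv_A_mem
    (h2 : ∀ u : Sp n, Tendsto (fun k : ℕ => ((aE o) ^ k)⁻¹ * u * (aE o) ^ k)
      atTop (𝓝 1) → u ∈ S) (v : Fin n ⊕ Fin n → ℝ) (hv1 : v (Sum.inl o) = 0)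
    (hv2 : v (Sum.inr o) = 0) (l : ℝ) : tv (l • ev o + v) 1 * (tv v 1)⁻¹ ∈ S := by
  apply h2
  have : (fun k : ℕ => ((aE o) ^ k)⁻¹ * (tv (l • ev o + v) 1 * (tv v 1)⁻¹) * (aE o) ^ k) =
      fun k : ℕ => tv (l • (Real.exp (-(k : ℝ)) • ev o) + v) 1 * (tv v 1)⁻¹ := by
    ext1 k
    have e1 : ((aE o) ^ k)⁻¹ * (tv (l • ev o + v) 1 * (tv v 1)⁻¹) * (aE o) ^ k =
      (((aE o) ^ k)⁻¹ * tv (l • ev o + v) 1 * (((aE o) ^ k)⁻¹)⁻¹) *
        (((aE o) ^ k)⁻¹ * tv v 1 * (((aE o) ^ k)⁻¹)⁻¹)⁻¹ := by group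
    rw [e1, conj_tv, conj_tv, act_add, act_smul, act_pow_inv_e, act_pow_inv_fix o v hv1 hv2]
  rw [this]
  have h3 : Tendsto (fun k : ℕ => tv (l • (Real.exp (-(k : ℝ)) • ev o) + v) 1) atTop
      (𝓝 (tv (l • ((0 : ℝ) • ev o) + v) 1)) :=
    ((continuous_tv 1).tendsto _).comp
      (((tendsto_exp_neg_nat.smul_const (ev o)).const_smul l).add_const v)
  have h4 := h3.mul_const ((tv v 1)⁻¹)
  rw [zero_smul, smul_zero, zero_add, mul_inv_cancel] at h4
  exact h4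

end S

/-! ### Transitivity -/

section T

variable {o : Fin n} {S : Subgroup (Sp n)}

/-- `x` is mapped to `y` by an element of `S`. -/
def Conn (S : Subgroup (Sp n)) (x y : Fin n ⊕ Fin n → ℝ) : Prop := ∃ g ∈ S, act g x = y

theorem Conn.trans {x y z : Fin n ⊕ Fin n → ℝ} (h1 : Conn S x y) (h2 : Conn S y z) :
    Conn S x z := by
  obtain ⟨g, hg, rfl⟩ := h1
  obtain ⟨h, hh, rfl⟩ := h2
  exact ⟨h * g, S.mul_mem hh hg, act_mul _ _ _⟩

theorem act_A (v x : Fin n ⊕ Fin n → ℝ) (hv2 : v (Sum.inr o) = 0) (l : ℝ) :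
    act (tv (l • ev o + v) 1 * (tv v 1)⁻¹) x =
      x + (l * (gw v x - l * x (Sum.inr o))) • ev o - (l * x (Sum.inr o)) • v := by
  rw [act_mul, tv_inv, act_tv, act_tv, gw_add_left, gw_smul_left, gw_add_right, gw_add_right,
    gw_smul_right, gw_smul_right, gw_self, ev_gw, ev_gw, hv2]
  ext j
  simp only [Pi.add_apply, Pi.smul_apply, Pi.sub_apply, smul_eq_mul]
  ring

theorem ev_inl (o : Fin n) : ev o (Sum.inl o) = 1 := by simp [ev]
theorem ev_inr (o i : Fin n) : ev o (Sum.inr i) = 0 := by simp [ev]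
theorem fv_inr (o : Fin n) : fv o (Sum.inr o) = 1 := by simp [fv]
theorem fv_inl (o i : Fin n) : fv o (Sum.inl i) = 0 := by simp [fv]

theorem conn_ab (he : ∀ c, tv (ev o) c ∈ S) (hf : ∀ c, tv (fv o) c ∈ S) (a b : ℝ)
    (hb : b ≠ 0) : Conn S (a • ev o + b • fv o) (ev o) := by
  refine Conn.trans (y := ev o + b • fv o) ⟨_, he ((a - 1) / b), ?_⟩ ⟨_, hf (-b), ?_⟩
  · rw [act_tv, ev_gw]
    ext j
    simp only [Pi.add_apply, Pi.smul_apply, smul_eq_mul, ev_inr, fv_inr]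
    field_simp
    ring
  · rw [act_tv, fv_gw]
    ext j
    simp only [Pi.add_apply, Pi.smul_apply, smul_eq_mul, ev_inl, fv_inl]
    ring

theorem conn_case1 (he : ∀ c, tv (ev o) c ∈ S) (hf : ∀ c, tv (fv o) c ∈ S)
    (hA : ∀ v : Fin n ⊕ Fin n → ℝ, v (Sum.inl o) = 0 → v (Sum.inr o) = 0 → ∀ l : ℝ,
      tv (l • ev o + v) 1 * (tv v 1)⁻¹ ∈ S) (u : Fin n ⊕ Fin n → ℝ)
    (hu : u (Sum.inr o) ≠ 0) : Conn S u (ev o) := by
  obtain ⟨b, hb⟩ : ∃ b, b = u (Sum.inr o) := ⟨_, rfl⟩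
  obtain ⟨a, ha⟩ : ∃ a, a = u (Sum.inl o) := ⟨_, rfl⟩
  obtain ⟨v, hv⟩ : ∃ v : Fin n ⊕ Fin n → ℝ, v = u - a • ev o - b • fv o := ⟨_, rfl⟩
  have hv1 : v (Sum.inl o) = 0 := by
    simp [hv, ev_inl, fv_inl, ha]
  have hv2 : v (Sum.inr o) = 0 := by
    simp [hv, ev_inr, fv_inr, hb]
  rw [← hb] at hu
  refine Conn.trans (y := (a + b⁻¹ * (gw v u - 1)) • ev o + b • fv o)
    ⟨_, hA v hv1 hv2 b⁻¹, ?_⟩ (conn_ab he hf _ b hu)
  rw [act_A v u hv2, ← hb, inv_mul_cancel₀ hu, hv]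
  ext j
  simp only [Pi.add_apply, Pi.smul_apply, Pi.sub_apply, smul_eq_mul]
  ring

theorem conn_all (he : ∀ c, tv (ev o) c ∈ S) (hf : ∀ c, tv (fv o) c ∈ S)
    (hA : ∀ v : Fin n ⊕ Fin n → ℝ, v (Sum.inl o) = 0 → v (Sum.inr o) = 0 → ∀ l : ℝ,
      tv (l • ev o + v) 1 * (tv v 1)⁻¹ ∈ S) (u : Fin n ⊕ Fin n → ℝ)
    (hu : u ≠ 0) : Conn S u (ev o) := by
  have c2 : ∀ u : Fin n ⊕ Fin n → ℝ, u (Sum.inl o) ≠ 0 → Conn S u (ev o) := by
    intro u hu
    by_cases hb : u (Sum.inr o) = 0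
    · refine Conn.trans (y := act (tv (fv o) 1) u) ⟨_, hf 1, rfl⟩ (conn_case1 he hf hA _ ?_)
      rw [act_tv, fv_gw]
      simp only [Pi.add_apply, Pi.smul_apply, smul_eq_mul, fv_inr, hb]
      simpa using hu
    · exact conn_case1 he hf hA _ hb
  by_cases ha : u (Sum.inl o) = 0
  swap
  · exact c2 u ha
  by_cases hb : u (Sum.inr o) = 0
  swap
  · exact conn_case1 he hf hA _ hb
  obtain ⟨v, hv1, hv2, hv3⟩ : ∃ v : Fin n ⊕ Fin n → ℝ, v (Sum.inl o) = 0 ∧
      v (Sum.inr o) = 0 ∧ gw v u ≠ 0 := by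
    obtain ⟨j, hj⟩ := Function.ne_iff.1 hu
    rcases j with j | j
    · have hjo : o ≠ j := by rintro rfl; exact hj ha
      refine ⟨fv j, fv_inl _ _, ?_, ?_⟩
      · simp [fv, hjo]
      · rw [fv_gw]; exact hj
    · have hjo : o ≠ j := by rintro rfl; exact hj hb
      refine ⟨ev j, ?_, ev_inr _ _, ?_⟩
      · simp [ev, hjo]
      · rw [ev_gw]; exact neg_ne_zero.2 hj
  refine Conn.trans (y := u + gw v u • ev o) ⟨_, hA v hv1 hv2 1, ?_⟩ (c2 _ ?_)
  · rw [act_A v u hv2, hb]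
    ext j
    simp only [Pi.add_apply, Pi.smul_apply, Pi.sub_apply, smul_eq_mul]
    ring
  · simp only [Pi.add_apply, Pi.smul_apply, smul_eq_mul, ev_inl, ha]
    simpa using hv3

theorem tv_mem_all (he : ∀ c, tv (ev o) c ∈ S) (hf : ∀ c, tv (fv o) c ∈ S)
    (hA : ∀ v : Fin n ⊕ Fin n → ℝ, v (Sum.inl o) = 0 → v (Sum.inr o) = 0 → ∀ l : ℝ,
      tv (l • ev o + v) 1 * (tv v 1)⁻¹ ∈ S) (u : Fin n ⊕ Fin n → ℝ) (c : ℝ) : tv u c ∈ S := by
  by_cases hu : u = 0
  · rw [hu, tv_zero]; exact S.one_mem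
  obtain ⟨g, hg, hgu⟩ := conn_all he hf hA u hu
  have h1 : tv u c = g⁻¹ * tv (ev o) c * g := by
    rw [← hgu, ← conj_tv]; group
  rw [h1]
  exact S.mul_mem (S.mul_mem (S.inv_mem hg) (he c)) hg

end T

/-! ### Transvections generate -/

section G

variable {S : Subgroup (Sp n)} (hS : ∀ (u : Fin n ⊕ Fin n → ℝ) (c : ℝ), tv u c ∈ S)

/-- The elements which fix the basis vectors with index in `I`. -/
def Fx (I : Finset (Fin n)) : Subgroup (Sp n) where
  carrier := {g | ∀ i ∈ I, act g (ev i) = ev i ∧ act g (fv i) = fv i}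
  mul_mem' := by
    intro g h hg hh i hi
    rw [act_mul, act_mul, (hh i hi).1, (hh i hi).2]
    exact hg i hi
  one_mem' := by
    intro i _
    exact ⟨act_one _, act_one _⟩
  inv_mem' := by
    intro g hg i hi
    constructor
    · conv_lhs => rw [← (hg i hi).1]
      exact act_inv_act _ _
    · conv_lhs => rw [← (hg i hi).2]
      exact act_inv_act _ _

theorem mem_Fx {I : Finset (Fin n)} {g : Sp n} :
    g ∈ Fx I ↔ ∀ i ∈ I, act g (ev i) = ev i ∧ act g (fv i) = fv i := Iff.rfl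

/-- The orthogonal complement of the basis vectors with index in `I`. -/
def VI (I : Finset (Fin n)) (x : Fin n ⊕ Fin n → ℝ) : Prop :=
  ∀ i ∈ I, gw x (ev i) = 0 ∧ gw x (fv i) = 0

theorem VI.add {I : Finset (Fin n)} {x y : Fin n ⊕ Fin n → ℝ} (hx : VI I x) (hy : VI I y) :
    VI I (x + y) := by
  intro i hi
  rw [gw_add_left, gw_add_left, (hx i hi).1, (hx i hi).2, (hy i hi).1, (hy i hi).2]
  simp

theorem VI.sub {I : Finset (Fin n)} {x y : Fin n ⊕ Fin n → ℝ} (hx : VI I x) (hy : VI I y) :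
    VI I (x - y) := by
  intro i hi
  rw [gw_sub_left, gw_sub_left, (hx i hi).1, (hx i hi).2, (hy i hi).1, (hy i hi).2]
  simp

theorem VI.act {I : Finset (Fin n)} {x : Fin n ⊕ Fin n → ℝ} (hx : VI I x) {g : Sp n}
    (hg : g ∈ Fx I) : VI I (act g x) := by
  intro i hi
  have h1 := gw_act g x (ev i)
  have h2 := gw_act g x (fv i)
  rw [(hg i hi).1] at h1
  rw [(hg i hi).2] at h2
  rw [h1, h2]
  exact hx i hi

theorem tv_mem_Fx {I : Finset (Fin n)} {v : Fin n ⊕ Fin n → ℝ} (hv : VI I v) (c : ℝ) :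
    tv v c ∈ Fx I := by
  intro i hi
  rw [act_tv, act_tv, (hv i hi).1, (hv i hi).2]
  simp

theorem VI.ev {I : Finset (Fin n)} {j : Fin n} (hj : j ∉ I) : VI I (ev j) := by
  intro i hi
  have hij : i ≠ j := by rintro rfl; exact hj hi
  rw [gw_ev, gw_fv, ev_inr]
  simp [GenAux.ev, hij]

theorem VI.fv {I : Finset (Fin n)} {j : Fin n} (hj : j ∉ I) : VI I (fv j) := by
  intro i hi
  have hij : i ≠ j := by rintro rfl; exact hj hi
  rw [gw_ev, gw_fv, fv_inl]
  simp [GenAux.fv, hij]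

theorem move_one {x y : Fin n ⊕ Fin n → ℝ} (h : gw y x ≠ 0) :
    act (tv (y - x) (gw y x)⁻¹) x = y := by
  rw [act_tv, gw_sub_left, gw_self, sub_zero, inv_mul_cancel₀ h, one_smul]
  simp

include hS in
theorem move_VI {I : Finset (Fin n)} {x y : Fin n ⊕ Fin n → ℝ} (hx : VI I x) (hy : VI I y)
    (hx' : ∃ z, VI I z ∧ gw x z ≠ 0) (hy' : ∃ z, VI I z ∧ gw y z ≠ 0) :
    ∃ g ∈ S ⊓ Fx I, act g x = y := by
  have one : ∀ x y : Fin n ⊕ Fin n → ℝ, VI I x → VI I y → gw y x ≠ 0 →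
      ∃ g ∈ S ⊓ Fx I, act g x = y := fun x y hx hy h =>
    ⟨_, ⟨hS _ _, tv_mem_Fx (hy.sub hx) _⟩, move_one h⟩
  obtain ⟨z, hz, h1, h2⟩ : ∃ z, VI I z ∧ gw x z ≠ 0 ∧ gw y z ≠ 0 := by
    obtain ⟨z1, hz1, h1⟩ := hx'
    obtain ⟨z2, hz2, h2⟩ := hy'
    by_cases h3 : gw y z1 = 0
    swap
    · exact ⟨z1, hz1, h1, h3⟩
    by_cases h4 : gw x z2 = 0
    swap
    · exact ⟨z2, hz2, h4, h2⟩
    refine ⟨z1 + z2, hz1.add hz2, ?_, ?_⟩
    · rw [gw_add_right, h4, add_zero]; exact h1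
    · rw [gw_add_right, h3, zero_add]; exact h2
  have h1' : gw z x ≠ 0 := by rw [gw_comm]; exact neg_ne_zero.2 h1
  obtain ⟨g, hg, hgx⟩ := one x z hx hz h1'
  obtain ⟨h, hh, hhz⟩ := one z y hz hy h2
  exact ⟨h * g, (S ⊓ Fx I).mul_mem hh hg, by rw [act_mul, hgx, hhz]⟩

theorem mem_of_fix_all {g : Sp n} (h : g ∈ Fx (Finset.univ : Finset (Fin n))) : g = 1 := by
  apply Subtype.ext
  apply Matrix.ext_of_mulVec_single
  intro i
  rcases i with i | i
  · have := (h i (Finset.mem_univ i)).1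
    unfold act ev at this
    rw [this]
    exact (Matrix.one_mulVec _).symm
  · have := (h i (Finset.mem_univ i)).2
    unfold act fv at this
    rw [this]
    exact (Matrix.one_mulVec _).symm

include hS in
theorem Fx_le_step {I : Finset (Fin n)} {j : Fin n} (hj : j ∉ I) (h : Fx (insert j I) ≤ S) :
    Fx I ≤ S := by
  intro g hg
  have hye : VI I (act g (ev j)) := (VI.ev hj).act hg
  obtain ⟨h1, hh1, hh1e⟩ := move_VI hS hye (VI.ev hj)
    ⟨act g (fv j), (VI.fv hj).act hg, by rw [gw_act, ev_gw_fv]; norm_num⟩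
    ⟨fv j, VI.fv hj, by rw [ev_gw_fv]; norm_num⟩
  have key : ∀ f' : Fin n ⊕ Fin n → ℝ, VI I f' → gw (ev j) f' = -1 →
      ∃ h ∈ S ⊓ Fx I, act h (ev j) = ev j ∧ act h f' = fv j := by
    have k1 : ∀ f' : Fin n ⊕ Fin n → ℝ, VI I f' → gw (ev j) f' = -1 → gw (fv j) f' ≠ 0 →
        ∃ h ∈ S ⊓ Fx I, act h (ev j) = ev j ∧ act h f' = fv j := by
      intro f' hf' h1 h2
      refine ⟨_, ⟨hS _ _, tv_mem_Fx ((VI.fv hj).sub hf') _⟩, ?_, move_one h2⟩
      rw [act_tv, gw_sub_left, gw_comm _ (ev j), gw_comm _ (ev j), ev_gw_fv, h1]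
      simp
    intro f' hf' h1
    by_cases h2 : gw (fv j) f' = 0
    swap
    · exact k1 f' hf' h1 h2
    obtain ⟨h, hh, h3, h4⟩ := k1 (f' - ev j) (hf'.sub (VI.ev hj))
      (by rw [gw_sub_right, h1, gw_self, sub_zero])
      (by rw [gw_sub_right, h2, gw_comm, ev_gw_fv]; norm_num)
    have h5 : tv (ev j) 1 ∈ S ⊓ Fx I := ⟨hS _ _, tv_mem_Fx (VI.ev hj) _⟩
    refine ⟨h * tv (ev j) 1, (S ⊓ Fx I).mul_mem hh h5, ?_, ?_⟩
    · rw [act_mul, act_tv, gw_self]
      simpa using h3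
    · rw [act_mul, act_tv, h1, ← h4]
      congr 1
      rw [one_mul, neg_one_smul, ← sub_eq_add_neg]
  obtain ⟨h2, hh2, h2e, h2f⟩ := key (act h1 (act g (fv j)))
    (((VI.fv hj).act hg).act hh1.2) (by
      have := gw_act h1 (act g (ev j)) (act g (fv j))
      rw [hh1e, gw_act, ev_gw_fv] at this
      exact this)
  have h3 : h2 * (h1 * g) ∈ Fx (insert j I) := by
    intro i hi
    rw [Finset.mem_insert] at hi
    rcases hi with rfl | hi
    · rw [act_mul, act_mul, act_mul, act_mul, hh1e, h2e, h2f]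
      exact ⟨rfl, rfl⟩
    · exact ((Fx I).mul_mem hh2.2 ((Fx I).mul_mem hh1.2 hg)) i hi
  have h4 : g = h1⁻¹ * (h2⁻¹ * (h2 * (h1 * g))) := by group
  rw [h4]
  exact S.mul_mem (S.inv_mem hh1.1) (S.mul_mem (S.inv_mem hh2.1) (h h3))

include hS in
theorem Fx_le (I : Finset (Fin n)) : Fx Iᶜ ≤ S := by
  induction I using Finset.induction_on with
  | empty =>
    intro g hg
    rw [Finset.compl_empty] at hg
    rw [mem_of_fix_all hg]
    exact S.one_mem
  | insert j I hj ih =>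
    apply Fx_le_step hS (j := j) (by simp)
    rwa [Finset.compl_insert, Finset.insert_erase (by simpa using hj)]

include hS in
theorem eq_top_of_tv : S = ⊤ := by
  rw [eq_top_iff]
  intro g _
  apply Fx_le hS Finset.univ
  rw [Finset.compl_univ]
  intro i hi
  exact absurd hi (Finset.notMem_empty i)

end G

end GenAux

open GenAux in
theorem gen_top {n : ℕ} (o : Fin n) (S : Subgroup (Sp n))
    (h1 : ∀ u : Sp n, Tendsto (fun k : ℕ => (pExp (E 1 o o)) ^ k * u * ((pExp (E 1 o o)) ^ k)⁻¹)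
      atTop (𝓝 1) → u ∈ S)
    (h2 : ∀ u : Sp n, Tendsto (fun k : ℕ => ((pExp (E 1 o o)) ^ k)⁻¹ * u * (pExp (E 1 o o)) ^ k)
      atTop (𝓝 1) → u ∈ S) : S = ⊤ :=
  eq_top_of_tv (tv_mem_all (o := o) (tv_e_mem o S h2) (tv_f_mem o S h1)
    (fun v hv1 hv2 l => tv_A_mem o S h2 v hv1 hv2 l))

end MP_74a8fd_ag.HP
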