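import Pool.Agent.Lib.MP_74a8fd_ag.HP.Alg

/-! MP_74a8fd_ag: `U(n)`-invariant forms have even degree. -/

open Matrix

noncomputable section

namespace MP_74a8fd_ag.HP

open ExteriorAlgebra (ι)

/-- the scalar matrix `i` in `U(n)`. -/
def iElt (n : ℕ) : Matrix.unitaryGroup (Fin n) ℂ :=
  ⟨Complex.I • (1 : Matrix (Fin n) (Fin n) ℂ), by
    rw [Matrix.mem_unitaryGroup_iff]
    rw [star_smul, star_one, Matrix.smul_mul, Matrix.mul_smul, Matrix.one_mul, smul_smul]
    simp⟩

theorem rhoLin_iElt {n : ℕ} (ω : PDual n) : rhoLin (iElt n) ω = -ω := by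
  refine LinearMap.ext (fun Z => ?_)
  have h : adInv (iElt n) Z = -Z := by
    apply Subtype.ext
    change star (Complex.I • (1 : Matrix (Fin n) (Fin n) ℂ)) * (Z : Matrix (Fin n) (Fin n) ℂ) *
      (star (Complex.I • (1 : Matrix (Fin n) (Fin n) ℂ)))ᵀ = -(Z : Matrix (Fin n) (Fin n) ℂ)
    rw [star_smul, star_one, Matrix.transpose_smul, Matrix.transpose_one, Matrix.smul_mul,
      Matrix.one_mul, Matrix.mul_smul, Matrix.mul_one, smul_smul]
    simp
  change ω (adInv (iElt n) Z) = -(ω Z)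
  rw [h, map_neg]

theorem rho_iElt {n : ℕ} (a : Forms n) : rho (iElt n) a = CliffordAlgebra.involute a := by
  have h : rho (iElt n) = CliffordAlgebra.involute := by
    apply ExteriorAlgebra.hom_ext
    ext ω
    change rho (iElt n) (ι ℂ ω) = CliffordAlgebra.involute (ι ℂ ω)
    rw [show CliffordAlgebra.involute (ι ℂ ω) = -ι ℂ ω from CliffordAlgebra.involute_ι ω]
    rw [rho, ExteriorAlgebra.map_apply_ι, rhoLin_iElt, map_neg]
  rw [h]

theorem involute_of_inv {n : ℕ} {γ : Forms n}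
    (h : ∀ κ : Matrix.unitaryGroup (Fin n) ℂ, rho κ γ = γ) :
    CliffordAlgebra.involute γ = γ := by
  rw [← rho_iElt, h]

theorem mul_comm_of_inv {n : ℕ} {γ : Forms n}
    (h : ∀ κ : Matrix.unitaryGroup (Fin n) ℂ, rho κ γ = γ) (b : Forms n) :
    γ * b = b * γ := by
  induction b using ExteriorAlgebra.induction with
  | algebraMap r => exact (Algebra.commutes r _).symm
  | ι x => rw [ι_mul_comm, involute_of_inv h]
  | mul a b ha hb => rw [← mul_assoc, ha, mul_assoc, hb, mul_assoc]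
  | add a b ha hb => rw [mul_add, add_mul, ha, hb]

end MP_74a8fd_ag.HP
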