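import Pool.Agent.Lib.MP_74a8fd_ag.HP.Stk
import Pool.Agent.Lib.MP_74a8fd_ag.HP.Final
import Pool.Agent.Lib.MP_74a8fd_ag.HP.Kinv

/-! MP_74a8fd_ag: the formula for all forms cohomologous to the form `hodgeTop`. -/

open Matrix MeasureTheory Filter Topology

set_option linter.unusedSectionVars false

noncomputable section

namespace MP_74a8fd_ag.HP

open ExteriorAlgebra (ι)

variable {n : ℕ} {Γ : Subgroup (Sp n)} [DiscreteTopology Γ]
    [MeasurableSpace (Sp n ⧸ Γ)] [BorelSpace (Sp n ⧸ Γ)]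
    {μ : Measure (Sp n ⧸ Γ)} [IsFiniteMeasure μ] [SMulInvariantMeasure (Sp n) (Sp n ⧸ Γ) μ]
    {p q : ENNReal} [ENNReal.HolderConjugate p q]

theorem IsC1Form.isC1 {φ : Sp n ⧸ Γ → Forms n} {D : SymC n → Sp n ⧸ Γ → Forms n}
    (h : IsC1Form φ D) : IsC1 φ D :=
  ⟨h.continuous, h.continuous_deriv, h.hasDeriv⟩

theorem isC1_const (γ : Forms n) :
    IsC1 (Γ := Γ) (fun _ => γ) (fun _ _ => 0) where
  cont := fun _ => continuous_const
  cont' := fun _ _ => continuous_const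
  deriv := fun Z l x => by
    simp only [map_zero]
    exact hasDerivAt_const _ _

theorem extD_zero : extD (fun _ : SymC n => (0 : Forms n)) = 0 := by
  unfold extD wmul
  simp

theorem isExtDeriv_const {γ : Forms n} (h : ∀ κ, rho κ γ = γ) :
    IsClosedForm (Γ := Γ) (fun _ => γ) :=
  ⟨fun _ _ => 0, ⟨fun κ _ => (h κ).symm, (isC1_const γ).cont, (isC1_const γ).cont',
    (isC1_const γ).deriv⟩, fun _ => extD_zero⟩

/-- integrability of a product of three forms, the first one bounded. -/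
theorem tri_integrable {β φ η : Sp n ⧸ Γ → Forms n}
    (hβ : ∀ l : Forms n →ₗ[ℂ] ℂ, MemLp (fun x => l (β x)) ⊤ μ)
    (hφ : ∀ l : Forms n →ₗ[ℂ] ℂ, MemLp (fun x => l (φ x)) p μ)
    (hη : ∀ l : Forms n →ₗ[ℂ] ℂ, MemLp (fun x => l (η x)) q μ) (l : Forms n →ₗ[ℂ] ℂ) :
    Integrable (fun x => l (β x * φ x * η x)) μ := by
  set B := Module.finBasis ℂ (Forms n) with hB
  have h1 : ∀ x, l (β x * φ x * η x) = ∑ i, B.coord i (β x) * l (B i * φ x * η x) := by
    intro x
    conv_lhs => rw [← B.sum_repr (β x)]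
    rw [Finset.sum_mul, Finset.sum_mul, map_sum]
    refine Finset.sum_congr rfl fun i _ => ?_
    rw [smul_mul_assoc, smul_mul_assoc, map_smul, smul_eq_mul]
    rfl
  simp only [h1]
  refine integrable_finsetSum _ fun i _ => ?_
  have h2 : Integrable (fun x => l (B i * φ x * η x)) μ := bil_integrable (bil l (B i)) hφ hη
  exact (hβ (B.coord i)).integrable_mul (memLp_one_iff_integrable.2 h2)

theorem lambda_eq {ω φ η : Sp n ⧸ Γ → Forms n} (hω : IsLambdaForm μ ω) (hφ : IsClosedForm φ)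
    (hη : IsClosedForm η) (hφp : IsLp p μ φ) (hηq : IsLp q μ η) (l : Forms n →ₗ[ℂ] ℂ) :
    ∫ x, l (ω x * φ x * η x) ∂μ = ∫ x, l (hodgeTop n * φ x * η x) ∂μ := by
  obtain ⟨hωb, β, θ, hβb, ⟨Dβ, hβ, hθ⟩, hωθ⟩ := hω
  obtain ⟨D, hD, hD0⟩ := hφ
  obtain ⟨D', hD', hD0'⟩ := hη
  have hF := (hβ.isC1.mul hD.isC1).mul hD'.isC1
  have hext : ∀ x, extD (fun Z => (Dβ Z x * φ x + β x * D Z x) * η x + β x * φ x * D' Z x) =
      θ x * φ x * η x := by
    intro x
    rw [extD_mul (β x * φ x) (η x) (fun Z => Dβ Z x * φ x + β x * D Z x) (fun Z => D' Z x),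
      extD_mul (β x) (φ x) (fun Z => Dβ Z x) (fun Z => D Z x), hθ, hD0, hD0', mul_zero, mul_zero,
      add_zero, add_zero]
  have hi : ∀ l : Forms n →ₗ[ℂ] ℂ, Integrable (fun x => l (β x * φ x * η x)) μ :=
    tri_integrable hβb hφp hηq
  have i1 : Integrable (fun x => l (ω x * φ x * η x)) μ := tri_integrable hωb hφp hηq l
  have i2 : Integrable (fun x => l (hodgeTop n * φ x * η x)) μ :=
    bil_integrable (bil l (hodgeTop n)) hφp hηq
  have hsub : ∀ x, l (θ x * φ x * η x) = l (ω x * φ x * η x) - l (hodgeTop n * φ x * η x) := by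
    intro x
    rw [hωθ x, add_mul, add_mul, map_add, add_sub_cancel_left]
  have hI : Integrable (fun x => l (extD fun Z =>
      (Dβ Z x * φ x + β x * D Z x) * η x + β x * φ x * D' Z x)) μ := by
    simp only [hext, hsub]
    exact i1.sub i2
  have h0 := stokes hF hi l hI
  simp only [hext, hsub] at h0
  rw [integral_sub i1 i2] at h0
  exact sub_eq_zero.1 h0

theorem integrable_of_compact {a b : Sp n ⧸ Γ → Forms n}
    (ha : ∀ l : Forms n →ₗ[ℂ] ℂ, Continuous fun x => l (a x)) (hac : HasCompactSupport a)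
    (hb : ∀ l : Forms n →ₗ[ℂ] ℂ, Continuous fun x => l (b x)) (l : Forms n →ₗ[ℂ] ℂ) :
    Integrable (fun x => l (a x * b x)) μ := by
  have h1 : Continuous fun x => l (a x * b x) := by
    have := bil_continuous (bil l 1) ha hb
    simpa only [bil_apply, one_mul] using this
  refine h1.integrable_of_hasCompactSupport (hac.mono' ?_)
  intro x hx
  refine subset_tsupport _ ?_
  intro h0
  apply hx
  change l (a x * b x) = 0
  rw [h0, zero_mul, map_zero]

theorem continuous_extD {F : Sp n ⧸ Γ → Forms n} {D : SymC n → Sp n ⧸ Γ → Forms n}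
    (hF : IsC1 F D) (l : Forms n →ₗ[ℂ] ℂ) : Continuous fun x => l (extD fun Z => D Z x) := by
  unfold extD wmul wi
  simp only [map_sum]
  refine continuous_finsetSum _ fun i _ => continuous_finsetSum _ fun j _ => ?_
  by_cases hij : i ≤ j
  · simp only [hij, if_true, map_add]
    exact (hF.cont' _ (l ∘ₗ LinearMap.mulLeft ℂ (ι ℂ (dx i j)))).add
      (hF.cont' _ (l ∘ₗ LinearMap.mulLeft ℂ (ι ℂ (dy i j))))
  · simp only [hij, if_false]
    exact continuous_const

/-- `∫ a ∧ dψ ∧ ζ = 0`, `a` and `ζ` closed, `a` with compact support. -/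
theorem exact_zero {a ψ ζ : Sp n ⧸ Γ → Forms n} {Da Dψ Dζ : SymC n → Sp n ⧸ Γ → Forms n}
    (ha : IsC1 a Da) (ha0 : ∀ x, extD (fun Z => Da Z x) = 0) (hac : HasCompactSupport a)
    (hψ : IsC1 ψ Dψ) (hζ : IsC1 ζ Dζ) (hζ0 : ∀ x, extD (fun Z => Dζ Z x) = 0)
    (l : Forms n →ₗ[ℂ] ℂ) :
    Integrable (fun x => l (a x * (extD fun Z => Dψ Z x) * ζ x)) μ ∧
      ∫ x, l (a x * (extD fun Z => Dψ Z x) * ζ x) ∂μ = 0 := by
  set c : Forms n →ₗ[ℂ] Forms n := (CliffordAlgebra.involute).toLinearMap with hc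
  have hca : IsC1 (fun x => c (a x)) (fun Z x => c (Da Z x)) := ha.comp c
  have hF := (hca.mul hψ).mul hζ
  have hext : ∀ x, extD (fun Z => (c (Da Z x) * ψ x + c (a x) * Dψ Z x) * ζ x +
      c (a x) * ψ x * Dζ Z x) = a x * (extD fun Z => Dψ Z x) * ζ x := by
    intro x
    rw [extD_mul (c (a x) * ψ x) (ζ x) (fun Z => c (Da Z x) * ψ x + c (a x) * Dψ Z x)
      (fun Z => Dζ Z x), extD_mul (c (a x)) (ψ x) (fun Z => c (Da Z x)) (fun Z => Dψ Z x),
      hζ0, mul_zero, add_zero]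
    have h1 : extD (fun Z => c (Da Z x)) = 0 := by
      have := extD_involute (fun Z => Da Z x)
      rw [ha0, map_zero, neg_zero] at this
      exact this
    have h2 : CliffordAlgebra.involute (c (a x)) = a x := CliffordAlgebra.involute_involute _
    rw [h1, h2, zero_mul, zero_add]
  have hcac : HasCompactSupport fun x => c (a x) := hac.comp_left (map_zero c)
  have hi : ∀ l : Forms n →ₗ[ℂ] ℂ, Integrable (fun x => l (c (a x) * ψ x * ζ x)) μ := by
    intro l'
    have h1 := integrable_of_compact (μ := μ) hca.cont hcac (hψ.mul hζ).cont l'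
    simpa only [mul_assoc] using h1
  have hI : Integrable (fun x => l (a x * (extD fun Z => Dψ Z x) * ζ x)) μ := by
    have h1 := integrable_of_compact (μ := μ) ha.cont hac
      (b := fun x => (extD fun Z => Dψ Z x) * ζ x) (fun l' => by
        have := bil_continuous (bil l' 1) (fun l'' => continuous_extD hψ l'') hζ.cont
        simpa only [bil_apply, one_mul] using this) l
    simpa only [mul_assoc] using h1
  refine ⟨hI, ?_⟩
  have h0 := stokes hF hi l (by simp only [hext]; exact hI)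
  simpa only [hext] using h0

theorem IsAdm.second {ω φ φ' : Sp n ⧸ Γ → Forms n} (h : IsAdm ω φ φ') (hφ : IsClosedForm φ) :
    IsClosedForm φ' ∧ ∃ ψ θ : Sp n ⧸ Γ → Forms n, IsExtDeriv ψ θ ∧ ∀ x, φ' x = φ x + θ x := by
  rcases h with h | ⟨_, _, h1, h2⟩
  · subst h
    refine ⟨hφ, fun _ => 0, fun _ => 0, isExtDeriv_const fun κ => map_zero _, fun x => ?_⟩
    rw [add_zero]
  · exact ⟨h1, h2⟩

theorem adm_eq {ω φ η φ' η' : Sp n ⧸ Γ → Forms n} (hφ : IsClosedForm φ) (hη : IsClosedForm η)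
    (h1 : IsAdm ω φ φ') (h2 : IsAdm ω η η') (l : Forms n →ₗ[ℂ] ℂ) :
    ∫ x, l (ω x * φ' x * η' x) ∂μ = ∫ x, l (ω x * φ x * η x) ∂μ := by
  by_cases hω : IsClosedForm ω ∧ HasCompactSupport ω
  · obtain ⟨⟨Dω, hDω, hω0⟩, hωc⟩ := hω
    obtain ⟨hφ', ψ, θ, ⟨Dψ, hψ, hθ⟩, e1⟩ := h1.second hφ
    obtain ⟨hη', ψ', θ', ⟨Dψ', hψ', hθ'⟩, e2⟩ := h2.second hη
    obtain ⟨D1, hD1, hD10⟩ := hφ
    obtain ⟨D2, hD2, hD20⟩ := hη
    obtain ⟨D3, hD3, hD30⟩ := hη'
    -- the first term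
    obtain ⟨i1, z1⟩ := exact_zero (μ := μ) hDω.isC1 hω0 hωc hψ.isC1 hD3.isC1 hD30 l
    -- the second term
    have hext : ∀ x, extD (fun Z => Dω Z x * φ x + ω x * D1 Z x) = 0 := by
      intro x
      rw [extD_mul (ω x) (φ x) (fun Z => Dω Z x) (fun Z => D1 Z x), hω0, hD10, zero_mul,
        mul_zero, add_zero]
    have hcs : HasCompactSupport fun x => ω x * φ x := by
      refine hωc.mono fun x hx => ?_
      intro h0
      apply hx
      change ω x * φ x = 0
      rw [h0, zero_mul]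
    obtain ⟨i2, z2⟩ := exact_zero (μ := μ) (hDω.isC1.mul hD1.isC1) hext hcs hψ'.isC1
      (isC1_const 1) (fun _ => extD_zero) l
    have i3 : Integrable (fun x => l (ω x * φ x * η x)) μ := by
      have := integrable_of_compact (μ := μ) hDω.isC1.cont hωc (hD1.isC1.mul hD2.isC1).cont l
      simpa only [mul_assoc] using this
    have hsum : ∀ x, l (ω x * φ' x * η' x) = l (ω x * φ x * η x) +
        (l (ω x * (extD fun Z => Dψ Z x) * η' x) +
          l (ω x * φ x * (extD fun Z => Dψ' Z x) * 1)) := by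
      intro x
      rw [hθ, hθ', ← map_add, ← map_add]
      congr 1
      rw [mul_one, e1 x, e2 x]
      simp only [mul_add, add_mul]
      abel
    have i12 : Integrable (fun x => l (ω x * (extD fun Z => Dψ Z x) * η' x) +
        l (ω x * φ x * (extD fun Z => Dψ' Z x) * 1)) μ := i1.add i2
    simp only [hsum]
    rw [integral_add i3 i12, integral_add i1 i2, z1, z2, add_zero, add_zero]
  · have e1 : φ' = φ := by
      rcases h1 with h | ⟨a, b, _, _⟩
      · exact h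
      · exact absurd ⟨a, b⟩ hω
    have e2 : η' = η := by
      rcases h2 with h | ⟨a, b, _, _⟩
      · exact h
      · exact absurd ⟨a, b⟩ hω
    rw [e1, e2]

/-- the formula for all forms cohomologous to `hodgeTop`. -/
theorem main_lambda (hn : 0 < n) {ω φ η φ' η' : Sp n ⧸ Γ → Forms n} (hω : IsLambdaForm μ ω)
    (hφ : IsClosedForm φ) (hη : IsClosedForm η) (hφp : IsLp p μ φ) (hηq : IsLp q μ η)
    (h1 : IsAdm ω φ φ') (h2 : IsAdm ω η η') {φ₀ η₀ : Forms n}
    (hφ₀ : ∀ l : Forms n →ₗ[ℂ] ℂ, ∫ x, l (φ x) ∂μ = (μ.real Set.univ : ℂ) * l φ₀)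
    (hη₀ : ∀ l : Forms n →ₗ[ℂ] ℂ, ∫ x, l (η x) ∂μ = (μ.real Set.univ : ℂ) * l η₀)
    (l : Forms n →ₗ[ℂ] ℂ) :
    ∫ x, l (ω x * φ' x * η' x) ∂μ = (μ.real Set.univ : ℂ) * l (hodgeTop n * φ₀ * η₀) := by
  rw [adm_eq hφ hη h1 h2 l, lambda_eq hω hφ hη hφp hηq l]
  exact main hn hφ hη hφp hηq hφ₀ hη₀ l

end MP_74a8fd_ag.HP
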