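import Pool.Agent.Lib.MP_74a8fd_ag.HP.Lie
import Pool.Agent.Lib.MP_74a8fd_ag.HP.Gen
import Pool.Agent.Lib.MP_74a8fd_ag.HP.Ergq

/-! MP_74a8fd_ag, module MAUT: the Mautner phenomenon and the mean ergodic theorem. -/

open Matrix MeasureTheory Filter Topology
open scoped ENNReal

noncomputable section

namespace MP_74a8fd_ag.HP

section

variable {G X : Type*} [Group G] [TopologicalSpace G] [IsTopologicalGroup G]
  [TopologicalSpace X] [R1Space X] [MeasurableSpace X] [BorelSpace X] [MulAction G X]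
  [ContinuousSMul G X] {μ : Measure X} [IsFiniteMeasure μ] [μ.InnerRegularCompactLTTop]
  [SMulInvariantMeasure G X μ]

/-- Translations of a fixed element of `L²` depend continuously on the group element. -/
theorem tendsto_translate (F : Lp ℂ 2 μ) (c : ℕ → G) (hc : Tendsto c atTop (𝓝 1)) :
    Tendsto (fun k => DomMulAct.mk (c k) • F) atTop (𝓝 F) := by
  letI : MeasurableSpace G := borel G
  haveI : BorelSpace G := ⟨rfl⟩
  haveI : Fact ((2 : ℝ≥0∞) ≠ ∞) := ⟨ENNReal.ofNat_ne_top⟩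
  have h1 : Tendsto (fun k => DomMulAct.mk (c k)) atTop (𝓝 (DomMulAct.mk (1 : G))) :=
    (DomMulAct.continuous_mk.tendsto 1).comp hc
  have h2 : Continuous fun g : Gᵈᵐᵃ => g • F := continuous_id.smul continuous_const
  have h3 := (h2.tendsto (DomMulAct.mk (1 : G))).comp h1
  have h4 : DomMulAct.mk (1 : G) • F = F := by
    rw [DomMulAct.mk_one, one_smul]
  rw [h4] at h3
  exact h3

/-- The subgroup of the elements which fix `F`. -/
def fixer (G : Type*) {X : Type*} [Group G] [MeasurableSpace X] [MulAction G X] {μ : Measure X}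
    [SMulInvariantMeasure G X μ] [MeasurableConstSMul G X] (F : Lp ℂ 2 μ) : Subgroup G where
  carrier := {g | DomMulAct.mk g • F = F}
  one_mem' := by
    show DomMulAct.mk (1 : G) • F = F
    rw [DomMulAct.mk_one, one_smul]
  mul_mem' := by
    intro g h hg hh
    show DomMulAct.mk (g * h) • F = F
    rw [DomMulAct.mk_mul, mul_smul]
    rw [show DomMulAct.mk g • F = F from hg]
    exact hh
  inv_mem' := by
    intro g hg
    show DomMulAct.mk g⁻¹ • F = F
    rw [DomMulAct.mk_inv, inv_smul_eq_iff]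
    exact (show DomMulAct.mk g • F = F from hg).symm

theorem mem_fixer {g : G} {F : Lp ℂ 2 μ} : g ∈ fixer G F ↔ DomMulAct.mk g • F = F := Iff.rfl

/-- The Mautner phenomenon. -/
theorem mautner (F : Lp ℂ 2 μ) (b : ℕ → G) (hb : ∀ k, b k ∈ fixer G F) (u : G)
    (hu : Tendsto (fun k : ℕ => b k * u * (b k)⁻¹) atTop (𝓝 1)) : u ∈ fixer G F := by
  have h1 := tendsto_translate F _ hu
  have h2 : ∀ k, dist (DomMulAct.mk (b k * u * (b k)⁻¹) • F) F = dist (DomMulAct.mk u • F) F := by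
    intro k
    have h3 : DomMulAct.mk (b k * u * (b k)⁻¹) • F = DomMulAct.mk (b k)⁻¹ • (DomMulAct.mk u • F) := by
      rw [DomMulAct.mk_mul, mul_smul, DomMulAct.mk_mul, mul_smul]
      rw [show DomMulAct.mk (b k) • F = F from hb k]
    have h4 : DomMulAct.mk (b k)⁻¹ • F = F := (fixer G F).inv_mem (hb k)
    rw [h3]
    nth_rewrite 2 [← h4]
    exact dist_smul _ _ _
  have h5 : Tendsto (fun k : ℕ => dist (DomMulAct.mk (b k * u * (b k)⁻¹) • F) F) atTop (𝓝 0) := by
    have := (tendsto_iff_dist_tendsto_zero).1 h1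
    exact this
  simp only [h2] at h5
  have h6 : dist (DomMulAct.mk u • F) F = 0 := tendsto_nhds_unique tendsto_const_nhds h5
  exact dist_eq_zero.1 h6

/-- The composition with the translation by `a`, a linear isometry of `L²`. -/
def transl (a : G) : Lp ℂ 2 μ →ₗᵢ[ℂ] Lp ℂ 2 μ where
  toFun F := DomMulAct.mk a • F
  map_add' F F' := DomMulAct.smul_Lp_add _ _ _
  map_smul' c F := smul_comm _ _ _
  norm_map' F := DomMulAct.norm_smul_Lp _ _

theorem transl_iterate (a : G) (k : ℕ) (F : Lp ℂ 2 μ) :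
    (transl a : Lp ℂ 2 μ →ₗᵢ[ℂ] Lp ℂ 2 μ)^[k] F = DomMulAct.mk (a ^ k) • F := by
  induction k with
  | zero => simp
  | succ k ih =>
    rw [Function.iterate_succ_apply', ih, pow_succ, DomMulAct.mk_mul, mul_smul]
    show DomMulAct.mk a • (DomMulAct.mk (a ^ k) • F) = DomMulAct.mk a • DomMulAct.mk (a ^ k) • F
    rfl

/-- `⟪conj h, F⟫` for the class of a square integrable function. -/
theorem inner_conj_toLp {h : X → ℂ} (hh : MemLp (fun x => (starRingEnd ℂ) (h x)) 2 μ)
    (F : Lp ℂ 2 μ) : inner ℂ (hh.toLp _) F = ∫ x, F x * h x ∂μ := by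
  rw [L2.inner_def]
  refine integral_congr_ae ?_
  filter_upwards [hh.coeFn_toLp] with x hx
  rw [hx, RCLike.inner_apply, starRingEnd_self_apply]

theorem mean_general (a : G)
    (hgen : ∀ S : Subgroup G,
      (∀ u : G, Tendsto (fun k : ℕ => a ^ k * u * (a ^ k)⁻¹) atTop (𝓝 1) → u ∈ S) →
      (∀ u : G, Tendsto (fun k : ℕ => (a ^ k)⁻¹ * u * a ^ k) atTop (𝓝 1) → u ∈ S) → S = ⊤)
    (herg : ∀ F : X → ℂ, AEStronglyMeasurable F μ → (∀ g : G, (fun x => F (g • x)) =ᵐ[μ] F) →
      ∃ c : ℂ, F =ᵐ[μ] fun _ => c)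
    {A : Type*} [Fintype A] (f h : A → X → ℂ)
    (hf : ∀ i, MemLp (f i) 2 μ) (hh : ∀ i, MemLp (h i) 2 μ) (C : ℂ)
    (hC : ∀ k : ℕ, ∑ i, ∫ x, f i (a ^ k • x) * h i x ∂μ = C) :
    (μ.real Set.univ : ℂ) * C = ∑ i, (∫ x, f i x ∂μ) * (∫ x, h i x ∂μ) := by
  classical
  set U : Lp ℂ 2 μ →L[ℂ] Lp ℂ 2 μ := (transl a).toContinuousLinearMap with hU
  have hUn : ‖U‖ ≤ 1 := LinearIsometry.norm_toContinuousLinearMap_le _
  set K := U.eqLocus (1 : Lp ℂ 2 μ →L[ℂ] Lp ℂ 2 μ) with hK
  have hfix : ∀ F : Lp ℂ 2 μ, F ∈ K ↔ DomMulAct.mk a • F = F := fun F => Iff.rfl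
  have hiter : ∀ (k : ℕ) (F : Lp ℂ 2 μ), U^[k] F = DomMulAct.mk (a ^ k) • F := fun k F =>
    transl_iterate a k F
  -- fixed vectors are constant
  have hconst : ∀ F ∈ K, ∃ c : ℂ, (F : X → ℂ) =ᵐ[μ] fun _ => c := by
    intro F hF
    have h0 : a ∈ fixer G F := (hfix F).1 hF
    have h1 : fixer G F = ⊤ := by
      apply hgen
      · intro u hu
        exact mautner F (fun k => a ^ k) (fun k => Subgroup.pow_mem _ h0 k) u hu
      · intro u hu
        refine mautner F (fun k => (a ^ k)⁻¹)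
          (fun k => Subgroup.inv_mem _ (Subgroup.pow_mem _ h0 k)) u ?_
        simpa using hu
    refine herg F (Lp.aestronglyMeasurable F) fun g => ?_
    have h2 : g ∈ fixer G F := by rw [h1]; exact Subgroup.mem_top g
    have h3 := DomMulAct.smul_Lp_ae_eq (DomMulAct.mk g) F
    rw [show DomMulAct.mk g • F = F from h2] at h3
    exact h3.symm
  have hstar : ∀ i, MemLp (fun x => (starRingEnd ℂ) (h i x)) 2 μ := fun i => (hh i).star
  -- the limit of the averages
  have hlim : ∀ i, Tendsto (fun N : ℕ => inner ℂ ((hstar i).toLp _)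
      (birkhoffAverage ℂ U _root_.id N ((hf i).toLp (f i)))) atTop
      (𝓝 (inner ℂ ((hstar i).toLp _) (K.orthogonalProjectionOnto ((hf i).toLp (f i)) :
        Lp ℂ 2 μ))) := by
    intro i
    exact Tendsto.inner tendsto_const_nhds
      (U.tendsto_birkhoffAverage_orthogonalProjection hUn ((hf i).toLp (f i)))
  have hlim2 := tendsto_finsetSum (Finset.univ : Finset A) fun i _ => hlim i
  have hval : ∀ᶠ N : ℕ in atTop, ∑ i, inner ℂ ((hstar i).toLp _)
      (birkhoffAverage ℂ U _root_.id N ((hf i).toLp (f i))) = C := by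
    filter_upwards [eventually_gt_atTop 0] with N hN
    have h1 : ∀ i, inner ℂ ((hstar i).toLp _)
        (birkhoffAverage ℂ U _root_.id N ((hf i).toLp (f i))) =
        (N : ℂ)⁻¹ * ∑ k ∈ Finset.range N, ∫ x, f i (a ^ k • x) * h i x ∂μ := by
      intro i
      rw [birkhoffAverage, birkhoffSum, inner_smul_right, inner_sum]
      congr 1
      refine Finset.sum_congr rfl fun k _ => ?_
      rw [_root_.id, hiter, inner_conj_toLp, DomMulAct.mk_smul_toLp]
      refine integral_congr_ae ?_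
      filter_upwards [(MemLp.coeFn_toLp ((hf i).comp_measurePreserving
        (measurePreserving_smul (a ^ k) μ)))] with x hx
      simp only [Function.comp_def] at hx
      rw [hx]
    simp only [h1]
    rw [← Finset.mul_sum, Finset.sum_comm]
    simp only [hC]
    rw [Finset.sum_const, Finset.card_range, nsmul_eq_mul, ← mul_assoc, inv_mul_cancel₀, one_mul]
    exact_mod_cast hN.ne'
  have hCeq : ∑ i, inner ℂ ((hstar i).toLp _) (K.orthogonalProjectionOnto ((hf i).toLp (f i)) :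
        Lp ℂ 2 μ) = C := by
    refine tendsto_nhds_unique hlim2 ?_
    exact tendsto_const_nhds.congr' (hval.mono fun N hN => hN.symm)
  rw [← hCeq, Finset.mul_sum]
  refine Finset.sum_congr rfl fun i _ => ?_
  obtain ⟨c, hc⟩ := hconst _ (K.orthogonalProjectionOnto ((hf i).toLp (f i))).2
  rw [inner_conj_toLp]
  have h1 : ∫ x, (K.orthogonalProjectionOnto ((hf i).toLp (f i)) : Lp ℂ 2 μ) x * h i x ∂μ =
      c * ∫ x, h i x ∂μ := by
    rw [← integral_const_mul]
    refine integral_congr_ae ?_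
    filter_upwards [hc] with x hx
    rw [hx]
  have h2 : (μ.real Set.univ : ℂ) * c = ∫ x, f i x ∂μ := by
    have hone : Lp.const 2 μ (1 : ℂ) ∈ K := by
      rw [hfix]
      exact DomMulAct.smul_Lp_const _ _
    have h3 : inner ℂ (Lp.const 2 μ (1 : ℂ)) (K.orthogonalProjectionOnto ((hf i).toLp (f i)) :
        Lp ℂ 2 μ) = inner ℂ (Lp.const 2 μ (1 : ℂ)) ((hf i).toLp (f i)) :=
      K.inner_orthogonalProjectionOnto_eq_of_mem_left ⟨_, hone⟩ _
    rw [L2.inner_def, L2.inner_def] at h3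
    have h4 : ∫ x, inner ℂ (Lp.const 2 μ (1 : ℂ) x)
        ((K.orthogonalProjectionOnto ((hf i).toLp (f i)) : Lp ℂ 2 μ) x) ∂μ =
        ∫ x, c ∂μ := by
      refine integral_congr_ae ?_
      filter_upwards [hc, Lp.coeFn_const 2 μ (1 : ℂ)] with x hx hx1
      rw [hx, hx1, RCLike.inner_apply]
      simp
    have h5 : ∫ x, inner ℂ (Lp.const 2 μ (1 : ℂ) x) ((hf i).toLp (f i) x) ∂μ =
        ∫ x, f i x ∂μ := by
      refine integral_congr_ae ?_
      filter_upwards [(hf i).coeFn_toLp, Lp.coeFn_const 2 μ (1 : ℂ)] with x hx hx1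
      rw [hx, hx1, RCLike.inner_apply]
      simp
    rw [h4, h5, integral_const] at h3
    rw [← h3]
    simp
  rw [h1, ← mul_assoc, h2]

end

/-- If the correlations of `f` and `h` along the powers of `pExp (E 1 o o)` are constant then they
are given by the means. -/
theorem mean_of_const {n : ℕ} (o : Fin n) (Γ : Subgroup (Sp n)) [DiscreteTopology Γ]
    [MeasurableSpace (Sp n ⧸ Γ)] [BorelSpace (Sp n ⧸ Γ)]
    (μ : Measure (Sp n ⧸ Γ)) [IsFiniteMeasure μ] [SMulInvariantMeasure (Sp n) (Sp n ⧸ Γ) μ]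
    {A : Type*} [Fintype A] (f h : A → Sp n ⧸ Γ → ℂ)
    (hf : ∀ a, MemLp (f a) 2 μ) (hh : ∀ a, MemLp (h a) 2 μ) (C : ℂ)
    (hC : ∀ k : ℕ, ∑ a, ∫ x, f a ((pExp (E 1 o o)) ^ k • x) * h a x ∂μ = C) :
    (μ.real Set.univ : ℂ) * C = ∑ a, (∫ x, f a x ∂μ) * (∫ x, h a x ∂μ) := by
  have h0 : IsClosed (Γ : Set (Sp n)) := Subgroup.isClosed_of_discrete
  have h1 : T2Space (Sp n ⧸ Γ) := inferInstance
  have h2 : μ.InnerRegularCompactLTTop := inferInstance
  exact mean_general (μ := μ) (pExp (E 1 o o)) (gen_top o) (ae_const_of_invariant Γ μ) f h hf hh C hC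

end MP_74a8fd_ag.HP
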