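import Pool.Agent.Lib.MP_74a8fd_ag.HP.Defs2

/-! MP_74a8fd_ag: the integral symplectic group is a discrete subgroup of `Sp n`. -/

open Matrix MeasureTheory Filter Topology

noncomputable section

namespace MP_74a8fd_ag.HP

/-- The integral symplectic group: the elements of `Sp n` with integer entries. -/
def SpZ (n : ℕ) : Subgroup (Sp n) where
  carrier := {g | ∀ i j, ∃ z : ℤ, (g : Matrix (Fin n ⊕ Fin n) (Fin n ⊕ Fin n) ℝ) i j = z}
  mul_mem' := by
    intro a b ha hb i j
    choose f hf using ha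
    choose g hg using hb
    refine ⟨∑ k, f i k * g k j, ?_⟩
    rw [Submonoid.coe_mul, Matrix.mul_apply]
    push_cast
    exact Finset.sum_congr rfl fun k _ => by rw [hf, hg]
  one_mem' := by
    intro i j
    by_cases h : i = j
    · exact ⟨1, by simp [h]⟩
    · exact ⟨0, by simp [h]⟩
  inv_mem' := by
    intro a ha
    choose f hf using ha
    have hJ : ∀ i j, ∃ z : ℤ, Matrix.J (Fin n) ℝ i j = z := by
      intro i j
      rcases i with i | i <;> rcases j with j | j
      · exact ⟨0, by simp [Matrix.J]⟩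
      · by_cases h : i = j
        · exact ⟨-1, by simp [Matrix.J, h]⟩
        · exact ⟨0, by simp [Matrix.J, h]⟩
      · by_cases h : i = j
        · exact ⟨1, by simp [Matrix.J, h]⟩
        · exact ⟨0, by simp [Matrix.J, h]⟩
      · exact ⟨0, by simp [Matrix.J]⟩
    choose g hg using hJ
    intro i j
    refine ⟨∑ k, (∑ l, -(g i l) * f k l) * g k j, ?_⟩
    rw [SymplecticGroup.coe_inv, Matrix.mul_apply]
    push_cast
    refine Finset.sum_congr rfl fun k _ => ?_
    rw [← hg, Matrix.mul_apply]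
    congr 1
    refine Finset.sum_congr rfl fun l _ => ?_
    rw [← hg, ← hf, Matrix.neg_apply, Matrix.transpose_apply]

theorem mem_SpZ {n : ℕ} {g : Sp n} : g ∈ SpZ n ↔
    ∀ i j, ∃ z : ℤ, (g : Matrix (Fin n ⊕ Fin n) (Fin n ⊕ Fin n) ℝ) i j = z := Iff.rfl

instance discreteTopology_SpZ (n : ℕ) : DiscreteTopology (SpZ n) := by
  have hex : ∀ g : SpZ n, ∃ A : Matrix (Fin n ⊕ Fin n) (Fin n ⊕ Fin n) ℤ,
      ∀ i j, ((g : Sp n) : Matrix (Fin n ⊕ Fin n) (Fin n ⊕ Fin n) ℝ) i j = A i j := by
    intro g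
    have h := g.2
    rw [mem_SpZ] at h
    choose f hf using h
    exact ⟨f, hf⟩
  choose ψ hψ using hex
  have hc : Continuous ψ := by
    refine continuous_pi fun i => continuous_pi fun j => ?_
    rw [Int.isClosedEmbedding_coe_real.isInducing.continuous_iff]
    have : ((Int.cast : ℤ → ℝ) ∘ fun g : SpZ n => ψ g i j) = fun g : SpZ n =>
        ((g : Sp n) : Matrix (Fin n ⊕ Fin n) (Fin n ⊕ Fin n) ℝ) i j := by
      funext g
      exact (hψ g i j).symm
    rw [this]
    exact (continuous_subtype_val.comp continuous_subtype_val).matrix_elem i j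
  have hd : DiscreteTopology (Matrix (Fin n ⊕ Fin n) (Fin n ⊕ Fin n) ℤ) :=
    inferInstanceAs (DiscreteTopology ((Fin n ⊕ Fin n) → (Fin n ⊕ Fin n) → ℤ))
  refine DiscreteTopology.of_continuous_injective hc ?_
  intro a b hab
  apply Subtype.ext
  apply Subtype.ext
  ext i j
  rw [hψ, hψ, hab]

end MP_74a8fd_ag.HP
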