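import Pool.Agent.Lib.MP_74a8fd_ag.HP.Core2

/-! MP_74a8fd_ag: the theorem of Stokes for integrable forms (Gaffney), and the product rule. -/

open Matrix MeasureTheory Filter Topology

set_option linter.unusedSectionVars false

noncomputable section

namespace MP_74a8fd_ag.HP

open ExteriorAlgebra (ι)

variable {n : ℕ} {Γ : Subgroup (Sp n)} [DiscreteTopology Γ]
    [MeasurableSpace (Sp n ⧸ Γ)] [BorelSpace (Sp n ⧸ Γ)]
    {μ : Measure (Sp n ⧸ Γ)} [IsFiniteMeasure μ] [SMulInvariantMeasure (Sp n) (Sp n ⧸ Γ) μ]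
    {p q : ENNReal} [ENNReal.HolderConjugate p q]

/-- A `C¹` function with values in the exterior algebra, `D` its derivative. -/
structure IsC1 (F : Sp n ⧸ Γ → Forms n) (D : SymC n → Sp n ⧸ Γ → Forms n) : Prop where
  cont : ∀ l : Forms n →ₗ[ℂ] ℂ, Continuous fun x => l (F x)
  cont' : ∀ (Z : SymC n) (l : Forms n →ₗ[ℂ] ℂ), Continuous fun x => l (D Z x)
  deriv : ∀ (Z : SymC n) (l : Forms n →ₗ[ℂ] ℂ) (x : Sp n ⧸ Γ),
      HasDerivAt (fun t : ℝ => l (F (pExp (t • Z) • x))) (l (D Z x)) 0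

omit [DiscreteTopology Γ] [MeasurableSpace (Sp n ⧸ Γ)] [BorelSpace (Sp n ⧸ Γ)] in
theorem IsC1.mul {F G : Sp n ⧸ Γ → Forms n} {D D' : SymC n → Sp n ⧸ Γ → Forms n}
    (hF : IsC1 F D) (hG : IsC1 G D') :
    IsC1 (fun x => F x * G x) (fun Z x => D Z x * G x + F x * D' Z x) where
  cont := by
    intro l
    have := bil_continuous (bil l 1) hF.cont hG.cont
    simpa only [bil_apply, one_mul] using this
  cont' := by
    intro Z l
    have h1 := bil_continuous (bil l 1) (hF.cont' Z) hG.cont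
    have h2 := bil_continuous (bil l 1) hF.cont (hG.cont' Z)
    simp only [bil_apply, one_mul] at h1 h2
    have h3 : Continuous fun x => l (D Z x * G x) + l (F x * D' Z x) := h1.add h2
    simpa only [← map_add] using h3
  deriv := by
    intro Z l x
    have h := bil_hasDerivAt (bil l 1) (hF.deriv Z · x) (hG.deriv Z · x)
    simp only [bil_apply, one_mul, zero_smul, pExp_zero, one_smul, ← map_add] at h
    exact h

omit [DiscreteTopology Γ] [MeasurableSpace (Sp n ⧸ Γ)] [BorelSpace (Sp n ⧸ Γ)] in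
theorem IsC1.comp {F : Sp n ⧸ Γ → Forms n} {D : SymC n → Sp n ⧸ Γ → Forms n}
    (hF : IsC1 F D) (c : Forms n →ₗ[ℂ] Forms n) :
    IsC1 (fun x => c (F x)) (fun Z x => c (D Z x)) where
  cont := fun l => hF.cont (l ∘ₗ c)
  cont' := fun Z l => hF.cont' Z (l ∘ₗ c)
  deriv := fun Z l x => hF.deriv Z (l ∘ₗ c) x

theorem extD_mul (a b : Forms n) (D D' : SymC n → Forms n) :
    extD (fun Z => D Z * b + a * D' Z) =
      extD D * b + CliffordAlgebra.involute a * extD D' := by
  unfold extD wmul wi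
  rw [Finset.sum_mul, Finset.mul_sum, ← Finset.sum_add_distrib]
  refine Finset.sum_congr rfl fun i _ => ?_
  rw [Finset.sum_mul, Finset.mul_sum, ← Finset.sum_add_distrib]
  refine Finset.sum_congr rfl fun j _ => ?_
  split_ifs with h
  · rw [mul_add, mul_add, ← mul_assoc (ι ℂ (dx i j)) a, ← mul_assoc (ι ℂ (dy i j)) a,
      ι_mul_comm (dx i j) a, ι_mul_comm (dy i j) a]
    simp only [mul_assoc, mul_add, add_mul]
    abel
  · simp

theorem extD_involute (D : SymC n → Forms n) :
    extD (fun Z => CliffordAlgebra.involute (D Z)) = -CliffordAlgebra.involute (extD D) := by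
  unfold extD wmul wi
  rw [map_sum, ← Finset.sum_neg_distrib]
  refine Finset.sum_congr rfl fun i _ => ?_
  rw [map_sum, ← Finset.sum_neg_distrib]
  refine Finset.sum_congr rfl fun j _ => ?_
  have hinv : ∀ ω : PDual n, CliffordAlgebra.involute (ι ℂ ω) = -ι ℂ ω := fun ω =>
    CliffordAlgebra.involute_ι ω
  split_ifs with h
  · rw [map_add, map_mul, map_mul, hinv, hinv]
    simp only [neg_mul, neg_add, neg_neg]
  · simp

/-- The theorem of Stokes: the integral of an exact form is zero. -/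
theorem stokes {F : Sp n ⧸ Γ → Forms n} {D : SymC n → Sp n ⧸ Γ → Forms n} (hF : IsC1 F D)
    (hi : ∀ l : Forms n →ₗ[ℂ] ℂ, Integrable (fun x => l (F x)) μ)
    (l : Forms n →ₗ[ℂ] ℂ) (hI : Integrable (fun x => l (extD fun Z => D Z x)) μ) :
    ∫ x, l (extD fun Z => D Z x) ∂μ = 0 := by
  have hcl : IsClosed (Γ : Set (Sp n)) := Subgroup.isClosed_of_discrete
  have hT2 : T2Space (Sp n ⧸ Γ) := inferInstance
  obtain ⟨χ, hχ, hχc, hχ1, hχt, hL⟩ := exists_cutoff Γ
  have hint : ∀ (R : ℕ) (f : (Sp n ⧸ Γ) → ℂ), Continuous f →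
      Integrable (fun x => (χ R x : ℂ) * f x) μ := by
    intro R f hf
    have h1 : Continuous (fun x => (χ R x : ℂ) * f x) :=
      (Complex.continuous_ofReal.comp (hχ R)).mul hf
    refine h1.integrable_of_hasCompactSupport ?_
    refine (hχc R).mono' ?_
    intro x hx
    refine subset_tsupport _ ?_
    intro h0
    apply hx
    change (χ R x : ℂ) * f x = 0
    rw [h0]
    simp
  -- the estimate for one direction
  have hone : ∀ (ω : PDual n) (Z : SymC n), ∃ K : ℝ, 0 ≤ K ∧ ∀ R : ℕ,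
      ‖∫ x, (χ R x : ℂ) * l (ι ℂ ω * D Z x) ∂μ‖ ≤ K / (R + 1) := by
    intro ω Z
    obtain ⟨L, hL0, hL1⟩ := hL Z
    let l' : Forms n →ₗ[ℂ] ℂ := l ∘ₗ LinearMap.mulLeft ℂ (ι ℂ ω)
    refine ⟨L * ∫ x, ‖l' (F x)‖ ∂μ, by positivity, fun R => ?_⟩
    have h1 := gaffney (isFlow (μ := μ) Z) (v := fun x => l' (F x)) (v' := fun x => l' (D Z x))
      (hF.cont l') (hF.cont' Z l') (hi l') (fun x => hF.deriv Z l' x) (hχ R) (hχc R)
      (L := L / (R + 1)) (fun r x => by
        have := hL1 R x r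
        rw [div_mul_eq_mul_div]
        exact this)
    rw [div_mul_eq_mul_div] at h1
    exact h1
  let G : Fin n → Fin n → (Sp n ⧸ Γ) → ℂ := fun i j x => if i ≤ j then
    l (ι ℂ (dx i j) * D (E 1 i j) x) + l (ι ℂ (dy i j) * D (E Complex.I i j) x) else 0
  have hc : ∀ (ω : PDual n) (Z : SymC n), Continuous fun x => l (ι ℂ ω * D Z x) := fun ω Z =>
    hF.cont' Z (l ∘ₗ LinearMap.mulLeft ℂ (ι ℂ ω))
  have hGc : ∀ i j, Continuous (G i j) := by
    intro i j
    by_cases hij : i ≤ j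
    · have : G i j = fun x => l (ι ℂ (dx i j) * D (E 1 i j) x) +
          l (ι ℂ (dy i j) * D (E Complex.I i j) x) := by
        ext x; exact if_pos hij
      rw [this]
      exact (hc _ _).add (hc _ _)
    · have : G i j = fun _ => 0 := by
        ext x; exact if_neg hij
      rw [this]
      exact continuous_const
  have hGest : ∀ i j : Fin n, ∃ K : ℝ, 0 ≤ K ∧ ∀ R : ℕ,
        ‖∫ x, (χ R x : ℂ) * G i j x ∂μ‖ ≤ K / (R + 1) := by
    intro i j
    by_cases hij : i ≤ j
    · obtain ⟨K1, hK1, h1⟩ := hone (dx i j) (E 1 i j)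
      obtain ⟨K2, hK2, h2⟩ := hone (dy i j) (E Complex.I i j)
      refine ⟨K1 + K2, add_nonneg hK1 hK2, fun R => ?_⟩
      have h3 : ∫ x, (χ R x : ℂ) * G i j x ∂μ =
          (∫ x, (χ R x : ℂ) * l (ι ℂ (dx i j) * D (E 1 i j) x) ∂μ) +
          ∫ x, (χ R x : ℂ) * l (ι ℂ (dy i j) * D (E Complex.I i j) x) ∂μ := by
        rw [← integral_add (hint R _ (hc _ _)) (hint R _ (hc _ _))]
        congr 1
        ext x
        have : G i j x = l (ι ℂ (dx i j) * D (E 1 i j) x) +
          l (ι ℂ (dy i j) * D (E Complex.I i j) x) := if_pos hij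
        rw [this]
        ring
      rw [h3, add_div]
      exact (norm_add_le _ _).trans (add_le_add (h1 R) (h2 R))
    · refine ⟨0, le_rfl, fun R => ?_⟩
      have h0 : ∀ x, G i j x = 0 := fun x => if_neg hij
      simp [h0]
  choose K hK0 hK using hGest
  have hsum : ∀ x, l (extD fun Z => D Z x) = ∑ i, ∑ j, G i j x := by
    intro x
    unfold extD wmul wi
    rw [map_sum]
    refine Finset.sum_congr rfl fun i _ => ?_
    rw [map_sum]
    refine Finset.sum_congr rfl fun j _ => ?_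
    change _ = if i ≤ j then _ else _
    split_ifs with h
    · rw [map_add]
    · rw [map_zero]
  have h2 : ∀ R : ℕ, ‖∫ x, (χ R x : ℂ) * l (extD fun Z => D Z x) ∂μ‖ ≤
      (∑ i, ∑ j, K i j) * (1 / ((R : ℝ) + 1)) := by
    intro R
    simp only [hsum, Finset.mul_sum]
    rw [integral_finsetSum _ (fun i _ => integrable_finsetSum _ (fun j _ => hint R _ (hGc i j)))]
    rw [Finset.sum_mul]
    refine (norm_sum_le _ _).trans (Finset.sum_le_sum fun i _ => ?_)
    rw [integral_finsetSum _ (fun j _ => hint R _ (hGc i j)), Finset.sum_mul]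
    refine (norm_sum_le _ _).trans (Finset.sum_le_sum fun j _ => ?_)
    have := hK i j R
    rwa [div_eq_mul_one_div] at this
  have h3 : Tendsto (fun R : ℕ => ∫ x, (χ R x : ℂ) * l (extD fun Z => D Z x) ∂μ) atTop
      (𝓝 (∫ x, l (extD fun Z => D Z x) ∂μ)) := by
    refine tendsto_integral_of_dominated_convergence (fun x => ‖l (extD fun Z => D Z x)‖)
      ?_ ?_ ?_ ?_
    · intro R
      exact (Complex.continuous_ofReal.comp (hχ R)).aestronglyMeasurable.mul
        hI.aestronglyMeasurable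
    · exact hI.norm
    · intro R
      refine Filter.Eventually.of_forall fun x => ?_
      rw [norm_mul, Complex.norm_real, Real.norm_eq_abs, abs_of_nonneg (hχ1 R x).1]
      exact mul_le_of_le_one_left (norm_nonneg _) (hχ1 R x).2
    · refine Filter.Eventually.of_forall fun x => ?_
      have h4 : Tendsto (fun R : ℕ => ((χ R x : ℝ) : ℂ)) atTop (𝓝 ((1 : ℝ) : ℂ)) :=
        (Complex.continuous_ofReal.tendsto 1).comp (hχt x)
      have h5 := h4.mul_const (l (extD fun Z => D Z x))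
      simpa using h5
  have h4 : Tendsto (fun R : ℕ => ∫ x, (χ R x : ℂ) * l (extD fun Z => D Z x) ∂μ) atTop
      (𝓝 0) := by
    rw [tendsto_zero_iff_norm_tendsto_zero]
    refine squeeze_zero (fun R => norm_nonneg _) h2 ?_
    have h5 : Tendsto (fun R : ℕ => (∑ i, ∑ j, K i j) * (1 / ((R : ℝ) + 1))) atTop
        (𝓝 ((∑ i, ∑ j, K i j) * 0)) :=
      (tendsto_one_div_add_atTop_nhds_zero_nat (𝕜 := ℝ)).const_mul _
    rwa [mul_zero] at h5
  exact tendsto_nhds_unique h3 h4

end MP_74a8fd_ag.HP
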