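import Pool.Agent.Lib.MP_74a8fd_ag.HP.Lam

/-! MP_74a8fd_ag: from the mean formula to the homomorphism property. -/

open Matrix MeasureTheory Filter Topology

set_option linter.unusedSectionVars false

noncomputable section

namespace MP_74a8fd_ag.HP

/-- `γ` is the value at the base point of an invariant differential form. -/
def IsInv {n : ℕ} (γ : Forms n) : Prop :=
  ∀ κ : Matrix.unitaryGroup (Fin n) ℂ, rhoF κ γ = γ

/-- The invariant form `τ` is a tautological projection of `φ`, for the pairing defined by `ω`: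
`∫ ω ∧ φ ∧ γ` is equal to `∫ c ∧ τ ∧ γ` for all invariant forms `γ`, where `c = hodgeTop n` is the
top Chern form of the Hodge bundle (`top` is a linear form on the exterior algebra, for instance
the coefficient of the volume form). -/
def IsTaut {n : ℕ} {Γ : Subgroup (Sp n)} [MeasurableSpace (Sp n ⧸ Γ)] (μ : Measure (Sp n ⧸ Γ))
    (top : FDual n) (ω φ : Sp n ⧸ Γ → Forms n) (τ : Forms n) : Prop :=
  IsInv τ ∧ ∀ γ : Forms n, IsInv γ →
    ∫ x, ev top (wmul (wmul (ω x) (φ x)) γ) ∂μ =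
      (μ.real Set.univ : ℂ) * ev top (wmul (wmul (hodgeTop n) τ) γ)

theorem isInv_mul {n : ℕ} {a b : Forms n} (ha : IsInv a) (hb : IsInv b) : IsInv (a * b) := by
  intro κ
  have h1 : rho κ a = a := ha κ
  have h2 : rho κ b = b := hb κ
  change rho κ (a * b) = a * b
  rw [map_mul, h1, h2]

variable {n : ℕ} {Γ : Subgroup (Sp n)} [DiscreteTopology Γ]
    [MeasurableSpace (Sp n ⧸ Γ)] [BorelSpace (Sp n ⧸ Γ)]
    {μ : Measure (Sp n ⧸ Γ)} [IsFiniteMeasure μ] [SMulInvariantMeasure (Sp n) (Sp n ⧸ Γ) μ]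

theorem memLp_of_compact [CompactSpace (Sp n ⧸ Γ)] {p : ENNReal} {f : Sp n ⧸ Γ → ℂ}
    (hf : Continuous f) : MemLp f p μ := by
  obtain ⟨C, hC⟩ := (isCompact_range hf).isBounded.exists_norm_le
  exact MemLp.of_bound hf.aestronglyMeasurable C
    (Filter.Eventually.of_forall (fun x => hC _ ⟨x, rfl⟩))

theorem isLp_of_compact [CompactSpace (Sp n ⧸ Γ)] {p : ENNReal}
    {φ : Sp n ⧸ Γ → Forms n} (h : IsClosedForm φ) : IsLp p μ φ :=
  fun l => memLp_of_compact (h.continuous l)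

theorem exists_mean {p : ENNReal} (hp : 1 ≤ p) {φ : Sp n ⧸ Γ → Forms n}
    (hφ : IsClosedForm φ) (hφp : IsLp p μ φ) :
    ∃ φ₀ : Forms n, IsInv φ₀ ∧ IsMean μ φ φ₀ := by
  by_cases hμ : (μ.real Set.univ : ℂ) = 0
  · refine ⟨0, fun κ => map_zero (rho κ), fun l => ?_⟩
    have hμ0 : μ = 0 := by
      have : μ.real Set.univ = 0 := by exact_mod_cast hμ
      rw [measureReal_eq_zero_iff] at this
      exact Measure.measure_univ_eq_zero.1 this
    rw [hμ0]
    simp
  · set B := Module.finBasis ℂ (Forms n) with hB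
    have h1 : ∀ l : Forms n →ₗ[ℂ] ℂ, ∫ x, l (φ x) ∂μ = (μ.real Set.univ : ℂ) *
        l (∑ i, ((μ.real Set.univ : ℂ)⁻¹ * ∫ x, B.coord i (φ x) ∂μ) • B i) := by
      intro l
      have h2 : ∀ x, l (φ x) = ∑ i, B.coord i (φ x) * l (B i) := by
        intro x
        conv_lhs => rw [← B.sum_repr (φ x)]
        simp only [map_sum, map_smul, smul_eq_mul, Module.Basis.coord_apply]
      simp only [h2]
      rw [integral_finsetSum]
      · rw [map_sum, Finset.mul_sum]
        refine Finset.sum_congr rfl (fun i _ => ?_)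
        rw [integral_mul_const, map_smul, smul_eq_mul]
        field_simp
      · intro i _
        exact ((hφp (B.coord i)).integrable hp).mul_const _
    exact ⟨_, fun κ => mean_invariant hφ h1 hμ κ, h1⟩

theorem isLambdaForm_hodgeTop : IsLambdaForm μ (fun _ => hodgeTop n) := by
  refine ⟨fun l => memLp_const _, fun _ => 0, fun _ => 0, fun l => memLp_const _,
    isExtDeriv_const fun κ => map_zero _, fun x => ?_⟩
  rw [add_zero]

theorem isTaut_mean {p q : ENNReal} [ENNReal.HolderConjugate p q] (hn : 0 < n)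
    {ω φ φ' : Sp n ⧸ Γ → Forms n} (hω : IsLambdaForm μ ω) (hφ : IsClosedForm φ)
    (hφp : IsLp p μ φ) (h1 : IsAdm ω φ φ') {φ₀ : Forms n} (h0 : IsInv φ₀)
    (hφ₀ : IsMean μ φ φ₀) (top : Forms n →ₗ[ℂ] ℂ) : IsTaut μ top ω φ' φ₀ := by
  refine ⟨h0, fun γ hγ => ?_⟩
  have hγc : IsClosedForm (Γ := Γ) (fun _ => γ) := isExtDeriv_const hγ
  exact main_lambda (p := p) (q := q) hn hω hφ hγc hφp (fun l => memLp_const _) h1 (Or.inl rfl)
    hφ₀ (fun l => by rw [integral_const]; rfl) top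

theorem isTaut_mul {p q : ENNReal} [ENNReal.HolderConjugate p q] (hn : 0 < n)
    {ω φ η φ' η' : Sp n ⧸ Γ → Forms n} (hω : IsLambdaForm μ ω)
    (hφ : IsClosedForm φ) (hη : IsClosedForm η)
    (hφp : IsLp p μ φ) (hηq : IsLp q μ η) (a1 : IsAdm ω φ φ') (a2 : IsAdm ω η η')
    (top : Forms n →ₗ[ℂ] ℂ) {τ σ : Forms n}
    (hτ : IsTaut μ top ω φ' τ) (hσ : IsTaut μ top ω η' σ) :
    IsTaut μ top ω (fun x => wmul (φ' x) (η' x)) (wmul τ σ) := by
  have : ENNReal.HolderConjugate q p := ENNReal.HolderConjugate.symm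
  obtain ⟨φ₀, i1, h1⟩ := exists_mean (ENNReal.HolderConjugate.one_le p q) hφ hφp
  obtain ⟨η₀, i2, h2⟩ := exists_mean (ENNReal.HolderConjugate.one_le q p) hη hηq
  refine ⟨isInv_mul hτ.1 hσ.1, fun γ hγ => ?_⟩
  by_cases hμ : (μ.real Set.univ : ℂ) = 0
  · have hμ0 : μ = 0 := by
      have : μ.real Set.univ = 0 := by exact_mod_cast hμ
      rw [measureReal_eq_zero_iff] at this
      exact Measure.measure_univ_eq_zero.1 this
    rw [hμ0]
    simp
  have e1 : ∫ x, top (ω x * (φ' x * η' x) * γ) ∂μ =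
      (μ.real Set.univ : ℂ) * top (hodgeTop n * φ₀ * η₀ * γ) := by
    have := main_lambda hn hω hφ hη hφp hηq a1 a2 h1 h2 (top ∘ₗ (LinearMap.mulRight ℂ γ))
    simp only [LinearMap.comp_apply, LinearMap.mulRight_apply] at this
    rw [← this]
    simp only [mul_assoc]
  have m1 := isTaut_mean (q := q) hn hω hφ hφp a1 i1 h1 top
  have m2 := isTaut_mean (q := p) hn hω hη hηq a2 i2 h2 top
  have t1 : ∀ δ : Forms n, IsInv δ → top (hodgeTop n * φ₀ * δ) = top (hodgeTop n * τ * δ) := by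
    intro δ hδ
    exact mul_left_cancel₀ hμ ((m1.2 δ hδ).symm.trans (hτ.2 δ hδ))
  have t2 : ∀ δ : Forms n, IsInv δ → top (hodgeTop n * η₀ * δ) = top (hodgeTop n * σ * δ) := by
    intro δ hδ
    exact mul_left_cancel₀ hμ ((m2.2 δ hδ).symm.trans (hσ.2 δ hδ))
  have e2 : top (hodgeTop n * φ₀ * η₀ * γ) = top (hodgeTop n * (τ * σ) * γ) := by
    rw [mul_assoc _ η₀ γ, t1 (η₀ * γ) (isInv_mul i2 hγ)]
    rw [mul_assoc (hodgeTop n) τ, ← mul_assoc τ η₀ γ, mul_comm_of_inv hτ.1 η₀,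
      mul_assoc η₀ τ γ, ← mul_assoc (hodgeTop n) η₀,
      t2 (τ * γ) (isInv_mul hτ.1 hγ)]
    rw [mul_assoc (hodgeTop n) σ, ← mul_assoc σ τ γ, ← mul_comm_of_inv hτ.1 σ,
      ← mul_assoc (hodgeTop n)]
  exact e1.trans (congrArg (fun z => (μ.real Set.univ : ℂ) * z) e2)

end MP_74a8fd_ag.HP
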